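import Pool.Agent.Helper43.CQ.BaseThree

/-!
# Hamiltonian paths in circulant graphs with two generators
-/

set_option autoImplicit false

namespace Pool.Agent.Helper43.CQ

/-- integers that differ by `1` or by `j` -/
def zadj (j : ℤ) (k l : ℤ) : Prop := l = k + 1 ∨ k = l + 1 ∨ l = k + j ∨ k = l + j

theorem zadj_symm (j : ℤ) (k l : ℤ) (h : zadj j k l) : zadj j l k := by
  unfold zadj at *
  omega

theorem rect_int {j q : ℕ} {S : Set ℤ} {p p' : ℤ × ℤ} (H : HP gadj (rect j q) p p')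
    {k k' : ℤ} (hS : ∀ k, k ∈ S ↔ 0 ≤ k ∧ k < q * j) (hk : p.1 + p.2 * j = k)
    (hk' : p'.1 + p'.2 * j = k') : HP (zadj j) S k k' := by
  refine H.map (fun p => p.1 + p.2 * j) ?_ ?_ ?_ hk hk'
  · rintro ⟨a, b⟩ hab ⟨c, d⟩ hcd he
    rw [mem_rect] at hab hcd
    simp only at he
    have h1 : (j : ℤ) ∣ a - c := ⟨d - b, by linear_combination he⟩
    have h2 := Int.eq_zero_of_abs_lt_dvd h1 (by rw [abs_lt]; omega)
    have h3 : a = c := by omega
    subst h3
    have h4 : b * j = d * (j : ℤ) := by linarith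
    have h5 : b = d := mul_right_cancel₀ (by omega) h4
    rw [h5]
  · rintro ⟨a, b⟩ - ⟨c, d⟩ - hadj
    unfold gadj at hadj
    unfold zadj
    simp only at hadj ⊢
    rcases hadj with ⟨h1, h2 | h2⟩ | ⟨h1, h2 | h2⟩
    · right; right; left
      rw [h1, h2]; ring
    · right; right; right
      rw [h1, h2]; ring
    · left
      rw [h1, h2]; ring
    · right; left
      rw [h1, h2]; ring
  · intro k
    rw [hS]
    constructor
    · rintro ⟨h1, h2⟩
      have hj : (0 : ℤ) < j := by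
        rcases Nat.eq_zero_or_pos j with h | h
        · subst h
          simp at h2
          omega
        · omega
      refine ⟨(k % j, k / j), (mem_rect _ _ _ _).2 ⟨Int.emod_nonneg _ hj.ne',
        Int.emod_lt_of_pos _ hj, Int.ediv_nonneg h1 hj.le, Int.ediv_lt_of_lt_mul hj h2⟩, ?_⟩
      simp only
      rw [mul_comm]
      exact Int.emod_add_mul_ediv k j
    · rintro ⟨⟨a, b⟩, hab, he⟩
      rw [mem_rect] at hab
      simp only at he
      rw [← he]
      obtain ⟨h1, h2, h3, h4⟩ := hab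
      constructor
      · positivity
      · have h5 : (b + 1) * j ≤ q * (j : ℤ) := by
          apply mul_le_mul_of_nonneg_right _ (by omega)
          omega
        linarith

theorem HP.zmap {j : ℤ} {S : Set ℤ} {x y : ℤ} (H : HP (zadj j) S x y) (e c : ℤ)
    (he : e = 1 ∨ e = -1) {T : Set ℤ} {x' y' : ℤ} (hT : ∀ k, k ∈ T ↔ e * (k - c) ∈ S)
    (hx : e * x + c = x') (hy : e * y + c = y') : HP (zadj j) T x' y' := by
  refine H.map (fun k => e * k + c) ?_ ?_ ?_ hx hy
  · intro a _ b _ hab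
    have hab' : e * a + c = e * b + c := hab
    rcases he with rfl | rfl <;> omega
  · intro a _ b _ hab
    unfold zadj at *
    rcases he with rfl | rfl <;> omega
  · intro w
    rw [hT]
    constructor
    · intro hw
      refine ⟨_, hw, ?_⟩
      rcases he with rfl | rfl <;> ring
    · rintro ⟨v, hv, rfl⟩
      convert hv using 1
      rcases he with rfl | rfl <;> ring

/-- the interval `1, …, q j` -/
theorem interval {j q : ℕ} (hj : 2 ≤ j) (hq : 2 ≤ q) {v : ℤ} (hv1 : 1 ≤ v) (hv2 : v ≤ q * j)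
    (hp : j % 2 = 0 ∨ v % 2 = 1) {S : Set ℤ} (hS : ∀ k, k ∈ S ↔ 1 ≤ k ∧ k ≤ q * j) :
    HP (zadj j) S (q * j) v ∨ HP (zadj j) S ((q - 1) * j + 1) v := by
  have hj' : (0 : ℤ) < j := by omega
  obtain ⟨g, r, hg0, hgj, hr0, hrq, hgr⟩ : ∃ g r : ℤ, 0 ≤ g ∧ g < j ∧ 0 ≤ r ∧ r < q ∧
      v - 1 = g + r * j := by
    refine ⟨(v - 1) % j, (v - 1) / j, Int.emod_nonneg _ hj'.ne', Int.emod_lt_of_pos _ hj',
      Int.ediv_nonneg (by omega) hj'.le, Int.ediv_lt_of_lt_mul hj' (by omega), ?_⟩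
    rw [mul_comm]
    exact (Int.emod_add_mul_ediv (v - 1) j).symm
  -- the parity of `v`
  have hpar : j % 2 = 1 → (g + r) % 2 = 0 := by
    intro h1
    obtain ⟨j', hj'⟩ : ∃ j' : ℤ, (j : ℤ) = 2 * j' + 1 := ⟨(j : ℤ) / 2, by omega⟩
    have h2 : v - 1 = g + r + 2 * (r * j') := by
      rw [hgr, hj']; ring
    omega
  have hA : 1 ≤ (j - 1 - g) + (q - 1 - r) →
      (j % 2 = 1 → q % 2 = 1 → ((j : ℤ) - 1 - g + (q - 1 - r)) % 2 = 0) →
      (j % 2 = 0 ∨ q % 2 = 0 → ((j : ℤ) - 1 - g + (q - 1 - r)) % 2 = 1) →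
      HP (zadj j) S (q * j) v := by
    intro h1 h2 h3
    have h4 := grid _ j q rfl (by omega) (j - 1 - g) (q - 1 - r) (by omega) (by omega) (by omega)
      (by omega) (by omega) h2 h3
    have h5 : HP (zadj j) {k : ℤ | 0 ≤ k ∧ k < q * j} 0 (j - 1 - g + (q - 1 - r) * j) :=
      rect_int h4 (fun k => Iff.rfl) (by simp) rfl
    refine h5.zmap (-1) (q * j) (Or.inr rfl) ?_ (by ring) ?_
    · intro k
      rw [hS]
      constructor
      · rintro ⟨h6, h7⟩
        constructor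
        · linarith
        · linarith
      · rintro ⟨h6, h7⟩
        constructor
        · linarith
        · linarith
    · linear_combination -hgr
  have hC : 1 ≤ g + (q - 1 - r) →
      (j % 2 = 1 → q % 2 = 1 → (g + (q - 1 - r)) % 2 = 0) →
      (j % 2 = 0 ∨ q % 2 = 0 → (g + (q - 1 - r)) % 2 = 1) →
      HP (zadj j) S ((q - 1) * j + 1) v := by
    intro h1 h2 h3
    have h4 := grid _ j q rfl (by omega) g (q - 1 - r) (by omega) (by omega) (by omega)
      (by omega) (by omega) h2 h3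
    have h5 : HP gadj (rect j q) (0, (q : ℤ) - 1) (g, r) := by
      refine h4.map (fun p => (p.1, q - 1 - p.2)) ?_ ?_ ?_ (by simp) (by simp)
      · rintro ⟨a, b⟩ - ⟨x, y⟩ - hab
        simp only [Prod.mk.injEq] at hab ⊢
        omega
      · rintro ⟨a, b⟩ - ⟨x, y⟩ - hab
        unfold gadj at *
        simp only at *
        omega
      · rintro ⟨a, b⟩
        constructor
        · intro h6
          rw [mem_rect] at h6
          refine ⟨(a, q - 1 - b), (mem_rect _ _ _ _).2 (by omega), ?_⟩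
          simp
        · rintro ⟨⟨x, y⟩, hxy, he⟩
          simp only [Prod.mk.injEq] at he
          rw [mem_rect] at hxy ⊢
          omega
    have h6 : HP (zadj j) {k : ℤ | 0 ≤ k ∧ k < q * j} ((q - 1) * j) (g + r * j) :=
      rect_int h5 (fun k => Iff.rfl) (by simp) rfl
    refine h6.zmap 1 1 (Or.inl rfl) ?_ (by ring) ?_
    · intro k
      rw [hS]
      constructor
      · rintro ⟨h6, h7⟩
        constructor
        · linarith
        · linarith
      · rintro ⟨h6, h7⟩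
        constructor
        · linarith
        · linarith
    · linear_combination -hgr
  rcases Nat.mod_two_eq_zero_or_one j with h1 | h1
  · rcases Int.emod_two_eq_zero_or_one (g + (q - 1 - r)) with h2 | h2
    · exact Or.inl (hA (by omega) (by omega) (by omega))
    · exact Or.inr (hC (by omega) (by omega) (by omega))
  · have h2 := hpar h1
    by_cases h3 : g = j - 1 ∧ r = q - 1
    · exact Or.inr (hC (by omega) (by omega) (by omega))
    · exact Or.inl (hA (by omega) (by omega) (by omega))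

variable {N : Type*} [CommGroup N]

theorem cadj_inv {B : Set N} (hB : ∀ b ∈ B, b⁻¹ ∈ B) {x y : N} (h : cadj B x y) :
    cadj B x⁻¹ y⁻¹ := by
  unfold cadj at *
  have := hB _ h
  rw [mul_inv_rev, inv_inv, mul_comm] at this
  rwa [inv_inv]

theorem HP.inv {B : Set N} (hB : ∀ b ∈ B, b⁻¹ ∈ B) {y : N}
    (H : HP (cadj B) (Subgroup.closure B : Set N) 1 y) :
    HP (cadj B) (Subgroup.closure B : Set N) 1 y⁻¹ := by
  refine H.map (fun x => x⁻¹) (fun a _ b _ h => inv_injective h)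
    (fun a _ b _ h => cadj_inv hB h) ?_ inv_one rfl
  intro w
  constructor
  · intro hw
    exact ⟨w⁻¹, inv_mem hw, inv_inv w⟩
  · rintro ⟨v, hv, rfl⟩
    exact inv_mem hv

/-- the map `k ↦ b ^ k` on an interval -/
theorem HP.pow {b : N} {n j : ℕ} (hb : ∀ k : ℤ, b ^ k = 1 → (n : ℤ) ∣ k) {S : Set ℤ} {k l : ℤ}
    (H : HP (zadj j) S k l) (hS : ∀ x ∈ S, ∀ y ∈ S, |x - y| < n) {T : Set N}
    (hT : ∀ z, z ∈ T ↔ ∃ i : ℤ, i ∈ S ∧ b ^ i = z) :
    HP (cadj (U2 b (b ^ (j : ℤ)))) T (b ^ k) (b ^ l) := by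
  refine H.map (fun k : ℤ => b ^ k) ?_ ?_ ?_ rfl rfl
  · intro x hx y hy hxy
    have h1 : b ^ (x - y) = 1 := by
      rw [zpow_sub, mul_inv_eq_one]
      exact hxy
    have h2 := Int.eq_zero_of_abs_lt_dvd (hb _ h1) (hS x hx y hy)
    omega
  · intro x _ y _ hxy
    show (b ^ x)⁻¹ * b ^ y ∈ U2 b (b ^ (j : ℤ))
    rw [← zpow_neg, ← zpow_add]
    rcases hxy with h | h | h | h
    · convert U2_a b (b ^ (j : ℤ)) using 1
      rw [h, show -x + (x + 1) = 1 by ring, zpow_one]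
    · convert U2_a' b (b ^ (j : ℤ)) using 1
      rw [h, show -(y + 1) + y = -1 by ring, zpow_neg_one]
    · convert U2_b b (b ^ (j : ℤ)) using 1
      rw [h, show -x + (x + j) = j by ring]
    · convert U2_b' b (b ^ (j : ℤ)) using 1
      rw [h, show -(y + j) + y = -(j : ℤ) by ring, zpow_neg]
  · intro w
    rw [hT]

theorem circ {b : N} {n : ℕ} (hbn : b ^ (n : ℤ) = 1) (hb : ∀ k : ℤ, b ^ k = 1 → (n : ℤ) ∣ k)
    {j : ℕ} (hj : 2 ≤ j) (hjn : 2 * j < n) : GoodSet (U2 b (b ^ (j : ℤ))) := by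
  have hn' : (0 : ℤ) < n := by omega
  have hj' : (0 : ℤ) < j := by omega
  set c : N := b ^ (j : ℤ) with hc
  have hpoweq : ∀ k l : ℤ, (n : ℤ) ∣ k - l → b ^ k = b ^ l := by
    rintro k l ⟨w, hw⟩
    rw [← mul_inv_eq_one, ← zpow_sub, hw, zpow_mul, hbn, one_zpow]
  have hmem : ∀ z, z ∈ Subgroup.closure (U2 b c) ↔ ∃ k : ℤ, 0 ≤ k ∧ k < n ∧ b ^ k = z := by
    intro z
    rw [mem_cl_U2]
    constructor
    · rintro ⟨i, k, rfl⟩
      refine ⟨(i + j * k) % n, Int.emod_nonneg _ hn'.ne', Int.emod_lt_of_pos _ hn', ?_⟩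
      rw [hc, ← zpow_mul, ← zpow_add]
      exact (hpoweq _ _ Int.dvd_self_sub_emod).symm
    · rintro ⟨k, -, -, rfl⟩
      exact ⟨k, 0, by simp⟩
  obtain ⟨q, t, ht1, htj, hnq⟩ : ∃ q t : ℕ, 1 ≤ t ∧ t ≤ j ∧ n = q * j + t := by
    refine ⟨(n - 1) / j, (n - 1) % j + 1, by omega, ?_, ?_⟩
    · have := Nat.mod_lt (n - 1) (by omega : 0 < j)
      omega
    · have := Nat.div_add_mod (n - 1) j
      rw [mul_comm] at this
      omega
  have hq : 2 ≤ q := by
    by_contra hq
    have h1 : q * j ≤ 1 * j := Nat.mul_le_mul_right j (by omega)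
    omega
  have hnq' : (n : ℤ) = q * j + t := by exact_mod_cast hnq
  have hqj : (0 : ℤ) < q * j := by positivity
  -- the first construction
  have hR : ∀ v : ℤ, 1 ≤ v → v ≤ q * j → (j % 2 = 0 ∨ v % 2 = 1) →
      HP (cadj (U2 b c)) (Subgroup.closure (U2 b c) : Set N) 1 (b ^ v) := by
    intro v hv1 hv2 hp
    have h1 : HP (cadj (U2 b c)) {z | ∃ i : ℤ, 0 ≤ i ∧ i < (t : ℤ) ∧ (1 : N) * (b⁻¹) ^ i = z} 1
        (1 * (b⁻¹) ^ ((t : ℤ) - 1)) :=
      powseq (n := n) (fun k hk => hb k (by rwa [inv_zpow, inv_eq_one] at hk)) (U2_a' b c) 1 ht1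
        (by omega) (fun z => Iff.rfl) rfl rfl
    have h2 : ∃ s : ℤ, (s = q * j ∨ s = (q - 1) * j + 1) ∧
        HP (zadj j) {k : ℤ | 1 ≤ k ∧ k ≤ q * j} s v := by
      rcases interval hj hq hv1 hv2 hp (S := {k : ℤ | 1 ≤ k ∧ k ≤ q * j}) (fun k => Iff.rfl) with
        h | h
      · exact ⟨_, Or.inl rfl, h⟩
      · exact ⟨_, Or.inr rfl, h⟩
    obtain ⟨s, hs, h2⟩ := h2
    have h3 := h2.pow (n := n) hb (by
      rintro x ⟨hx1, hx2⟩ y ⟨hy1, hy2⟩
      rw [abs_lt]
      constructor <;> linarith) (T := {z | ∃ i : ℤ, i ∈ {k : ℤ | 1 ≤ k ∧ k ≤ q * j} ∧ b ^ i = z})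
      (fun z => Iff.rfl)
    refine h1.append' h3 ?_ ?_ ?_
    · show (1 * (b⁻¹) ^ ((t : ℤ) - 1))⁻¹ * b ^ s ∈ U2 b c
      rw [one_mul, inv_zpow, inv_inv, ← zpow_add]
      rcases hs with hs | hs
      · convert U2_a' b c using 1
        rw [← zpow_neg_one]
        exact hpoweq _ _ ⟨1, by rw [hs, hnq']; ring⟩
      · convert U2_b' b c using 1
        rw [hc, ← zpow_neg]
        exact hpoweq _ _ ⟨1, by rw [hs, hnq']; ring⟩
    · rintro w ⟨i, hi1, hi2, hi⟩ ⟨i', ⟨hi1', hi2'⟩, hi'⟩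
      rw [one_mul, inv_zpow', ← hi'] at hi
      have h4 : b ^ (i + i') = 1 := by
        rw [zpow_add, ← hi, ← zpow_add, add_neg_cancel, zpow_zero]
      have h5 := Int.eq_zero_of_abs_lt_dvd (hb _ h4) (by rw [abs_lt]; constructor <;> linarith)
      omega
    · intro z
      rw [SetLike.mem_coe, hmem]
      constructor
      · rintro ⟨k, hk1, hk2, rfl⟩
        by_cases h4 : 1 ≤ k ∧ k ≤ q * j
        · exact Or.inr ⟨k, h4, rfl⟩
        · left
          rcases Int.lt_or_le 0 k with h5 | h5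
          · refine ⟨n - k, by omega, ?_, ?_⟩
            · have : (q : ℤ) * j < k := by
                by_contra h6
                exact h4 ⟨by omega, by linarith⟩
              linarith
            · rw [one_mul, inv_zpow']
              exact hpoweq _ _ ⟨-1, by ring⟩
          · refine ⟨0, le_rfl, by omega, ?_⟩
            have h6 : k = 0 := by omega
            rw [h6]
            simp
      · rintro (⟨i, hi1, hi2, rfl⟩ | ⟨i, ⟨hi1, hi2⟩, rfl⟩)
        · rw [← hmem, one_mul, inv_zpow']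
          exact zpow_mem (Subgroup.subset_closure (U2_a b c)) _
        · rw [← hmem]
          exact zpow_mem (Subgroup.subset_closure (U2_a b c)) _
  -- the second construction
  have hX : ∀ v : ℤ, 2 ≤ v → v ≤ t - 1 → v % 2 = 0 → j % 2 = 1 → n % 2 = 1 →
      HP (cadj (U2 b c)) (Subgroup.closure (U2 b c) : Set N) 1 (b ^ v) := by
    intro v hv1 hv2 hv3 hj2 hn2
    have hvv : (v.toNat : ℤ) = v := Int.toNat_of_nonneg (by omega)
    have h1 : HP (cadj (U2 b c)) {z | ∃ i : ℤ, 0 ≤ i ∧ i < (v.toNat : ℤ) ∧ (1 : N) * b ^ i = z} 1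
        (1 * b ^ ((v.toNat : ℤ) - 1)) :=
      powseq (n := n) hb (U2_a b c) 1 (by omega) (by omega) (fun z => Iff.rfl) rfl rfl
    rw [hvv] at h1
    have hqt : (q + t) % 2 = 1 := by
      obtain ⟨j1, hj1⟩ : ∃ j1, j = 2 * j1 + 1 := ⟨j / 2, by omega⟩
      have : n = q + t + 2 * (q * j1) := by rw [hnq, hj1]; ring
      omega
    have h2 := grid _ j q rfl (by omega) (v - 1 + j - t) 0 (by omega) (by omega) (by omega)
      (by omega) (by omega) (by omega) (by omega)
    have h3 : HP (zadj j) {k : ℤ | 0 ≤ k ∧ k < q * j} 0 (v - 1 + j - t) :=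
      rect_int h2 (fun k => Iff.rfl) (by simp) (by simp)
    have h4 : HP (zadj j) {k : ℤ | t ≤ k ∧ k < n} t (v - 1 + j) := by
      refine h3.zmap 1 t (Or.inl rfl) ?_ (by ring) (by ring)
      intro k
      constructor
      · rintro ⟨h5, h6⟩
        constructor <;> linarith
      · rintro ⟨h5, h6⟩
        constructor <;> linarith
    have h5 := (h4.symm (zadj_symm j)).pow (n := n) hb (by
      rintro x ⟨hx1, hx2⟩ y ⟨hy1, hy2⟩
      rw [abs_lt]
      constructor <;> linarith) (T := {z | ∃ i : ℤ, i ∈ {k : ℤ | t ≤ k ∧ k < n} ∧ b ^ i = z})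
      (fun z => Iff.rfl)
    have h6 : HP (cadj (U2 b c)) {z | ∃ i : ℤ, 0 ≤ i ∧ i < ((t - v.toNat : ℕ) : ℤ) ∧
        b ^ ((t : ℤ) - 1) * (b⁻¹) ^ i = z} (b ^ ((t : ℤ) - 1))
        (b ^ ((t : ℤ) - 1) * (b⁻¹) ^ (((t - v.toNat : ℕ) : ℤ) - 1)) :=
      powseq (n := n) (fun k hk => hb k (by rwa [inv_zpow, inv_eq_one] at hk)) (U2_a' b c) _
        (by omega) (by omega) (fun z => Iff.rfl) rfl rfl
    have htv : ((t - v.toNat : ℕ) : ℤ) = t - v := by omega
    rw [htv] at h6
    have e1 : b ^ ((t : ℤ) - 1) * (b⁻¹) ^ ((t : ℤ) - v - 1) = b ^ v := by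
      rw [inv_zpow', ← zpow_add]
      congr 1
      ring
    rw [e1] at h6
    have h7 : HP (cadj (U2 b c)) ({z | ∃ i : ℤ, i ∈ {k : ℤ | t ≤ k ∧ k < n} ∧ b ^ i = z} ∪
        {z | ∃ i : ℤ, 0 ≤ i ∧ i < (t : ℤ) - v ∧ b ^ ((t : ℤ) - 1) * (b⁻¹) ^ i = z})
        (b ^ (v - 1 + j)) (b ^ v) := by
      refine h5.append h6 ?_ ?_
      · show (b ^ (t : ℤ))⁻¹ * b ^ ((t : ℤ) - 1) ∈ U2 b c
        convert U2_a' b c using 1
        rw [← zpow_neg, ← zpow_add, ← zpow_neg_one]
        congr 1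
        ring
      · rintro w ⟨i, ⟨hi1, hi2⟩, hi⟩ ⟨i', hi1', hi2', hi'⟩
        rw [inv_zpow', ← zpow_add, ← hi] at hi'
        have h8 : b ^ (i - ((t : ℤ) - 1 + -i')) = 1 := by
          rw [zpow_sub, hi', mul_inv_cancel]
        have h9 := Int.eq_zero_of_abs_lt_dvd (hb _ h8) (by rw [abs_lt]; omega)
        omega
    refine h1.append' h7 ?_ ?_ ?_
    · show (1 * b ^ (v - 1))⁻¹ * b ^ (v - 1 + j) ∈ U2 b c
      convert U2_b b c using 1
      rw [one_mul, zpow_add, inv_mul_cancel_left]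
    · rintro w ⟨i, hi1, hi2, hi⟩ (⟨i', ⟨hi1', hi2'⟩, hi'⟩ | ⟨i', hi1', hi2', hi'⟩)
      · rw [one_mul, ← hi'] at hi
        have h8 : b ^ (i' - i) = 1 := by
          rw [zpow_sub, hi, mul_inv_cancel]
        have h9 := Int.eq_zero_of_abs_lt_dvd (hb _ h8) (by rw [abs_lt]; omega)
        omega
      · rw [one_mul] at hi
        rw [inv_zpow', ← zpow_add, ← hi] at hi'
        have h8 : b ^ ((t : ℤ) - 1 + -i' - i) = 1 := by
          rw [zpow_sub, hi', mul_inv_cancel]
        have h9 := Int.eq_zero_of_abs_lt_dvd (hb _ h8) (by rw [abs_lt]; omega)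
        omega
    · intro z
      rw [SetLike.mem_coe, hmem]
      constructor
      · rintro ⟨k, hk1, hk2, rfl⟩
        rcases Int.lt_or_le k v with h8 | h8
        · exact Or.inl ⟨k, hk1, h8, one_mul _⟩
        rcases Int.lt_or_le k t with h9 | h9
        · right
          right
          refine ⟨t - 1 - k, by omega, by omega, ?_⟩
          rw [inv_zpow', ← zpow_add]
          congr 1
          ring
        · exact Or.inr (Or.inl ⟨k, ⟨h9, hk2⟩, rfl⟩)
      · intro hz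
        rw [← hmem]
        rcases hz with ⟨i, -, -, rfl⟩ | ⟨i, -, rfl⟩ | ⟨i, -, -, rfl⟩
        · rw [one_mul]
          exact zpow_mem (Subgroup.subset_closure (U2_a b c)) _
        · exact zpow_mem (Subgroup.subset_closure (U2_a b c)) _
        · rw [inv_zpow', ← zpow_add]
          exact zpow_mem (Subgroup.subset_closure (U2_a b c)) _
  -- inversion
  have hI : ∀ v : ℤ, HP (cadj (U2 b c)) (Subgroup.closure (U2 b c) : Set N) 1 (b ^ (n - v)) →
      HP (cadj (U2 b c)) (Subgroup.closure (U2 b c) : Set N) 1 (b ^ v) := by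
    intro v hv
    have h1 := hv.inv (U2_inv b c)
    rw [← zpow_neg] at h1
    convert h1 using 1
    exact hpoweq _ _ ⟨1, by ring⟩
  rintro y hy1 ⟨l, hl, hly, hlen⟩
  obtain ⟨i, k, hik, hpar⟩ := wd_pair l hl
  obtain ⟨v, hv0, hvn, hvk⟩ : ∃ v : ℤ, 0 ≤ v ∧ v < n ∧ (n : ℤ) ∣ i + j * k - v :=
    ⟨(i + j * k) % n, Int.emod_nonneg _ hn'.ne', Int.emod_lt_of_pos _ hn', Int.dvd_self_sub_emod⟩
  have hyv : y = b ^ v := by
    rw [← hly, ← hik, hc, ← zpow_mul, ← zpow_add]
    exact hpoweq _ _ hvk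
  have hv1 : 1 ≤ v := by
    rcases Int.lt_or_le 0 v with h | h
    · omega
    · exfalso
      apply hy1
      have : v = 0 := by omega
      rw [hyv, this, zpow_zero]
  have hvodd : n % 2 = 0 → j % 2 = 1 → v % 2 = 1 := by
    intro h1 h2
    obtain ⟨w, hw⟩ := hvk
    obtain ⟨n1, hn1⟩ : ∃ n1 : ℤ, (n : ℤ) = 2 * n1 := ⟨(n : ℤ) / 2, by omega⟩
    obtain ⟨j1, hj1⟩ : ∃ j1 : ℤ, (j : ℤ) = 2 * j1 + 1 := ⟨(j : ℤ) / 2, by omega⟩
    have h3 : v = (i + k) + 2 * (j1 * k - n1 * w) := by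
      rw [hn1, hj1] at hw
      linear_combination -hw
    have h4 : (i + k) % 2 = 1 := by omega
    omega
  rw [hyv]
  by_cases h1 : v ≤ q * j
  · rcases Nat.mod_two_eq_zero_or_one j with h2 | h2
    · exact hR v hv1 h1 (Or.inl h2)
    rcases Int.emod_two_eq_zero_or_one v with h3 | h3
    · have h4 : n % 2 = 1 := by
        rcases Nat.mod_two_eq_zero_or_one n with h5 | h5
        · have := hvodd h5 h2
          omega
        · exact h5
      by_cases h5 : (n : ℤ) - v ≤ q * j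
      · exact hI v (hR _ (by omega) h5 (Or.inr (by omega)))
      · exact hX v (by omega) (by linarith) h3 h2 h4
    · exact hR v hv1 h1 (Or.inr h3)
  · have h2 : (n : ℤ) - v ≤ t - 1 := by linarith
    have h3 : (n : ℤ) - v ≤ q * j := by
      have : (2 : ℤ) * j ≤ q * j := mul_le_mul_of_nonneg_right (by omega) hj'.le
      linarith
    refine hI v ?_
    rcases Nat.mod_two_eq_zero_or_one j with h4 | h4
    · exact hR _ (by omega) h3 (Or.inl h4)
    rcases Int.emod_two_eq_zero_or_one ((n : ℤ) - v) with h5 | h5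
    · refine hX _ (by omega) h2 h5 h4 ?_
      rcases Nat.mod_two_eq_zero_or_one n with h6 | h6
      · have := hvodd h6 h4
        omega
      · exact h6
    · exact hR _ (by omega) h3 (Or.inr h5)

end Pool.Agent.Helper43.CQ
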