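import Pool.Agent.Helper43.CQ.Ext
import Pool.Agent.Helper43.CQ.Circ

/-!
# Hamiltonian paths in Cayley graphs of finite abelian groups
-/

set_option autoImplicit false

namespace Pool.Agent.Helper43.CQ

variable {N : Type*} [CommGroup N]

/-- the order of `c` modulo `H` -/
theorem exists_index [Finite N] (H : Subgroup N) (c : N) (hc : c ∉ H) :
    ∃ m : ℕ, 2 ≤ m ∧ (∀ k : ℤ, c ^ k ∈ H → (m : ℤ) ∣ k) ∧ c ^ (m : ℤ) ∈ H := by
  have key : ∀ k : ℤ, c ^ k ∈ H ↔ ((orderOf (c : N ⧸ H) : ℕ) : ℤ) ∣ k := by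
    intro k
    rw [orderOf_dvd_iff_zpow_eq_one, ← QuotientGroup.mk_zpow, QuotientGroup.eq_one_iff]
  refine ⟨orderOf (c : N ⧸ H), ?_, fun k hk => (key k).1 hk, (key _).2 dvd_rfl⟩
  have h1 : 0 < orderOf (c : N ⧸ H) := orderOf_pos _
  have h2 : orderOf (c : N ⧸ H) ≠ 1 := by
    rw [Ne, orderOf_eq_one_iff, QuotientGroup.eq_one_iff]
    exact hc
  omega

theorem greedy [Finite N] {B : Set N} (hB : ∀ b ∈ B, b⁻¹ ∈ B)
    (hgen : Subgroup.closure B = ⊤) : ∀ (k : ℕ) (S : Set N), S ⊆ B → (∀ b ∈ S, b⁻¹ ∈ S) →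
    (1 : N) ∉ S → S.Nonempty → GoodSet S →
    Nat.card N ≤ Nat.card (Subgroup.closure S) + k →
    ∃ B₀ ⊆ B, (∀ b ∈ B₀, b⁻¹ ∈ B₀) ∧ (1 : N) ∉ B₀ ∧ B₀.Nonempty ∧
      Subgroup.closure B₀ = ⊤ ∧ GoodSet B₀ := by
  intro k
  induction k with
  | zero =>
    intro S h1 h2 h3 h4 h5 h6
    refine ⟨S, h1, h2, h3, h4, ?_, h5⟩
    exact Subgroup.eq_top_of_le_card _ h6
  | succ k ih =>
    intro S h1 h2 h3 h4 h5 h6
    by_cases htop : Subgroup.closure S = ⊤
    · exact ⟨S, h1, h2, h3, h4, htop, h5⟩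
    obtain ⟨c, hcB, hcS⟩ : ∃ c ∈ B, c ∉ Subgroup.closure S := by
      by_contra hno
      push Not at hno
      apply htop
      rw [eq_top_iff, ← hgen, Subgroup.closure_le]
      exact hno
    obtain ⟨m, hm, hm1, hm2⟩ := exists_index _ c hcS
    have hc1 : c ≠ 1 := by
      rintro rfl
      exact hcS (one_mem _)
    have hlt : Subgroup.closure S < Subgroup.closure (S ∪ {c, c⁻¹}) := by
      refine lt_of_le_of_ne (Subgroup.closure_mono Set.subset_union_left) fun he => hcS ?_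
      rw [he]
      exact Subgroup.subset_closure (Or.inr (Or.inl rfl))
    refine ih (S ∪ {c, c⁻¹}) ?_ (union_inv h2) ?_ (h4.mono Set.subset_union_left)
      (extend h2 h5 h4 h3 hm hm1 hm2) ?_
    · rintro x (hx | hx | hx)
      · exact h1 hx
      · rw [hx]; exact hcB
      · rw [Set.mem_singleton_iff.1 hx]; exact hB c hcB
    · rintro (hx | hx | hx)
      · exact h3 hx
      · exact hc1 hx.symm
      · exact hc1 (inv_eq_one.1 (Set.mem_singleton_iff.1 hx).symm)
    · have := Subgroup.card_le_of_le hlt.le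
      have h7 : Nat.card (Subgroup.closure S) ≠ Nat.card (Subgroup.closure (S ∪ {c, c⁻¹})) := by
        intro h8
        exact hlt.ne (Subgroup.eq_of_le_of_card_ge hlt.le h8.ge)
      omega

theorem good_involution {b : N} (hb1 : b ≠ 1) (hb : b * b = 1) : GoodSet ({b} : Set N) := by
  have hcl : ∀ z, z ∈ Subgroup.closure ({b} : Set N) ↔ z = 1 ∨ z = b := by
    intro z
    rw [Subgroup.mem_closure_singleton]
    constructor
    · rintro ⟨k, rfl⟩
      have h2 : b ^ (2 : ℤ) = 1 := by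
        rw [show (2 : ℤ) = 1 + 1 by norm_num, zpow_add, zpow_one, hb]
      rcases Int.even_or_odd' k with ⟨l, h | h⟩
      · left
        rw [h, zpow_mul, h2, one_zpow]
      · right
        rw [h, zpow_add, zpow_mul, h2, one_zpow, one_mul, zpow_one]
    · rintro (rfl | rfl)
      · exact ⟨0, zpow_zero _⟩
      · exact ⟨1, zpow_one _⟩
  intro y hy hw
  have hyb : y = b := ((hcl y).1 hw.mem_closure).resolve_left hy
  subst hyb
  refine (HP.single _ 1).append' (HP.single _ y) ?_ ?_ ?_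
  · show (1 : N)⁻¹ * y ∈ ({y} : Set N)
    rw [inv_one, one_mul]
    rfl
  · intro v hv hv'
    rw [Set.mem_singleton_iff] at hv hv'
    exact hb1 (hv' ▸ hv)
  · intro v
    rw [SetLike.mem_coe, hcl]
    rfl

theorem U2_sub {B : Set N} (hB : ∀ b ∈ B, b⁻¹ ∈ B) {a b : N} (ha : a ∈ B) (hb : b ∈ B) :
    U2 a b ⊆ B := by
  rintro x (h | h | h | h)
  · rw [h]; exact ha
  · rw [h]; exact hB a ha
  · rw [h]; exact hb
  · rw [Set.mem_singleton_iff.1 h]; exact hB b hb

theorem U2_one {a b : N} (ha : a ≠ 1) (hb : b ≠ 1) : (1 : N) ∉ U2 a b := by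
  rintro (h | h | h | h)
  · exact ha h.symm
  · exact ha (inv_eq_one.1 h.symm)
  · exact hb h.symm
  · exact hb (inv_eq_one.1 (Set.mem_singleton_iff.1 h).symm)

/-- **Every symmetric generating set with at least three nonidentity elements of a finite abelian
group contains a symmetric generating set `B₀` such that the Cayley graph of `B₀` has Hamiltonian
paths from `1` to all elements which are products of an odd number of elements of `B₀`.** -/
theorem exists_good [Finite N] {B : Set N} (hB : ∀ b ∈ B, b⁻¹ ∈ B)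
    (hgen : Subgroup.closure B = ⊤) (h3 : 3 ≤ (B \ {1}).ncard) :
    ∃ B₀ ⊆ B, (∀ b ∈ B₀, b⁻¹ ∈ B₀) ∧ (1 : N) ∉ B₀ ∧ B₀.Nonempty ∧
      Subgroup.closure B₀ = ⊤ ∧ GoodSet B₀ := by
  by_cases hinv : ∃ b ∈ B, b ≠ 1 ∧ b * b = 1
  · obtain ⟨b, hb, hb1, hbb⟩ := hinv
    refine greedy hB hgen (Nat.card N) {b} (by simpa using hb) ?_ ?_ ⟨b, rfl⟩
      (good_involution hb1 hbb) (by omega)
    · intro x hx
      rw [Set.mem_singleton_iff] at hx ⊢
      rw [hx]
      exact inv_eq_of_mul_eq_one_left hbb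
    · rw [Set.mem_singleton_iff]
      exact fun h => hb1 h.symm
  push Not at hinv
  obtain ⟨a, ha, ha1⟩ : ∃ a ∈ B, a ≠ 1 := by
    have : (B \ {1}).Nonempty := by
      rw [← Set.ncard_pos (Set.toFinite _)]
      omega
    obtain ⟨a, ha⟩ := this
    exact ⟨a, ha.1, ha.2⟩
  have horder : ∀ k : ℤ, a ^ k = 1 ↔ ((orderOf a : ℕ) : ℤ) ∣ k := fun k =>
    (orderOf_dvd_iff_zpow_eq_one).symm
  have hn3 : 3 ≤ orderOf a := by
    have h0 : 0 < orderOf a := orderOf_pos a
    have h1 : orderOf a ≠ 1 := fun h => ha1 (orderOf_eq_one_iff.1 h)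
    have h2 : orderOf a ≠ 2 := by
      intro h
      apply hinv a ha ha1
      rw [← pow_two, ← h]
      exact pow_orderOf_eq_one a
    omega
  by_cases hcyc : ∃ b ∈ B, b ∉ Subgroup.closure ({a} : Set N)
  · obtain ⟨b, hb, hba⟩ := hcyc
    have hb1 : b ≠ 1 := by
      rintro rfl
      exact hba (one_mem _)
    obtain ⟨m, hm, hm1, hm2⟩ := exists_index _ b hba
    obtain ⟨s, hs⟩ := Subgroup.mem_closure_singleton.1 hm2
    have hPr : Pr a b (orderOf a) m s := by
      refine ⟨(horder _).2 dvd_rfl, fun k hk => (horder k).1 hk, fun k i hk => hm1 k ?_, hs.symm⟩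
      rw [Subgroup.mem_closure_singleton]
      exact ⟨i, hk.symm⟩
    exact greedy hB hgen (Nat.card N) (U2 a b) (U2_sub hB ha hb) (U2_inv a b) (U2_one ha1 hb1)
      ⟨a, U2_a a b⟩ (baseI hPr hn3 hm) (by omega)
  · push Not at hcyc
    have hatop : Subgroup.closure ({a} : Set N) = ⊤ := by
      rw [eq_top_iff, ← hgen, Subgroup.closure_le]
      exact hcyc
    -- a third element
    obtain ⟨c, hc, hc1, hca, hca'⟩ : ∃ c ∈ B, c ≠ 1 ∧ c ≠ a ∧ c ≠ a⁻¹ := by
      by_contra hno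
      push Not at hno
      have h1 : B \ {1} ⊆ {a, a⁻¹} := by
        rintro x ⟨hx, hx1⟩
        by_cases hxa : x = a
        · exact Or.inl hxa
        · exact Or.inr (hno x hx hx1 hxa)
      have h2 := Set.ncard_le_ncard h1 (Set.toFinite _)
      have h4 := Set.ncard_insert_le a {a⁻¹}
      rw [Set.ncard_singleton] at h4
      omega
    have hn0 : (0 : ℤ) < orderOf a := by omega
    obtain ⟨j, hj0, hjn, hj⟩ : ∃ j : ℤ, 0 ≤ j ∧ j < orderOf a ∧ c = a ^ j := by
      have h1 : c ∈ Subgroup.closure ({a} : Set N) := by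
        rw [hatop]
        exact Subgroup.mem_top c
      obtain ⟨k, hk⟩ := Subgroup.mem_closure_singleton.1 h1
      refine ⟨k % orderOf a, Int.emod_nonneg _ hn0.ne', Int.emod_lt_of_pos _ hn0, ?_⟩
      rw [← hk, zpow_mod_orderOf]
    have hj1 : j ≠ 0 := by
      rintro rfl
      exact hc1 (by rw [hj, zpow_zero])
    have hj2 : j ≠ 1 := by
      rintro rfl
      exact hca (by rw [hj, zpow_one])
    have hj3 : j ≠ orderOf a - 1 := by
      rintro rfl
      apply hca'
      rw [hj, zpow_sub_one, (horder _).2 dvd_rfl, one_mul]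
    have hj4 : 2 * j ≠ orderOf a := by
      intro h
      apply hinv c hc hc1
      rw [hj, ← zpow_add, ← two_mul, h]
      exact (horder _).2 dvd_rfl
    have key : ∀ (j : ℕ) (c : N), c ∈ B → c ≠ 1 → c = a ^ (j : ℤ) → 2 ≤ j → 2 * j < orderOf a →
        ∃ B₀ ⊆ B, (∀ b ∈ B₀, b⁻¹ ∈ B₀) ∧ (1 : N) ∉ B₀ ∧ B₀.Nonempty ∧
          Subgroup.closure B₀ = ⊤ ∧ GoodSet B₀ := by
      intro j c hc hc1 hcj hj hjn
      refine ⟨U2 a c, U2_sub hB ha hc, U2_inv a c, U2_one ha1 hc1, ⟨a, U2_a a c⟩, ?_, ?_⟩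
      · rw [eq_top_iff, ← hatop, Subgroup.closure_le]
        rintro x hx
        rw [Set.mem_singleton_iff] at hx
        rw [hx]
        exact Subgroup.subset_closure (U2_a a c)
      · rw [hcj]
        exact circ ((horder _).2 dvd_rfl) (fun k hk => (horder k).1 hk) hj hjn
    rcases lt_or_gt_of_ne hj4 with h | h
    · exact key j.toNat c hc hc1 (by rw [hj, Int.toNat_of_nonneg hj0]) (by omega) (by omega)
    · refine key (orderOf a - j).toNat c⁻¹ (hB c hc) (inv_ne_one.2 hc1) ?_ (by omega) (by omega)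
      rw [Int.toNat_of_nonneg (by omega), zpow_sub, (horder _).2 dvd_rfl, one_mul, hj]

end Pool.Agent.Helper43.CQ
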