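import Pool.Agent.Helper43.CQ.Grid

/-!
# Hamiltonian paths in Cayley graphs of abelian groups with two generators
-/

set_option autoImplicit false

namespace Pool.Agent.Helper43.CQ

/-- adjacency in the Cayley graph of `B` -/
def cadj {G : Type*} [Group G] (B : Set G) (x y : G) : Prop := x⁻¹ * y ∈ B

theorem cadj_symm {G : Type*} [Group G] {B : Set G} (hB : ∀ b ∈ B, b⁻¹ ∈ B) (x y : G)
    (h : cadj B x y) : cadj B y x := by
  unfold cadj at *
  have := hB _ h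
  rwa [mul_inv_rev, inv_inv] at this

/-- `x` is a product of elements of `B`, whose number is congruent to `e` modulo two -/
def Wd {G : Type*} [Group G] (B : Set G) (e : ℤ) (x : G) : Prop :=
  ∃ l : List G, (∀ b ∈ l, b ∈ B) ∧ l.prod = x ∧ (l.length : ℤ) % 2 = e % 2

/-- Hamiltonian paths from `1` to all elements `≠ 1` which are products of an odd number of
elements of `B` -/
def GoodSet {G : Type*} [Group G] (B : Set G) : Prop :=
  ∀ y, y ≠ 1 → Wd B 1 y → HP (cadj B) (Subgroup.closure B : Set G) 1 y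

theorem exists_list {G : Type*} [Group G] {B : Set G} (hB : ∀ b ∈ B, b⁻¹ ∈ B) {z : G}
    (hz : z ∈ Subgroup.closure B) : ∃ l : List G, (∀ b ∈ l, b ∈ B) ∧ l.prod = z := by
  induction hz using Subgroup.closure_induction with
  | mem x hx => exact ⟨[x], by simpa using hx, by simp⟩
  | one => exact ⟨[], by simp, rfl⟩
  | mul x y _ _ h1 h2 =>
    obtain ⟨l, h3, h4⟩ := h1
    obtain ⟨l', h5, h6⟩ := h2
    refine ⟨l ++ l', ?_, by rw [List.prod_append, h4, h6]⟩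
    intro b hb
    rw [List.mem_append] at hb
    exact hb.elim (h3 b) (h5 b)
  | inv x _ h1 =>
    obtain ⟨l, h3, h4⟩ := h1
    refine ⟨(l.map fun y => y⁻¹).reverse, ?_, by rw [← List.prod_inv_reverse, h4]⟩
    intro b hb
    rw [List.mem_reverse, List.mem_map] at hb
    obtain ⟨c, hc, rfl⟩ := hb
    exact hB c (h3 c hc)

variable {N : Type*} [CommGroup N]

theorem ab_mul (a b : N) (i k i' k' : ℤ) :
    a ^ i * b ^ k * (a ^ i' * b ^ k') = a ^ (i + i') * b ^ (k + k') := by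
  rw [zpow_add, zpow_add, mul_mul_mul_comm]

theorem ab_inv (a b : N) (i k : ℤ) : (a ^ i * b ^ k)⁻¹ = a ^ (-i) * b ^ (-k) := by
  rw [zpow_neg, zpow_neg, mul_inv]

theorem phi_inj {a b : N} {n m : ℕ} (ha : ∀ k : ℤ, a ^ k = 1 → (n : ℤ) ∣ k)
    (hb : ∀ k i : ℤ, b ^ k = a ^ i → (m : ℤ) ∣ k) {i k i' k' : ℤ}
    (h : a ^ i * b ^ k = a ^ i' * b ^ k') (h1 : |i - i'| < n) (h2 : |k - k'| < m) :
    i = i' ∧ k = k' := by
  have e1 : b ^ (k - k') = a ^ (i' - i) := by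
    rw [zpow_sub, zpow_sub, mul_inv_eq_iff_eq_mul, mul_right_comm, eq_mul_inv_iff_mul_eq,
      mul_comm, h]
  have h3 := Int.eq_zero_of_abs_lt_dvd (hb _ _ e1) h2
  have h4 : k = k' := by omega
  subst h4
  have e2 : a ^ (i - i') = 1 := by
    rw [zpow_sub, mul_inv_eq_one]
    exact mul_right_cancel h
  have h5 := Int.eq_zero_of_abs_lt_dvd (ha _ e2) h1
  omega

/-- embedding of parts of the grid -/
theorem emb {B : Set N} {a b : N} {n m : ℕ} (ha : ∀ k : ℤ, a ^ k = 1 → (n : ℤ) ∣ k)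
    (hb : ∀ k i : ℤ, b ^ k = a ^ i → (m : ℤ) ∣ k) (haB : a ∈ B) (haB' : a⁻¹ ∈ B) (hbB : b ∈ B)
    (hbB' : b⁻¹ ∈ B) {S : Set (ℤ × ℤ)} {p q : ℤ × ℤ} (H : HP gadj S p q)
    (hS : ∀ x ∈ S, ∀ y ∈ S, |x.1 - y.1| < n ∧ |x.2 - y.2| < m) (g : N) {T : Set N} {x y : N}
    (hT : ∀ z, z ∈ T ↔ ∃ i k : ℤ, ((i, k) : ℤ × ℤ) ∈ S ∧ g * (a ^ i * b ^ k) = z)
    (hx : g * (a ^ p.1 * b ^ p.2) = x) (hy : g * (a ^ q.1 * b ^ q.2) = y) :
    HP (cadj B) T x y := by
  refine H.map (fun p => g * (a ^ p.1 * b ^ p.2)) ?_ ?_ ?_ hx hy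
  · intro x hx y hy hxy
    have h1 := mul_left_cancel hxy
    obtain ⟨h2, h3⟩ := hS x hx y hy
    obtain ⟨h4, h5⟩ := phi_inj ha hb h1 h2 h3
    exact Prod.ext h4 h5
  · rintro ⟨i, k⟩ - ⟨i', k'⟩ - hadj
    show (g * (a ^ i * b ^ k))⁻¹ * (g * (a ^ i' * b ^ k')) ∈ B
    unfold gadj at hadj
    simp only at hadj
    rcases hadj with ⟨h1, h2 | h2⟩ | ⟨h1, h2 | h2⟩
    · rw [h1, h2]
      convert hbB using 1
      rw [zpow_add_one]
      group
    · rw [h1, h2]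
      convert hbB' using 1
      rw [zpow_add_one]
      group
    · rw [h1, h2]
      convert haB using 1
      rw [zpow_add_one, mul_inv_rev, mul_inv_rev]
      rw [show (b ^ k')⁻¹ * (a ^ i)⁻¹ * g⁻¹ * (g * (a ^ i * a * b ^ k')) =
        (b ^ k')⁻¹ * a * b ^ k' by group]
      rw [mul_comm, ← mul_assoc, mul_inv_cancel, one_mul]
    · rw [h1, h2]
      convert haB' using 1
      rw [zpow_add_one, mul_inv_rev, mul_inv_rev]
      rw [show (b ^ k')⁻¹ * (a ^ i' * a)⁻¹ * g⁻¹ * (g * (a ^ i' * b ^ k')) =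
        (b ^ k')⁻¹ * a⁻¹ * b ^ k' by group]
      rw [mul_comm, ← mul_assoc, mul_inv_cancel, one_mul]
  · intro z
    rw [hT]
    constructor
    · rintro ⟨i, k, h1, h2⟩
      exact ⟨(i, k), h1, h2⟩
    · rintro ⟨⟨i, k⟩, h1, h2⟩
      exact ⟨i, k, h1, h2⟩

/-- a row of powers of `a` -/
theorem powseq {B : Set N} {a : N} {n : ℕ} (ha : ∀ k : ℤ, a ^ k = 1 → (n : ℤ) ∣ k)
    (haB : a ∈ B) (g : N) {L : ℕ} (hL : 1 ≤ L) (hLn : L ≤ n) {T : Set N} {x y : N}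
    (hT : ∀ z, z ∈ T ↔ ∃ i : ℤ, 0 ≤ i ∧ i < L ∧ g * a ^ i = z)
    (hx : g = x) (hy : g * a ^ ((L : ℤ) - 1) = y) : HP (cadj B) T x y := by
  refine HP.seq (fun i : ℕ => g * a ^ (i : ℤ)) (L - 1) ?_ ?_ ?_ ?_ ?_
  · intro i j hi hj hij
    have h1 : a ^ (i : ℤ) = a ^ (j : ℤ) := mul_left_cancel hij
    have h2 : a ^ ((i : ℤ) - j) = 1 := by
      rw [zpow_sub, h1, mul_inv_cancel]
    have h3 := Int.eq_zero_of_abs_lt_dvd (ha _ h2) (by rw [abs_lt]; omega)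
    omega
  · intro i hi
    show (g * a ^ (i : ℤ))⁻¹ * (g * a ^ ((i + 1 : ℕ) : ℤ)) ∈ B
    convert haB using 1
    push_cast
    rw [zpow_add_one]
    group
  · intro z
    rw [hT]
    constructor
    · rintro ⟨i, h1, h2, h3⟩
      refine ⟨i.toNat, by omega, ?_⟩
      rw [← h3, Int.toNat_of_nonneg h1]
    · rintro ⟨i, h1, h2⟩
      exact ⟨i, by omega, by omega, h2⟩
  · rw [← hx]
    simp
  · rw [← hy]
    congr 2
    omega

end Pool.Agent.Helper43.CQ
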