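import Pool.Agent.Helper43.CQ.BaseTwo

/-!
# Hamiltonian paths in Cayley graphs of abelian groups with two generators, the theorem
-/

set_option autoImplicit false

namespace Pool.Agent.Helper43.CQ

theorem ladder2 {c d α β : ℤ} (hc : c ≤ α) (hαβ : α < β) (hβ : β < d) (hodd : (β - α) % 2 = 1) :
    HP gadj {p : ℤ × ℤ | c ≤ p.1 ∧ p.1 < d ∧ 0 ≤ p.2 ∧ p.2 < 2} (α, 0) (β, 0) := by
  have h1 : HP gadj (rect (α - c + 1).toNat 2) (0, 0) (0, 1) :=
    transpose (uturn (by omega))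
  have h2 : HP gadj (rect (d - 1 - α).toNat 2) (0, 0) (β - α - 1, 1) :=
    grid _ _ _ rfl (by omega) _ _ (by omega) (by omega) (by omega) (by omega) (by omega)
      (by omega) (by omega)
  have h3 : HP gadj {p : ℤ × ℤ | c ≤ p.1 ∧ p.1 ≤ α ∧ 0 ≤ p.2 ∧ p.2 < 2} (α, 0) (α, 1) := by
    refine h1.map (fun p => (α - p.1, p.2)) ?_ ?_ ?_ ?_ ?_
    · rintro ⟨a, b⟩ - ⟨x, y⟩ - hab
      simp only [Prod.mk.injEq] at hab ⊢
      omega
    · rintro ⟨a, b⟩ - ⟨x, y⟩ - hab
      unfold gadj at *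
      simp only at *
      omega
    · rintro ⟨a, b⟩
      constructor
      · rintro ⟨h1, h2, h3, h4⟩
        simp only at h1 h2 h3 h4
        refine ⟨(α - a, b), (mem_rect _ _ _ _).2 (by omega), ?_⟩
        simp
      · rintro ⟨⟨x, y⟩, hxy, he⟩
        simp only [Prod.mk.injEq] at he
        rw [mem_rect] at hxy
        refine ⟨?_, ?_, ?_, ?_⟩ <;> simp only <;> omega
    · simp
    · simp
  have h4 : HP gadj {p : ℤ × ℤ | α < p.1 ∧ p.1 < d ∧ 0 ≤ p.2 ∧ p.2 < 2} (α + 1, 1) (β, 0) := by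
    refine h2.map (fun p => (α + 1 + p.1, 1 - p.2)) ?_ ?_ ?_ ?_ ?_
    · rintro ⟨a, b⟩ - ⟨x, y⟩ - hab
      simp only [Prod.mk.injEq] at hab ⊢
      omega
    · rintro ⟨a, b⟩ - ⟨x, y⟩ - hab
      unfold gadj at *
      simp only at *
      omega
    · rintro ⟨a, b⟩
      constructor
      · rintro ⟨h1, h2, h3, h4⟩
        simp only at h1 h2 h3 h4
        refine ⟨(a - α - 1, 1 - b), (mem_rect _ _ _ _).2 (by omega), ?_⟩
        simp only [Prod.mk.injEq]
        omega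
      · rintro ⟨⟨x, y⟩, hxy, he⟩
        simp only [Prod.mk.injEq] at he
        rw [mem_rect] at hxy
        refine ⟨?_, ?_, ?_, ?_⟩ <;> simp only <;> omega
    · simp
    · simp only [Prod.mk.injEq]
      omega
  refine h3.append' h4 (Or.inr ⟨rfl, Or.inl rfl⟩) ?_ ?_
  · rintro ⟨a, b⟩ ⟨h5, h6, h7, h8⟩ ⟨h9, h10, h11, h12⟩
    simp only at *
    omega
  · rintro ⟨a, b⟩
    constructor
    · rintro ⟨h5, h6, h7, h8⟩
      simp only at h5 h6 h7 h8
      rcases Int.lt_or_le α a with h9 | h9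
      · right
        exact ⟨h9, h6, h7, h8⟩
      · left
        exact ⟨h5, h9, h7, h8⟩
    · rintro (⟨h5, h6, h7, h8⟩ | ⟨h5, h6, h7, h8⟩)
      · refine ⟨?_, ?_, ?_, ?_⟩ <;> simp only at * <;> omega
      · refine ⟨?_, ?_, ?_, ?_⟩ <;> simp only at * <;> omega

theorem ladder2' {c d α β : ℤ} (hα : c ≤ α) (hβ : c ≤ β) (hα' : α < d) (hβ' : β < d)
    (hodd : (β - α) % 2 = 1) :
    HP gadj {p : ℤ × ℤ | c ≤ p.1 ∧ p.1 < d ∧ 0 ≤ p.2 ∧ p.2 < 2} (α, 0) (β, 0) := by
  rcases lt_trichotomy α β with h | h | h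
  · exact ladder2 hα h hβ' hodd
  · subst h
    simp at hodd
  · exact (ladder2 hβ h hα' (by omega)).symm gadj_symm

variable {N : Type*} [CommGroup N]

/-- the case of index two, both ends in the same coset -/
theorem Pr.trick {a b : N} {n : ℕ} {s : ℤ} (h : Pr a b n 2 s) (hn : 3 ≤ n) (hn2 : n % 2 = 0)
    (hs : s % 2 = 1) {j : ℤ} (hj : 2 ≤ j) (hjn : j < n) (hj2 : j % 2 = 0) :
    HP (cadj (U2 a b)) (Subgroup.closure (U2 a b) : Set N) 1 (a ^ j) := by
  have hn' : (0 : ℤ) < n := by omega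
  obtain ⟨s', hs1, hs2, hs3, hs4⟩ : ∃ s' : ℤ, 1 ≤ s' ∧ s' < n ∧ s' % 2 = 1 ∧
      (n : ℤ) ∣ s - s' := by
    refine ⟨s % n, ?_, Int.emod_lt_of_pos _ hn', ?_, Int.dvd_self_sub_emod⟩
    · have h0 := Int.emod_nonneg s hn'.ne'
      have h1 : (s % n) % 2 = s % 2 := Int.emod_emod_of_dvd s (by omega)
      omega
    · have h1 : (s % n) % 2 = s % 2 := Int.emod_emod_of_dvd s (by omega)
      omega
  have hbs : b ^ (2 : ℤ) = a ^ s' := by
    rw [← h.poweq hs4]
    exact h.bs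
  have hb1 : ∀ i : ℤ, b ≠ a ^ i := by
    intro i hi
    have h1 := h.hb 1 i (by rwa [zpow_one])
    norm_num at h1
  -- the first two elements
  have h1 : HP (cadj (U2 a b)) {z | z = 1 ∨ z = b} 1 b := by
    refine (HP.single (cadj (U2 a b)) (1 : N)).append' (HP.single _ b) ?_ ?_ ?_
    · show (1 : N)⁻¹ * b ∈ U2 a b
      rw [inv_one, one_mul]
      exact U2_b a b
    · rintro v hv hv'
      rw [Set.mem_singleton_iff] at hv hv'
      exact hb1 0 (by rw [zpow_zero, ← hv', hv])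
    · intro v
      rfl
  have h2 := ladder2' (c := 1) (d := n) hs1 (by omega : (1 : ℤ) ≤ j) hs2 hjn (by omega)
  have h3 : HP (cadj (U2 a b)) {z | ∃ i k : ℤ, ((i, k) : ℤ × ℤ) ∈
      {p : ℤ × ℤ | 1 ≤ p.1 ∧ p.1 < n ∧ 0 ≤ p.2 ∧ p.2 < 2} ∧ 1 * (a ^ i * b ^ k) = z} (a ^ s')
        (a ^ j) := by
    refine emb (n := n) (m := 2) h.ha h.hb (U2_a a b) (U2_a' a b) (U2_b a b) (U2_b' a b) h2 ?_ 1
      (fun z => Iff.rfl) (by simp) (by simp)
    rintro ⟨x1, x2⟩ ⟨e1, e2, e3, e4⟩ ⟨y1, y2⟩ ⟨e5, e6, e7, e8⟩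
    simp only at *
    rw [abs_lt, abs_lt]
    push_cast
    omega
  refine h1.append' h3 ?_ ?_ ?_
  · show b⁻¹ * a ^ s' ∈ U2 a b
    rw [← hbs]
    convert U2_b a b using 1
    group
  · rintro v hv ⟨i, k, ⟨e1, e2, e3, e4⟩, he⟩
    simp only at e1 e2 e3 e4
    rw [one_mul] at he
    have h4 : v = a ^ (0 : ℤ) * b ^ (0 : ℤ) ∨ v = a ^ (0 : ℤ) * b ^ (1 : ℤ) := by
      rcases hv with h5 | h5
      · left; rw [h5]; simp
      · right; rw [h5]; simp
    rcases h4 with h4 | h4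
    · rw [h4] at he
      have := phi_inj (n := n) (m := 2) h.ha h.hb he (by rw [abs_lt]; omega)
        (by rw [abs_lt]; push_cast; omega)
      omega
    · rw [h4] at he
      have := phi_inj (n := n) (m := 2) h.ha h.hb he (by rw [abs_lt]; omega)
        (by rw [abs_lt]; push_cast; omega)
      omega
  · intro z
    rw [SetLike.mem_coe, h.mem_cl (by omega) (by omega)]
    constructor
    · rintro ⟨i, k, e1, e2, e3, e4, e5⟩
      rcases Int.lt_or_le 0 i with e6 | e6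
      · right
        refine ⟨i, k, ⟨?_, e2, e3, ?_⟩, by rw [one_mul, e5]⟩
        · show 1 ≤ i
          omega
        · show k < 2
          omega
      · left
        have e7 : i = 0 := by omega
        have e8 : k = 0 ∨ k = 1 := by omega
        rw [← e5, e7]
        rcases e8 with e8 | e8
        · left; rw [e8]; simp
        · right; rw [e8]; simp
    · rintro ((e1 | e1) | ⟨i, k, ⟨e1, e2, e3, e4⟩, e5⟩)
      · exact ⟨0, 0, le_rfl, hn', le_rfl, by norm_num, by rw [e1]; simp⟩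
      · exact ⟨0, 1, le_rfl, hn', by norm_num, by norm_num, by rw [e1]; simp⟩
      · simp only at e1 e2 e3 e4
        exact ⟨i, k, by omega, e2, e3, by simpa using e4, by rw [← e5, one_mul]⟩

/-- the case of index at least three, both ends in the same coset -/
theorem Pr.loop {a b : N} {n m : ℕ} {s : ℤ} (h : Pr a b n m s) (hn : 3 ≤ n) (hm : 3 ≤ m)
    (hn2 : n % 2 = 0) (hs : (s + m) % 2 = 1) {j : ℤ} (hj : 2 ≤ j) (hjn : j < n)
    (hj2 : j % 2 = 0) :
    HP (cadj (U2 a b)) (Subgroup.closure (U2 a b) : Set N) 1 (a ^ j) := by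
  have hn' : (0 : ℤ) < n := by omega
  obtain ⟨x, hx1, hx2, hx3, hx4⟩ : ∃ x : ℤ, 0 ≤ x ∧ x < n ∧ x % 2 = (-s - j) % 2 ∧
      (n : ℤ) ∣ (-s - j) - x := by
    refine ⟨(-s - j) % n, Int.emod_nonneg _ hn'.ne', Int.emod_lt_of_pos _ hn', ?_,
      Int.dvd_self_sub_emod⟩
    exact Int.emod_emod_of_dvd _ (by omega)
  -- the first part of the row
  have h1 : HP (cadj (U2 a b)) {z | ∃ i : ℤ, 0 ≤ i ∧ i < (j.toNat : ℤ) ∧ (1 : N) * a ^ i = z} 1
      (1 * a ^ ((j.toNat : ℤ) - 1)) :=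
    powseq (n := n) h.ha (U2_a a b) 1 (by omega) (by omega) (fun z => Iff.rfl) rfl rfl
  have hjj : (j.toNat : ℤ) = j := Int.toNat_of_nonneg (by omega)
  rw [hjj] at h1
  -- the other rows
  have h2 : HP gadj (rect n (m - 1)) (0, 0) (x, (m : ℤ) - 2) :=
    grid _ _ _ rfl (by omega) _ _ (by omega) (by omega) (by omega) (by omega) (by omega)
      (by omega) (by omega)
  have h3 : HP (cadj (U2 a b)) {z | ∃ i k : ℤ, ((i, k) : ℤ × ℤ) ∈ rect n (m - 1) ∧
      (a ^ (j - 1) * b ^ (1 : ℤ)) * (a ^ i * b ^ k) = z} (a ^ (j - 1) * b ^ (1 : ℤ))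
        ((a ^ (j - 1) * b ^ (1 : ℤ)) * (a ^ x * b ^ ((m : ℤ) - 2))) := by
    refine emb (n := n) (m := m) h.ha h.hb (U2_a a b) (U2_a' a b) (U2_b a b) (U2_b' a b) h2 ?_ _
      (fun z => Iff.rfl) (by simp) rfl
    rintro ⟨x1, x2⟩ hx ⟨y1, y2⟩ hy
    rw [mem_rect] at hx hy
    simp only
    rw [abs_lt, abs_lt]
    omega
  -- the second part of the row
  have h4 : HP (cadj (U2 a b)) {z | ∃ i : ℤ, 0 ≤ i ∧ i < ((n - j.toNat : ℕ) : ℤ) ∧
      a ^ (-1 : ℤ) * (a⁻¹) ^ i = z} (a ^ (-1 : ℤ))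
      (a ^ (-1 : ℤ) * (a⁻¹) ^ (((n - j.toNat : ℕ) : ℤ) - 1)) :=
    powseq (n := n) h.inva.ha (U2_a' a b) _ (by omega) (by omega) (fun z => Iff.rfl) rfl rfl
  have hnj : ((n - j.toNat : ℕ) : ℤ) = n - j := by omega
  rw [hnj] at h4
  have e1 : a ^ (-1 : ℤ) * (a⁻¹) ^ ((n : ℤ) - j - 1) = a ^ j := by
    rw [inv_zpow', ← zpow_add]
    exact h.poweq ⟨-1, by ring⟩
  rw [e1] at h4
  have e2 : (a ^ (j - 1) * b ^ (1 : ℤ)) * (a ^ x * b ^ ((m : ℤ) - 2)) =
      a ^ (-1 - s) * b ^ ((m : ℤ) - 1) := by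
    rw [ab_mul, h.poweq (k := j - 1 + x) (l := -1 - s)]
    · congr 2
      ring
    · obtain ⟨c, hc⟩ := hx4
      exact ⟨-c, by linear_combination -hc⟩
  rw [e2] at h3
  have h5 : HP (cadj (U2 a b)) ({z | ∃ i k : ℤ, ((i, k) : ℤ × ℤ) ∈ rect n (m - 1) ∧
      (a ^ (j - 1) * b ^ (1 : ℤ)) * (a ^ i * b ^ k) = z} ∪
      {z | ∃ i : ℤ, 0 ≤ i ∧ i < (n : ℤ) - j ∧ a ^ (-1 : ℤ) * (a⁻¹) ^ i = z})
      (a ^ (j - 1) * b ^ (1 : ℤ)) (a ^ j) := by
    refine h3.append h4 ?_ ?_
    · show (a ^ (-1 - s) * b ^ ((m : ℤ) - 1))⁻¹ * a ^ (-1 : ℤ) ∈ U2 a b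
      have e3 : a ^ (-1 : ℤ) = a ^ (-1 - s) * b ^ ((m : ℤ) - 1) * b := by
        rw [mul_assoc, ← zpow_add_one, sub_add_cancel, h.bs, ← zpow_add]
        congr 1
        ring
      rw [e3, inv_mul_cancel_left]
      exact U2_b a b
    · rintro v ⟨i, k, hik, he⟩ ⟨i', hi1, hi2, hi'⟩
      rw [mem_rect] at hik
      rw [ab_mul] at he
      rw [inv_zpow', ← zpow_add, ← he] at hi'
      have h6 : b ^ (1 + k) = a ^ (-1 + -i' - (j - 1 + i)) := by
        rw [zpow_sub, hi', mul_right_comm, mul_inv_cancel, one_mul]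
      have h7 := Int.eq_zero_of_abs_lt_dvd (h.hb _ _ h6) (by rw [abs_lt]; omega)
      omega
  refine h1.append' h5 ?_ ?_ ?_
  · show (1 * a ^ (j - 1))⁻¹ * (a ^ (j - 1) * b ^ (1 : ℤ)) ∈ U2 a b
    rw [one_mul, inv_mul_cancel_left, zpow_one]
    exact U2_b a b
  · rintro v ⟨i, hi1, hi2, hi⟩ (⟨i', k, hik, he⟩ | ⟨i', hi1', hi2', hi'⟩)
    · rw [mem_rect] at hik
      rw [ab_mul] at he
      rw [one_mul] at hi
      rw [← hi] at he
      have h6 : b ^ (1 + k) = a ^ (i - (j - 1 + i')) := by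
        rw [zpow_sub, ← he, mul_right_comm, mul_inv_cancel, one_mul]
      have h7 := Int.eq_zero_of_abs_lt_dvd (h.hb _ _ h6) (by rw [abs_lt]; omega)
      omega
    · rw [inv_zpow', ← zpow_add] at hi'
      rw [one_mul] at hi
      rw [← hi] at hi'
      have h6 : a ^ (-1 + -i' - i) = 1 := by
        rw [zpow_sub, hi', mul_inv_cancel]
      obtain ⟨c, hc⟩ := h.ha _ h6
      have h7 : -1 + -i' - i + n = n * (c + 1) := by linear_combination hc
      have h8 := Int.eq_zero_of_abs_lt_dvd (m := (n : ℤ)) ⟨c + 1, h7⟩ (by rw [abs_lt]; omega)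
      omega
  · intro z
    rw [SetLike.mem_coe, h.mem_cl (by omega) (by omega)]
    constructor
    · rintro ⟨i, k, e3, e4, e5, e6, e7⟩
      rcases Int.lt_or_le 0 k with e8 | e8
      · right
        left
        have hd : (n : ℤ) ∣ (i - (j - 1)) - (i - (j - 1)) % n := Int.dvd_self_sub_emod
        refine ⟨(i - (j - 1)) % n, k - 1, (mem_rect _ _ _ _).2 ⟨Int.emod_nonneg _ hn'.ne',
          Int.emod_lt_of_pos _ hn', by omega, by omega⟩, ?_⟩
        rw [ab_mul, ← e7, h.poweq (k := j - 1 + (i - (j - 1)) % n) (l := i)]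
        · congr 2
          ring
        · obtain ⟨c, hc⟩ := hd
          exact ⟨-c, by linear_combination -hc⟩
      · have e9 : k = 0 := by omega
        subst e9
        rw [zpow_zero, mul_one] at e7
        rcases Int.lt_or_le i j with e8 | e8
        · left
          exact ⟨i, e3, e8, by rw [one_mul, e7]⟩
        · right
          right
          refine ⟨n - 1 - i, by omega, by omega, ?_⟩
          rw [inv_zpow', ← zpow_add, ← e7]
          exact h.poweq ⟨-1, by ring⟩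
    · intro hz
      rw [← h.mem_cl (by omega) (by omega), mem_cl_U2]
      rcases hz with ⟨i, e3, e4, e5⟩ | ⟨i, k, e3, e4⟩ | ⟨i, e3, e4, e5⟩
      · exact ⟨i, 0, by rw [zpow_zero, mul_one, ← e5, one_mul]⟩
      · exact ⟨j - 1 + i, 1 + k, by rw [← e4, ab_mul]⟩
      · exact ⟨-1 + -i, 0, by rw [zpow_zero, mul_one, ← e5, inv_zpow', ← zpow_add]⟩

/-- **Two generators.** -/
theorem baseI {a b : N} {n m : ℕ} {s : ℤ} (h : Pr a b n m s) (hn : 3 ≤ n) (hm : 2 ≤ m) :
    GoodSet (U2 a b) := by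
  rintro y hy1 ⟨l, hl, hly, hlen⟩
  obtain ⟨i, k, hik, hpar⟩ := wd_pair l hl
  obtain ⟨j, r, q, hj0, hjn, hr0, hrm, he, hk, hd⟩ := h.norm (by omega) (by omega) i k
  have hy : y = a ^ j * b ^ r := by rw [← hly, ← hik, he]
  have hne : ¬ (j = 0 ∧ r = 0) := by
    rintro ⟨rfl, rfl⟩
    apply hy1
    rw [hy]
    simp
  have hpar' : (i + k) % 2 = 1 := by omega
  subst hy
  rcases Nat.mod_two_eq_zero_or_one n with hn2 | hn2
  · -- `n` is even
    rcases Int.emod_two_eq_zero_or_one (j + r) with hjr | hjr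
    · have hsm : (s + m) % 2 = 1 := by
        obtain ⟨c, hc⟩ := hd
        obtain ⟨n', hn'⟩ : ∃ n' : ℤ, (n : ℤ) = 2 * n' := ⟨(n : ℤ) / 2, by omega⟩
        have h1 : i + k = (j + r) + (m - s) * q + 2 * (n' * c) := by
          rw [hn'] at hc
          linear_combination hc + hk
        rcases Int.emod_two_eq_zero_or_one ((m : ℤ) - s) with h2 | h2
        · exfalso
          obtain ⟨w, hw⟩ : ∃ w : ℤ, (m : ℤ) - s = 2 * w := ⟨((m : ℤ) - s) / 2, by omega⟩
          have h3 : ((m : ℤ) - s) * q = 2 * (w * q) := by rw [hw]; ring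
          rw [h3] at h1
          omega
        · omega
      rcases Int.lt_or_le 0 r with hr | hr
      · -- the other direction
        obtain ⟨j', hj1, hj2, hj3, hj4⟩ : ∃ j' : ℤ, 0 ≤ j' ∧ j' < n ∧ j' % 2 = (j + s) % 2 ∧
            (n : ℤ) ∣ (j + s) - j' := by
          refine ⟨(j + s) % n, Int.emod_nonneg _ (by omega), Int.emod_lt_of_pos _ (by omega), ?_,
            Int.dvd_self_sub_emod⟩
          exact Int.emod_emod_of_dvd _ (by omega)
        have h1 := h.invb.full (tx := j') (ty := m - r) (by omega) (by omega)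
          (grid _ _ _ rfl (by omega) _ _ (by omega) (by omega) (by omega) (by omega) (by omega)
            (by omega) (by omega))
        rw [U2_invb] at h1
        convert h1 using 1
        rw [inv_zpow', neg_sub, zpow_sub, h.bs, ← h.poweq hj4, zpow_add, mul_assoc,
          mul_left_comm (a ^ s), mul_inv_cancel, mul_one]
      · have hr' : r = 0 := by omega
        subst hr'
        rw [zpow_zero, mul_one]
        rcases Nat.lt_or_ge 2 m with hm3 | hm3
        · exact h.loop hn hm3 hn2 hsm (by omega) hjn (by omega)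
        · have hm2 : m = 2 := by omega
          subst hm2
          exact h.trick hn hn2 (by push_cast at hsm; omega) (by omega) hjn (by omega)
    · exact h.full (by omega) (by omega) (grid _ _ _ rfl (by omega) _ _ (by omega) (by omega)
        (by omega) (by omega) (by omega) (by omega) (by omega))
  · -- `n` is odd
    have hcase : (j + r) % 2 = (1 + m) % 2 ∨ (1 ≤ j ∧ ((n - j) + r) % 2 = (1 + m) % 2) ∨
        (j = 0 ∧ r % 2 = m % 2) := by
      omega
    rcases hcase with h1 | ⟨h1, h2⟩ | ⟨h1, h2⟩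
    · exact h.full (by omega) (by omega) (grid _ _ _ rfl (by omega) _ _ (by omega) (by omega)
        (by omega) (by omega) (by omega) (by omega) (by omega))
    · have h3 := h.inva.full (tx := n - j) (ty := r) (by omega) (by omega)
        (grid _ _ _ rfl (by omega) _ _ (by omega) (by omega)
        (by omega) (by omega) (by omega) (by omega) (by omega))
      rw [U2_inva] at h3
      convert h3 using 1
      rw [inv_zpow', neg_sub, h.poweq (k := j - n) (l := j) ⟨-1, by ring⟩]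
    · subst h1
      have h3 := h.rowfirst (tx := 1) (ty := r - 1) (by omega) hm
        (grid _ _ _ rfl (by omega) _ _ (by omega) (by omega)
        (by omega) (by omega) (by omega) (by omega) (by omega))
      convert h3 using 1
      norm_num

end Pool.Agent.Helper43.CQ
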