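import Pool.Agent.Helper43.CQ.BaseOne

/-!
# Hamiltonian paths in Cayley graphs of abelian groups with two generators, continued
-/

set_option autoImplicit false

namespace Pool.Agent.Helper43.CQ

variable {N : Type*} [CommGroup N]

/-- two generators and their inverses -/
def U2 (a b : N) : Set N := {a, a⁻¹, b, b⁻¹}

theorem U2_inva (a b : N) : U2 a⁻¹ b = U2 a b := by
  unfold U2
  rw [inv_inv, Set.insert_comm]

theorem U2_invb (a b : N) : U2 a b⁻¹ = U2 a b := by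
  unfold U2
  rw [inv_inv, Set.pair_comm]

theorem U2_a (a b : N) : a ∈ U2 a b := Or.inl rfl
theorem U2_a' (a b : N) : a⁻¹ ∈ U2 a b := Or.inr (Or.inl rfl)
theorem U2_b (a b : N) : b ∈ U2 a b := Or.inr (Or.inr (Or.inl rfl))
theorem U2_b' (a b : N) : b⁻¹ ∈ U2 a b := Or.inr (Or.inr (Or.inr rfl))

theorem U2_inv (a b : N) : ∀ x ∈ U2 a b, x⁻¹ ∈ U2 a b := by
  rintro x (h | h | h | h)
  · rw [h]
    exact U2_a' a b
  · rw [h, inv_inv]
    exact U2_a a b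
  · rw [h]
    exact U2_b' a b
  · rw [h, inv_inv]
    exact U2_b a b

/-- the parameters of a pair of elements -/
structure Pr (a b : N) (n m : ℕ) (s : ℤ) : Prop where
  an : a ^ (n : ℤ) = 1
  ha : ∀ k : ℤ, a ^ k = 1 → (n : ℤ) ∣ k
  hb : ∀ k i : ℤ, b ^ k = a ^ i → (m : ℤ) ∣ k
  bs : b ^ (m : ℤ) = a ^ s

theorem Pr.inva {a b : N} {n m : ℕ} {s : ℤ} (h : Pr a b n m s) : Pr a⁻¹ b n m (-s) where
  an := by rw [inv_zpow, h.an, inv_one]
  ha := fun k hk => h.ha k (by rwa [inv_zpow, inv_eq_one] at hk)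
  hb := fun k i hk => h.hb k (-i) (by rw [hk, inv_zpow, zpow_neg])
  bs := by rw [h.bs, inv_zpow, zpow_neg, inv_inv]

theorem Pr.invb {a b : N} {n m : ℕ} {s : ℤ} (h : Pr a b n m s) : Pr a b⁻¹ n m (-s) where
  an := h.an
  ha := h.ha
  hb := fun k i hk => h.hb k (-i) (by
    rw [inv_zpow, inv_eq_iff_eq_inv] at hk
    rw [hk, zpow_neg])
  bs := by rw [inv_zpow, h.bs, zpow_neg]

theorem Pr.powdvd {a b : N} {n m : ℕ} {s : ℤ} (h : Pr a b n m s) {k : ℤ} (hk : (n : ℤ) ∣ k) :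
    a ^ k = 1 := by
  obtain ⟨l, rfl⟩ := hk
  rw [zpow_mul, h.an, one_zpow]

theorem Pr.poweq {a b : N} {n m : ℕ} {s : ℤ} (h : Pr a b n m s) {k l : ℤ}
    (hk : (n : ℤ) ∣ k - l) : a ^ k = a ^ l := by
  have h1 := h.powdvd hk
  rwa [zpow_sub, mul_inv_eq_one] at h1

theorem Pr.norm {a b : N} {n m : ℕ} {s : ℤ} (h : Pr a b n m s) (hn : 1 ≤ n) (hm : 1 ≤ m)
    (i k : ℤ) : ∃ j r l : ℤ, 0 ≤ j ∧ j < n ∧ 0 ≤ r ∧ r < m ∧ a ^ i * b ^ k = a ^ j * b ^ r ∧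
      k = r + m * l ∧ (n : ℤ) ∣ i + s * l - j := by
  have hn' : (0 : ℤ) < n := by omega
  have hm' : (0 : ℤ) < m := by omega
  have hd : (n : ℤ) ∣ i + s * (k / m) - (i + s * (k / m)) % n := Int.dvd_self_sub_emod
  refine ⟨(i + s * (k / m)) % n, k % m, k / m, Int.emod_nonneg _ hn'.ne', Int.emod_lt_of_pos _ hn',
    Int.emod_nonneg _ hm'.ne', Int.emod_lt_of_pos _ hm', ?_, (Int.emod_add_mul_ediv k m).symm, hd⟩
  rw [← h.poweq hd]
  have h1 : b ^ k = b ^ (k % m) * a ^ (s * (k / m)) := by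
    conv_lhs => rw [← Int.emod_add_mul_ediv k m]
    rw [zpow_add, zpow_mul, h.bs, ← zpow_mul]
  rw [h1, zpow_add, mul_comm (b ^ (k % m)), ← mul_assoc]

theorem wd_pair {a b : N} : ∀ l : List N, (∀ x ∈ l, x ∈ U2 a b) →
    ∃ i k : ℤ, a ^ i * b ^ k = l.prod ∧ (i + k) % 2 = (l.length : ℤ) % 2 := by
  intro l
  induction l with
  | nil => intro _; exact ⟨0, 0, by simp, by simp⟩
  | cons x l ih =>
    intro hl
    obtain ⟨i, k, h1, h2⟩ := ih fun y hy => hl y (List.mem_cons_of_mem _ hy)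
    rw [List.prod_cons, List.length_cons, ← h1]
    push_cast
    rcases hl x (by simp) with h | h | h | h
    · refine ⟨1 + i, 0 + k, ?_, by omega⟩
      rw [← ab_mul, h]
      simp
    · refine ⟨-1 + i, 0 + k, ?_, by omega⟩
      rw [← ab_mul, h]
      simp
    · refine ⟨0 + i, 1 + k, ?_, by omega⟩
      rw [← ab_mul, h]
      simp
    · refine ⟨0 + i, -1 + k, ?_, by omega⟩
      rw [← ab_mul, Set.mem_singleton_iff.1 h]
      simp

theorem mem_cl_U2 {a b z : N} : z ∈ Subgroup.closure (U2 a b) ↔ ∃ i k : ℤ, a ^ i * b ^ k = z := by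
  constructor
  · intro h
    obtain ⟨l, hl, rfl⟩ := exists_list (U2_inv a b) h
    obtain ⟨i, k, h1, -⟩ := wd_pair (a := a) (b := b) l hl
    exact ⟨i, k, h1⟩
  · rintro ⟨i, k, rfl⟩
    exact mul_mem (zpow_mem (Subgroup.subset_closure (U2_a a b)) _)
      (zpow_mem (Subgroup.subset_closure (U2_b a b)) _)

theorem Pr.mem_cl {a b : N} {n m : ℕ} {s : ℤ} (h : Pr a b n m s) (hn : 1 ≤ n) (hm : 1 ≤ m) {z : N} :
    z ∈ Subgroup.closure (U2 a b) ↔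
      ∃ i k : ℤ, 0 ≤ i ∧ i < n ∧ 0 ≤ k ∧ k < m ∧ a ^ i * b ^ k = z := by
  rw [mem_cl_U2]
  constructor
  · rintro ⟨i, k, rfl⟩
    obtain ⟨j, r, l, h1, h2, h3, h4, h5, -, -⟩ := h.norm hn hm i k
    exact ⟨j, r, h1, h2, h3, h4, h5.symm⟩
  · rintro ⟨i, k, -, -, -, -, h1⟩
    exact ⟨i, k, h1⟩

theorem Pr.full {a b : N} {n m : ℕ} {s : ℤ} (h : Pr a b n m s) (hn : 1 ≤ n) (hm : 1 ≤ m)
    {tx ty : ℤ} (H : HP gadj (rect n m) (0, 0) (tx, ty)) :
    HP (cadj (U2 a b)) (Subgroup.closure (U2 a b) : Set N) 1 (a ^ tx * b ^ ty) := by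
  refine emb (n := n) (m := m) h.ha h.hb (U2_a a b) (U2_a' a b) (U2_b a b) (U2_b' a b) H ?_ 1 ?_
    ?_ ?_
  · rintro ⟨x1, x2⟩ hx ⟨y1, y2⟩ hy
    rw [mem_rect] at hx hy
    simp only
    rw [abs_lt, abs_lt]
    omega
  · intro z
    rw [SetLike.mem_coe, h.mem_cl hn hm]
    constructor
    · rintro ⟨i, k, h1, h2, h3, h4, h5⟩
      exact ⟨i, k, (mem_rect _ _ _ _).2 ⟨h1, h2, h3, h4⟩, by rw [one_mul, h5]⟩
    · rintro ⟨i, k, h1, h2⟩
      rw [mem_rect] at h1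
      exact ⟨i, k, h1.1, h1.2.1, h1.2.2.1, h1.2.2.2, by rw [← h2, one_mul]⟩
  · simp
  · simp

/-- the row of the powers of `a` first -/
theorem Pr.rowfirst {a b : N} {n m : ℕ} {s : ℤ} (h : Pr a b n m s) (hn : 1 ≤ n) (hm : 2 ≤ m)
    {tx ty : ℤ} (H : HP gadj (rect n (m - 1)) (0, 0) (tx, ty)) :
    HP (cadj (U2 a b)) (Subgroup.closure (U2 a b) : Set N) 1 (a ^ (tx - 1) * b ^ (ty + 1)) := by
  have h1 : HP (cadj (U2 a b)) {z | ∃ i : ℤ, 0 ≤ i ∧ i < n ∧ 1 * a ^ i = z} 1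
      (1 * a ^ ((n : ℤ) - 1)) :=
    powseq (n := n) h.ha (U2_a a b) 1 hn le_rfl (fun z => Iff.rfl) rfl rfl
  have h2 : HP (cadj (U2 a b)) {z | ∃ i k : ℤ, ((i, k) : ℤ × ℤ) ∈ rect n (m - 1) ∧
      (a ^ (-1 : ℤ) * b ^ (1 : ℤ)) * (a ^ i * b ^ k) = z} (a ^ (-1 : ℤ) * b ^ (1 : ℤ))
        ((a ^ (-1 : ℤ) * b ^ (1 : ℤ)) * (a ^ tx * b ^ ty)) := by
    refine emb (n := n) (m := m) h.ha h.hb (U2_a a b) (U2_a' a b) (U2_b a b) (U2_b' a b) H ?_ _
      (fun z => Iff.rfl) (by simp) rfl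
    rintro ⟨x1, x2⟩ hx ⟨y1, y2⟩ hy
    rw [mem_rect] at hx hy
    simp only
    rw [abs_lt, abs_lt]
    omega
  have h3 : (a ^ (-1 : ℤ) * b ^ (1 : ℤ)) * (a ^ tx * b ^ ty) =
      a ^ (tx - 1) * b ^ (ty + 1) := by
    rw [ab_mul, add_comm (-1) tx, add_comm 1 ty]
    rfl
  rw [h3] at h2
  refine h1.append' h2 ?_ ?_ ?_
  · show (1 * a ^ ((n : ℤ) - 1))⁻¹ * (a ^ (-1 : ℤ) * b ^ (1 : ℤ)) ∈ U2 a b
    convert U2_b a b using 1
    rw [one_mul, h.poweq (k := (n : ℤ) - 1) (l := -1) (by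
      rw [show (n : ℤ) - 1 - -1 = n by ring])]
    group
  · rintro v ⟨i, hi1, hi2, hi⟩ ⟨i', k, hik, he⟩
    rw [mem_rect] at hik
    rw [one_mul] at hi
    rw [← hi, ab_mul] at he
    have h5 : b ^ (1 + k) = a ^ (i - (-1 + i')) := by
      rw [zpow_sub, ← he, mul_right_comm, mul_inv_cancel, one_mul]
    have h6 := h.hb _ _ h5
    have h7 := Int.eq_zero_of_abs_lt_dvd h6 (by rw [abs_lt]; omega)
    omega
  · intro z
    rw [SetLike.mem_coe, h.mem_cl hn (by omega)]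
    constructor
    · rintro ⟨i, k, h4, h5, h6, h7, h8⟩
      rcases Int.lt_or_le 0 k with h9 | h9
      · right
        rcases Int.lt_or_le (i + 1) n with h10 | h10
        · refine ⟨i + 1, k - 1, (mem_rect _ _ _ _).2 (by omega), ?_⟩
          rw [ab_mul, ← h8]
          congr 2 <;> ring
        · refine ⟨0, k - 1, (mem_rect _ _ _ _).2 (by omega), ?_⟩
          have h11 : i = n - 1 := by omega
          rw [ab_mul, ← h8, h11, h.poweq (k := (n : ℤ) - 1) (l := -1 + 0) (by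
            rw [show (n : ℤ) - 1 - (-1 + 0) = n by ring])]
          congr 2
          ring
      · left
        have h10 : k = 0 := by omega
        refine ⟨i, h4, h5, ?_⟩
        rw [← h8, h10, zpow_zero, mul_one, one_mul]
    · rintro (⟨i, h4, h5, h6⟩ | ⟨i, k, h4, h5⟩)
      · exact ⟨i, 0, h4, h5, le_rfl, by omega, by rw [zpow_zero, mul_one, ← h6, one_mul]⟩
      · rw [← h.mem_cl hn (by omega), mem_cl_U2]
        exact ⟨-1 + i, 1 + k, by rw [← h5, ab_mul]⟩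

end Pool.Agent.Helper43.CQ
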