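import Pool.Agent.Helper43.CQ.Abel
import Pool.Graph.R_pool_sql_team_seeded_3997aac3.Q238.RS.Final

/-!
# Hamiltonian paths with two edges outside a subgroup of index two
-/

set_option autoImplicit false

namespace Pool.Agent.Helper43.CQ

open Equiv

/-- the list `l` is a Hamiltonian path of `S` from `x` to `y` -/
def HPL {V : Type*} (r : V → V → Prop) (S : Set V) (x y : V) (l : List V) : Prop :=
  l.Nodup ∧ (∀ v, v ∈ l ↔ v ∈ S) ∧ l.IsChain r ∧ l.head? = some x ∧ l.getLast? = some y

theorem HPL.cons {V : Type*} {r : V → V → Prop} {S : Set V} {x y u : V} {l : List V}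
    (h : HPL r S x y l) (hu : u ∉ S) (hr : r u x) : HPL r (insert u S) u y (u :: l) := by
  obtain ⟨h1, h2, h3, h4, h5⟩ := h
  cases l with
  | nil => simp at h4
  | cons a l =>
    simp only [List.head?_cons, Option.some.injEq] at h4
    subst h4
    refine ⟨List.nodup_cons.2 ⟨fun h => hu ((h2 u).1 h), h1⟩, ?_, ?_, rfl, ?_⟩
    · intro v
      rw [List.mem_cons, h2]
      rfl
    · rw [List.isChain_cons_cons]
      exact ⟨hr, h3⟩
    · rw [← h5]
      rfl

variable {N : Type*} [CommGroup N]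

/-- a step of the list -/
def stp (l : List N) (i : ℕ) : N := (l.getD i 1)⁻¹ * l.getD (i + 1) 1

/-- a step outside `K` -/
def Cr (K : Subgroup N) (l : List N) (i : ℕ) : Prop := i + 1 < l.length ∧ stp l i ∉ K

theorem HPL.stp_mem {B : Set N} {S : Set N} {x y : N} {l : List N} (h : HPL (cadj B) S x y l)
    {i : ℕ} (hi : i + 1 < l.length) : stp l i ∈ B := by
  have h1 := List.isChain_iff_getElem.1 h.2.2.1 i (by omega)
  unfold stp
  rw [List.getD_eq_getElem _ _ (by omega), List.getD_eq_getElem _ _ hi]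
  exact h1

theorem HPL.head {B : Set N} {S : Set N} {x y : N} {l : List N} (h : HPL (cadj B) S x y l) :
    l.getD 0 1 = x ∧ 0 < l.length := by
  obtain ⟨-, -, -, h4, -⟩ := h
  cases l with
  | nil => simp at h4
  | cons a l => simpa using h4

theorem HPL.last {B : Set N} {S : Set N} {x y : N} {l : List N} (h : HPL (cadj B) S x y l) :
    l.getD (l.length - 1) 1 = y := by
  obtain ⟨-, -, -, -, h5⟩ := h
  rw [List.getLast?_eq_getElem?] at h5
  rw [List.getD_eq_getElem?_getD, h5]
  rfl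

theorem getD_succ (l : List N) (i : ℕ) : l.getD (i + 1) 1 = l.getD i 1 * stp l i := by
  unfold stp
  rw [mul_inv_cancel_left]

theorem one_cross {B : Set N} {y : N} {l : List N} (h : HPL (cadj B) Set.univ 1 y l)
    {K : Subgroup N} (hK : K ≠ ⊤) : ∃ i, Cr K l i := by
  by_contra hno
  push Not at hno
  unfold Cr at hno
  push Not at hno
  have h1 : ∀ i, i < l.length → l.getD i 1 ∈ K := by
    intro i
    induction i with
    | zero =>
      intro _
      rw [h.head.1]
      exact one_mem K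
    | succ i ih =>
      intro hi
      rw [getD_succ]
      exact mul_mem (ih (by omega)) (hno i hi)
  apply hK
  rw [eq_top_iff]
  intro x _
  obtain ⟨i, hi, rfl⟩ := List.getElem_of_mem ((h.2.1 x).2 (Set.mem_univ x))
  have := h1 i hi
  rwa [List.getD_eq_getElem _ _ hi] at this

/-- if there is only one step outside `K` then `K` is generated by the steps in `K` -/
theorem unique_cross {B : Set N} {y : N} {l : List N} (h : HPL (cadj B) Set.univ 1 y l)
    {K : Subgroup N} (i0 : ℕ) (hi0 : Cr K l i0) (huniq : ∀ i, Cr K l i → i = i0) :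
    K ≤ Subgroup.closure (B ∩ K) ∧ y ∉ K := by
  have hle : Subgroup.closure (B ∩ K) ≤ K := by
    rw [Subgroup.closure_le]
    exact Set.inter_subset_right
  have h1 : ∀ i, i ≤ i0 → l.getD i 1 ∈ Subgroup.closure (B ∩ K) := by
    intro i
    induction i with
    | zero =>
      intro _
      rw [h.head.1]
      exact one_mem _
    | succ i ih =>
      intro hi
      have h0 := hi0.1
      rw [getD_succ]
      refine mul_mem (ih (by omega)) (Subgroup.subset_closure ⟨h.stp_mem (by omega), ?_⟩)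
      by_contra h2
      have := huniq i ⟨by omega, h2⟩
      omega
  have h2 : ∀ j, i0 + 1 + j < l.length → l.getD (i0 + 1 + j) 1 ∉ K := by
    intro j
    induction j with
    | zero =>
      intro _ h3
      rw [add_zero, getD_succ] at h3
      exact hi0.2 ((Subgroup.mul_mem_cancel_left K (hle (h1 i0 le_rfl))).1 h3)
    | succ j ih =>
      intro hj h3
      rw [← add_assoc, getD_succ] at h3
      have h4 : stp l (i0 + 1 + j) ∈ K := by
        by_contra h5
        have := huniq _ ⟨by omega, h5⟩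
        omega
      exact ih (by omega) ((Subgroup.mul_mem_cancel_right K h4).1 h3)
  constructor
  · intro x hx
    obtain ⟨i, hi, rfl⟩ := List.getElem_of_mem ((h.2.1 x).2 (Set.mem_univ x))
    rcases Nat.lt_or_ge i0 i with h3 | h3
    · exfalso
      have h4 := h2 (i - (i0 + 1)) (by omega)
      rw [show i0 + 1 + (i - (i0 + 1)) = i by omega, List.getD_eq_getElem _ _ hi] at h4
      exact h4 hx
    · have := h1 i h3
      rwa [List.getD_eq_getElem _ _ hi] at this
  · have h0 := hi0.1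
    have h3 := h2 (l.length - 1 - (i0 + 1)) (by omega)
    rw [show i0 + 1 + (l.length - 1 - (i0 + 1)) = l.length - 1 by omega, h.last] at h3
    exact h3

/-- a cyclic listing of `K` -/
theorem cyclic_listing [Finite N] {B : Set N} (hB : ∀ b ∈ B, b⁻¹ ∈ B) {K : Subgroup N}
    (hK : K ≤ Subgroup.closure (B ∩ K)) (hK1 : K ≠ ⊥) :
    ∃ h : ℤ → N, h 0 = 1 ∧ (∀ i, h i ∈ K) ∧ (∀ i, (h i)⁻¹ * h (i + 1) ∈ B ∩ K) ∧
      (∀ i j, h i = h j ↔ ((Nat.card K : ℕ) : ℤ) ∣ i - j) ∧ ∀ x ∈ K, ∃ i, h i = x := by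
  classical
  have hle : Subgroup.closure (B ∩ K) = K := by
    refine le_antisymm ?_ hK
    rw [Subgroup.closure_le]
    exact Set.inter_subset_right
  have h1 : Q238.RS.HCyc (B ∩ K) (Subgroup.closure (B ∩ K) : Set N) := by
    refine Q238.RS.hcyc_closure ?_ ?_ (by rwa [hle])
    · rintro a ⟨ha, ha'⟩
      exact ⟨hB a ha, inv_mem ha'⟩
    · rintro a ha g
      rwa [mul_comm g⁻¹, inv_mul_cancel_right]
  rw [hle] at h1
  obtain ⟨σ, hσ, hfix, hlab⟩ := h1
  have hmem : ∀ i : ℤ, (σ ^ i) 1 ∈ (K : Set N) := fun i =>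
    (hσ.1.perm_zpow i).mapsTo (show (1 : N) ∈ (K : Set N) from one_mem K)
  have := Fintype.ofFinite N
  set s : Finset N := Set.toFinset (K : Set N) with hs
  have hσs : σ.IsCycleOn (s : Set N) := by
    rw [hs, Set.coe_toFinset]
    exact hσ
  have hcard : s.card = Nat.card K := by
    rw [hs, Set.toFinset_card, Nat.card_eq_fintype_card]
    rfl
  refine ⟨fun i => (σ ^ i) 1, by simp, hmem, ?_, ?_, ?_⟩
  · intro i
    show ((σ ^ i) 1)⁻¹ * (σ ^ (i + 1)) 1 ∈ B ∩ K
    rw [add_comm i 1, zpow_add, zpow_one, Perm.mul_apply]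
    exact hlab _ (hmem i)
  · intro i j
    rw [← hcard]
    have h1s : (1 : N) ∈ s := by
      rw [hs, Set.mem_toFinset]
      exact one_mem K
    have h2 := hσs.zpow_apply_eq_zpow_apply h1s (m := i) (n := j)
    show (σ ^ i) 1 = (σ ^ j) 1 ↔ _
    rw [h2, Int.modEq_iff_dvd, ← dvd_neg, neg_sub]
  · intro x hx
    obtain ⟨i, hi⟩ := hσ.2 (show (1 : N) ∈ (K : Set N) from one_mem K) (show x ∈ (K : Set N) from hx)
    exact ⟨i, hi⟩

/-- embedding of parts of a ladder -/
theorem ladder_emb {B : Set N} (hB : ∀ b ∈ B, b⁻¹ ∈ B) {K : Subgroup N} {h : ℤ → N} {κ : ℕ}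
    (hK : ∀ i, h i ∈ K) (hstep : ∀ i, (h i)⁻¹ * h (i + 1) ∈ B)
    (hinj : ∀ i j, h i = h j → (κ : ℤ) ∣ i - j) {c : N} (hc : c ∈ B) (hcK : c ∉ K)
    {S : Set (ℤ × ℤ)} {p q : ℤ × ℤ} (H : HP gadj S p q)
    (hS : ∀ x ∈ S, ∀ y ∈ S, |x.1 - y.1| < κ) (hS' : ∀ x ∈ S, x.2 = 0 ∨ x.2 = 1) :
    HP (cadj B) {z | ∃ x ∈ S, h x.1 * c ^ x.2 = z} (h p.1 * c ^ p.2) (h q.1 * c ^ q.2) := by
  refine H.map (fun p => h p.1 * c ^ p.2) ?_ ?_ (fun w => Iff.rfl) rfl rfl
  · rintro x hx y hy hxy
    have hxy' : h x.1 * c ^ x.2 = h y.1 * c ^ y.2 := hxy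
    have h2 : x.2 = y.2 := by
      rcases hS' x hx with h1 | h1 <;> rcases hS' y hy with h3 | h3
      · rw [h1, h3]
      · exfalso
        rw [h1, h3, zpow_zero, mul_one, zpow_one] at hxy'
        apply hcK
        have : c = (h y.1)⁻¹ * h x.1 := by rw [hxy', inv_mul_cancel_left]
        rw [this]
        exact mul_mem (inv_mem (hK _)) (hK _)
      · exfalso
        rw [h1, h3, zpow_zero, mul_one, zpow_one] at hxy'
        apply hcK
        have : c = (h x.1)⁻¹ * h y.1 := by rw [← hxy', inv_mul_cancel_left]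
        rw [this]
        exact mul_mem (inv_mem (hK _)) (hK _)
      · rw [h1, h3]
    rw [h2] at hxy'
    have h3 := hinj _ _ (mul_right_cancel hxy')
    have h4 := Int.eq_zero_of_abs_lt_dvd h3 (hS x hx y hy)
    exact Prod.ext (by omega) h2
  · rintro ⟨i, k⟩ - ⟨i', k'⟩ - hadj
    show (h i * c ^ k)⁻¹ * (h i' * c ^ k') ∈ B
    unfold gadj at hadj
    simp only at hadj
    rcases hadj with ⟨h1, h2 | h2⟩ | ⟨h1, h2 | h2⟩
    · rw [h1, h2]
      convert hc using 1
      rw [zpow_add_one]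
      group
    · rw [h1, h2]
      convert hB c hc using 1
      rw [zpow_add_one]
      group
    · rw [h1, h2]
      convert hstep i using 1
      rw [mul_inv_rev, mul_comm (c ^ k')⁻¹, mul_assoc, mul_comm (h (i + 1)), inv_mul_cancel_left]
    · rw [h1, h2]
      convert hB _ (hstep i') using 1
      rw [mul_inv_rev, mul_comm (c ^ k')⁻¹, mul_assoc, mul_comm (h i'), inv_mul_cancel_left,
        mul_inv_rev, inv_inv]

theorem two_cross [Finite N] {B : Set N} (hB : ∀ b ∈ B, b⁻¹ ∈ B)
    (hgen : Subgroup.closure B = ⊤) (hgood : GoodSet B) (hbip : ¬ Wd B 1 (1 : N))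
    (hcard : 5 ≤ Nat.card N) {y : N} (hy : Wd B 1 y) {K : Subgroup N} (hK : K ≠ ⊤)
    (hK2 : ∀ x, x ∉ K → ∀ y, y ∉ K → x * y ∈ K) :
    ∃ l, HPL (cadj B) Set.univ 1 y l ∧ ∃ i j, i ≠ j ∧ Cr K l i ∧ Cr K l j := by
  by_contra hno
  have hy1 : y ≠ 1 := hy.ne_one hbip (by norm_num)
  obtain ⟨l, hl⟩ : ∃ l, HPL (cadj B) Set.univ 1 y l := by
    have := hgood y hy1 hy
    rw [hgen] at this
    exact this
  obtain ⟨i0, hi0⟩ := one_cross hl hK
  obtain ⟨hKc, hyK⟩ := unique_cross hl i0 hi0 fun i hi => by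
    by_contra hne
    exact hno ⟨l, hl, i, i0, hne, hi, hi0⟩
  apply hno
  -- the order of `K`
  set κ := Nat.card K with hκ
  have hindex : Nat.card N ≤ 2 * κ := by
    have h1 : K.index ≤ 2 := by
      have h3 : K.index = 2 := by
        refine Subgroup.index_eq_two_iff.2 ⟨y, fun b => ?_⟩
        by_cases hb : b ∈ K
        · right
          refine ⟨hb, fun h => hyK ((Subgroup.mul_mem_cancel_left K hb).1 h)⟩
        · left
          exact ⟨hK2 b hb y hyK, hb⟩
      omega
    have h2 := K.card_mul_index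
    nlinarith
  have hK1 : K ≠ ⊥ := by
    rintro rfl
    rw [Subgroup.card_bot] at hκ
    omega
  obtain ⟨h, h0, hhK, hhB, hhinj, hhsurj⟩ := cyclic_listing hB hKc hK1
  rw [← hκ] at hhinj
  obtain ⟨c, hc, hcK⟩ : ∃ c ∈ B, c ∉ K := by
    by_contra hno
    push Not at hno
    apply hK
    rw [eq_top_iff, ← hgen, Subgroup.closure_le]
    exact hno
  have hpar : ∀ i : ℤ, Wd B i (h i) := by
    intro i
    induction i using Int.induction_on with
    | zero =>
      rw [h0]
      exact Wd.one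
    | succ i ih =>
      have h2 := ih.mul (Wd.of_mem (hhB i).1)
      rwa [mul_inv_cancel_left] at h2
    | pred i ih =>
      have h2 := ih.mul ((Wd.of_mem (hhB (-i - 1)).1).inv hB)
      rw [sub_add_cancel, mul_inv_rev, inv_inv, mul_inv_cancel_left] at h2
      exact h2.congr (by omega)
  have hκeven : (κ : ℤ) % 2 = 0 := by
    have h2 : h κ = h 0 := (hhinj _ _).2 ⟨1, by ring⟩
    have h3 := hpar κ
    rw [h2, h0] at h3
    rcases Int.emod_two_eq_zero_or_one (κ : ℤ) with h4 | h4
    · exact h4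
    · exact absurd (h3.congr (by omega)) hbip
  have hκ4 : 4 ≤ κ := by omega
  have hκ0 : (0 : ℤ) < κ := by omega
  obtain ⟨j, hj0, hjκ, hj⟩ : ∃ j : ℤ, 0 ≤ j ∧ j < κ ∧ y = h j * c := by
    have h2 : y * c⁻¹ ∈ K := hK2 y hyK c⁻¹ (fun h => hcK (inv_mem_iff.1 h))
    obtain ⟨i, hi⟩ := hhsurj _ h2
    refine ⟨i % κ, Int.emod_nonneg _ hκ0.ne', Int.emod_lt_of_pos _ hκ0, ?_⟩
    rw [(hhinj (i % κ) i).2 (by rw [← dvd_neg, neg_sub]; exact Int.dvd_self_sub_emod), hi,
      inv_mul_cancel_right]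
  have hjeven : j % 2 = 0 := by
    by_contra hj2
    have h2 := (hpar j).mul (Wd.of_mem hc)
    rw [← hj] at h2
    exact Wd.uniq hB hbip hy (h2.congr (by omega))
  have hstep : ∀ i, (h i)⁻¹ * h (i + 1) ∈ B := fun i => (hhB i).1
  have hinj : ∀ i j, h i = h j → (κ : ℤ) ∣ i - j := fun i j => (hhinj i j).1
  -- normal form of the elements
  have hnf : ∀ z : N, ∃ i k : ℤ, (k = 0 ∨ k = 1) ∧ h i * c ^ k = z := by
    intro z
    by_cases hz : z ∈ K
    · obtain ⟨i, hi⟩ := hhsurj z hz
      exact ⟨i, 0, Or.inl rfl, by rw [zpow_zero, mul_one, hi]⟩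
    · have h2 : z * c⁻¹ ∈ K := hK2 z hz c⁻¹ (fun h => hcK (inv_mem_iff.1 h))
      obtain ⟨i, hi⟩ := hhsurj _ h2
      exact ⟨i, 1, Or.inr rfl, by rw [zpow_one, hi, inv_mul_cancel_right]⟩
  have hnf' : ∀ (z : N) (a : ℤ), ∃ i k : ℤ, a ≤ i ∧ i < a + κ ∧ (k = 0 ∨ k = 1) ∧
      h i * c ^ k = z := by
    intro z a
    obtain ⟨i, k, hk, hz⟩ := hnf z
    have h2 := Int.emod_nonneg (i - a) hκ0.ne'
    have h3 := Int.emod_lt_of_pos (i - a) hκ0
    refine ⟨a + (i - a) % κ, k, by omega, by omega, hk, ?_⟩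
    rw [(hhinj (a + (i - a) % κ) i).2 ?_, hz]
    obtain ⟨w, hw⟩ : (κ : ℤ) ∣ (i - a) - (i - a) % κ := Int.dvd_self_sub_emod
    exact ⟨-w, by linear_combination -hw⟩
  have hne : ∀ i i' k k' : ℤ, (k = 0 ∨ k = 1) → (k' = 0 ∨ k' = 1) → |i - i'| < κ →
      h i * c ^ k = h i' * c ^ k' → i = i' ∧ k = k' := by
    intro i i' k k' hk hk' hi he
    have h2 : k = k' := by
      rcases hk with h1 | h1 <;> rcases hk' with h3 | h3
      · rw [h1, h3]
      · exfalso
        rw [h1, h3, zpow_zero, mul_one, zpow_one] at he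
        apply hcK
        have : c = (h i')⁻¹ * h i := by rw [he, inv_mul_cancel_left]
        rw [this]
        exact mul_mem (inv_mem (hhK _)) (hhK _)
      · exfalso
        rw [h1, h3, zpow_zero, mul_one, zpow_one] at he
        apply hcK
        have : c = (h i)⁻¹ * h i' := by rw [← he, inv_mul_cancel_left]
        rw [this]
        exact mul_mem (inv_mem (hhK _)) (hhK _)
      · rw [h1, h3]
    subst h2
    have h3 := hinj _ _ (mul_right_cancel he)
    have h4 := Int.eq_zero_of_abs_lt_dvd h3 hi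
    exact ⟨by omega, rfl⟩
  rcases Int.lt_or_le 0 j with hj1 | hj1
  · -- two squares and a ladder
    have h2 : HP gadj (rect (κ - 2) 2) (0, 0) (j - 2, 1) :=
      grid _ _ _ rfl (by omega) _ _ (by omega) (by omega) (by omega) (by omega) (by omega)
        (by omega) (by omega)
    have h3 : HP gadj {p : ℤ × ℤ | 2 ≤ p.1 ∧ p.1 < κ ∧ 0 ≤ p.2 ∧ p.2 < 2} (2, 0) (j, 1) := by
      refine h2.map (fun p => (p.1 + 2, p.2)) ?_ ?_ ?_ (by simp) (by simp)
      · rintro ⟨a, b⟩ - ⟨x, y⟩ - hab
        simp only [Prod.mk.injEq] at hab ⊢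
        omega
      · rintro ⟨a, b⟩ - ⟨x, y⟩ - hab
        unfold gadj at *
        simp only at *
        omega
      · rintro ⟨a, b⟩
        constructor
        · rintro ⟨h1, h2, h3, h4⟩
          simp only at h1 h2 h3 h4
          refine ⟨(a - 2, b), (mem_rect _ _ _ _).2 (by omega), ?_⟩
          simp
        · rintro ⟨⟨x, y⟩, hxy, he⟩
          simp only [Prod.mk.injEq] at he
          rw [mem_rect] at hxy
          refine ⟨?_, ?_, ?_, ?_⟩ <;> simp only <;> omega
    have h4 := ladder_emb hB hhK hstep hinj hc hcK h3 (by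
      rintro ⟨a, b⟩ ⟨e1, e2, e3, e4⟩ ⟨x, y⟩ ⟨e5, e6, e7, e8⟩
      simp only at *
      rw [abs_lt]
      omega) (by
      rintro ⟨a, b⟩ ⟨e1, e2, e3, e4⟩
      simp only at *
      omega)
    simp only [zpow_zero, mul_one, zpow_one] at h4
    rw [← hj] at h4
    set T : Set N := {z | ∃ x ∈ {p : ℤ × ℤ | 2 ≤ p.1 ∧ p.1 < κ ∧ 0 ≤ p.2 ∧ p.2 < 2},
      h x.1 * c ^ x.2 = z} with hT
    obtain ⟨l', hl'⟩ : ∃ l, HPL (cadj B) T (h 2) y l := h4
    have hnot : ∀ i k : ℤ, 0 ≤ i → i < 2 → (k = 0 ∨ k = 1) → h i * c ^ k ∉ T := by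
      rintro i k hi hi' hk ⟨⟨x1, x2⟩, ⟨e1, e2, e3, e4⟩, e5⟩
      simp only at e1 e2 e3 e4 e5
      have := hne x1 i x2 k (by omega) hk (by rw [abs_lt]; omega) e5
      omega
    have e0 : (1 : N) = h 0 * c ^ (0 : ℤ) := by rw [h0]; simp
    have e1 : c = h 0 * c ^ (1 : ℤ) := by rw [h0]; simp
    have e2 : h 1 * c = h 1 * c ^ (1 : ℤ) := by simp
    have e3 : h 1 = h 1 * c ^ (0 : ℤ) := by simp
    have c1 : HPL (cadj B) (insert (h 1) T) (h 1) y (h 1 :: l') :=
      hl'.cons (by rw [e3]; exact hnot 1 0 (by norm_num) (by norm_num) (Or.inl rfl)) (hstep 1)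
    have c2 : HPL (cadj B) (insert (h 1 * c) (insert (h 1) T)) (h 1 * c) y
        (h 1 * c :: h 1 :: l') := by
      refine c1.cons ?_ ?_
      · rintro (h5 | h5)
        · apply hcK
          rw [mul_eq_left.1 h5]
          exact one_mem K
        · rw [e2] at h5
          exact hnot 1 1 (by norm_num) (by norm_num) (Or.inr rfl) h5
      · show (h 1 * c)⁻¹ * h 1 ∈ B
        convert hB c hc using 1
        rw [mul_inv_rev, inv_mul_cancel_right]
    have c3 : HPL (cadj B) (insert c (insert (h 1 * c) (insert (h 1) T))) c y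
        (c :: h 1 * c :: h 1 :: l') := by
      refine c2.cons ?_ ?_
      · rintro (h5 | h5 | h5)
        · rw [e2] at h5
          nth_rw 1 [e1] at h5
          have := hne _ _ _ _ (Or.inr rfl) (Or.inr rfl) (by rw [abs_lt]; omega) h5
          omega
        · rw [e3] at h5
          nth_rw 1 [e1] at h5
          have := hne _ _ _ _ (Or.inr rfl) (Or.inl rfl) (by rw [abs_lt]; omega) h5
          omega
        · rw [e1] at h5
          exact hnot 0 1 (by norm_num) (by norm_num) (Or.inr rfl) h5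
      · show c⁻¹ * (h 1 * c) ∈ B
        have h5 := hstep 0
        rw [h0, inv_one, one_mul, zero_add] at h5
        convert h5 using 1
        rw [mul_comm (h 1), inv_mul_cancel_left]
    have c4 : HPL (cadj B) (insert 1 (insert c (insert (h 1 * c) (insert (h 1) T)))) 1 y
        (1 :: c :: h 1 * c :: h 1 :: l') := by
      refine c3.cons ?_ ?_
      · rintro (h5 | h5 | h5 | h5)
        · exact hcK (h5 ▸ one_mem K)
        · rw [e2, e0] at h5
          have := hne _ _ _ _ (Or.inl rfl) (Or.inr rfl) (by rw [abs_lt]; omega) h5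
          omega
        · rw [e3, e0] at h5
          have := hne _ _ _ _ (Or.inl rfl) (Or.inl rfl) (by rw [abs_lt]; omega) h5
          omega
        · rw [e0] at h5
          exact hnot 0 0 (by norm_num) (by norm_num) (Or.inl rfl) h5
      · show (1 : N)⁻¹ * c ∈ B
        rwa [inv_one, one_mul]
    have huniv : insert 1 (insert c (insert (h 1 * c) (insert (h 1) T))) = (Set.univ : Set N) := by
      rw [Set.eq_univ_iff_forall]
      intro z
      obtain ⟨i, k, hi1, hi2, hk, hz⟩ := hnf' z 0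
      rcases Int.lt_or_le i 2 with h5 | h5
      · have h6 : i = 0 ∨ i = 1 := by omega
        rcases h6 with h6 | h6 <;> rcases hk with h7 | h7
        · left; rw [← hz, h6, h7, h0]; simp
        · right; left; rw [← hz, h6, h7, h0]; simp
        · right; right; right; left; rw [← hz, h6, h7]; simp
        · right; right; left; rw [← hz, h6, h7]; simp
      · right; right; right; right
        exact ⟨(i, k), ⟨h5, by simp only; omega, by simp only; omega, by simp only; omega⟩, hz⟩
    rw [huniv] at c4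
    refine ⟨_, c4, 0, 2, by norm_num, ⟨by simp, ?_⟩, ⟨by simp, ?_⟩⟩
    · simpa [stp] using hcK
    · simpa [stp] using hcK
  · -- the end is `c`
    have hj0' : j = 0 := by omega
    have hyc : y = c := by rw [hj, hj0', h0, one_mul]
    have h2 : HP gadj (rect (κ - 3) 2) (0, 0) (κ - 4, 1) :=
      grid _ _ _ rfl (by omega) _ _ (by omega) (by omega) (by omega) (by omega) (by omega)
        (by omega) (by omega)
    have h3 : HP gadj {p : ℤ × ℤ | 1 - κ ≤ p.1 ∧ p.1 ≤ -3 ∧ 0 ≤ p.2 ∧ p.2 < 2} (-3, 0)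
        (1 - κ, 1) := by
      refine h2.map (fun p => (-3 - p.1, p.2)) ?_ ?_ ?_ (by simp) ?_
      · rintro ⟨a, b⟩ - ⟨x, y⟩ - hab
        simp only [Prod.mk.injEq] at hab ⊢
        omega
      · rintro ⟨a, b⟩ - ⟨x, y⟩ - hab
        unfold gadj at *
        simp only at *
        omega
      · rintro ⟨a, b⟩
        constructor
        · rintro ⟨h1, h2, h3, h4⟩
          simp only at h1 h2 h3 h4
          refine ⟨(-3 - a, b), (mem_rect _ _ _ _).2 (by omega), ?_⟩
          simp
        · rintro ⟨⟨x, y⟩, hxy, he⟩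
          simp only [Prod.mk.injEq] at he
          rw [mem_rect] at hxy
          refine ⟨?_, ?_, ?_, ?_⟩ <;> simp only <;> omega
      · refine Prod.ext ?_ rfl
        show (-3 : ℤ) - ((κ : ℤ) - 4) = 1 - κ
        ring
    have h4 := ladder_emb hB hhK hstep hinj hc hcK h3 (by
      rintro ⟨a, b⟩ ⟨e1, e2, e3, e4⟩ ⟨x, y⟩ ⟨e5, e6, e7, e8⟩
      simp only at *
      rw [abs_lt]
      omega) (by
      rintro ⟨a, b⟩ ⟨e1, e2, e3, e4⟩
      simp only at *
      omega)
    simp only [zpow_zero, mul_one, zpow_one] at h4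
    set T : Set N := {z | ∃ x ∈ {p : ℤ × ℤ | 1 - κ ≤ p.1 ∧ p.1 ≤ -3 ∧ 0 ≤ p.2 ∧ p.2 < 2},
      h x.1 * c ^ x.2 = z} with hT
    have hnot : ∀ i k : ℤ, -3 < i → i ≤ 0 → (k = 0 ∨ k = 1) → h i * c ^ k ∉ T := by
      rintro i k hi hi' hk ⟨⟨x1, x2⟩, ⟨e1, e2, e3, e4⟩, e5⟩
      simp only at e1 e2 e3 e4 e5
      have := hne x1 i x2 k (by omega) hk (by rw [abs_lt]; omega) e5
      omega
    have e0 : (1 : N) = h 0 * c ^ (0 : ℤ) := by rw [h0]; simp
    have e1 : c = h 0 * c ^ (1 : ℤ) := by rw [h0]; simp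
    have f0 : ∀ i, h i = h i * c ^ (0 : ℤ) := fun i => by simp
    have f1 : ∀ i, h i * c = h i * c ^ (1 : ℤ) := fun i => by simp
    have h5 : HP (cadj B) (T ∪ {c}) (h (-3)) c := by
      refine h4.append (HP.single _ c) ?_ ?_
      · show (h (1 - κ) * c)⁻¹ * c ∈ B
        have h6 : h (1 - κ) = h 1 := (hhinj _ _).2 ⟨-1, by ring⟩
        have h7 := hB _ (hstep 0)
        rw [h0, inv_one, one_mul, zero_add] at h7
        rw [h6]
        convert h7 using 1
        rw [mul_inv_rev, mul_comm c⁻¹, inv_mul_cancel_right]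
      · intro v hv hv'
        rw [Set.mem_singleton_iff] at hv'
        rw [hv', e1] at hv
        exact hnot 0 1 (by norm_num) le_rfl (Or.inr rfl) hv
    obtain ⟨l', hl'⟩ : ∃ l, HPL (cadj B) (T ∪ {c}) (h (-3)) c l := h5
    have hnot' : ∀ i k : ℤ, -3 < i → i < 0 → (k = 0 ∨ k = 1) → h i * c ^ k ∉ T ∪ {c} := by
      rintro i k hi hi' hk (h6 | h6)
      · exact hnot i k hi hi'.le hk h6
      · rw [Set.mem_singleton_iff] at h6
        nth_rw 2 [e1] at h6
        have := hne _ _ _ _ hk (Or.inr rfl) (by rw [abs_lt]; omega) h6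
        omega
    have c1 : HPL (cadj B) (insert (h (-2)) (T ∪ {c})) (h (-2)) c (h (-2) :: l') := by
      refine hl'.cons ?_ ?_
      · rw [f0 (-2)]
        exact hnot' (-2) 0 (by norm_num) (by norm_num) (Or.inl rfl)
      · show (h (-2))⁻¹ * h (-3) ∈ B
        have h6 := hB _ (hstep (-3))
        rwa [mul_inv_rev, inv_inv, show (-3 : ℤ) + 1 = -2 by norm_num] at h6
    have c2 : HPL (cadj B) (insert (h (-2) * c) (insert (h (-2)) (T ∪ {c}))) (h (-2) * c) c
        (h (-2) * c :: h (-2) :: l') := by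
      refine c1.cons ?_ ?_
      · rintro (h6 | h6)
        · apply hcK
          rw [mul_eq_left.1 h6]
          exact one_mem K
        · rw [f1 (-2)] at h6
          exact hnot' (-2) 1 (by norm_num) (by norm_num) (Or.inr rfl) h6
      · show (h (-2) * c)⁻¹ * h (-2) ∈ B
        convert hB c hc using 1
        rw [mul_inv_rev, inv_mul_cancel_right]
    have c3 : HPL (cadj B) (insert (h (-1) * c) (insert (h (-2) * c) (insert (h (-2)) (T ∪ {c}))))
        (h (-1) * c) c (h (-1) * c :: h (-2) * c :: h (-2) :: l') := by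
      refine c2.cons ?_ ?_
      · rintro (h6 | h6 | h6)
        · rw [f1 (-1), f1 (-2)] at h6
          have := hne _ _ _ _ (Or.inr rfl) (Or.inr rfl) (by rw [abs_lt]; omega) h6
          omega
        · rw [f1 (-1), f0 (-2)] at h6
          have := hne _ _ _ _ (Or.inr rfl) (Or.inl rfl) (by rw [abs_lt]; omega) h6
          omega
        · rw [f1 (-1)] at h6
          exact hnot' (-1) 1 (by norm_num) (by norm_num) (Or.inr rfl) h6
      · show (h (-1) * c)⁻¹ * (h (-2) * c) ∈ B
        have h6 := hB _ (hstep (-2))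
        rw [mul_inv_rev, inv_inv, show (-2 : ℤ) + 1 = -1 by norm_num] at h6
        convert h6 using 1
        rw [mul_inv_rev, mul_comm (h (-2)), mul_comm c⁻¹, mul_assoc, inv_mul_cancel_left]
    have c4 : HPL (cadj B) (insert (h (-1)) (insert (h (-1) * c) (insert (h (-2) * c)
        (insert (h (-2)) (T ∪ {c}))))) (h (-1)) c
        (h (-1) :: h (-1) * c :: h (-2) * c :: h (-2) :: l') := by
      refine c3.cons ?_ ?_
      · rintro (h6 | h6 | h6 | h6)
        · apply hcK
          rw [mul_eq_left.1 h6.symm]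
          exact one_mem K
        · rw [f0 (-1), f1 (-2)] at h6
          have := hne _ _ _ _ (Or.inl rfl) (Or.inr rfl) (by rw [abs_lt]; omega) h6
          omega
        · rw [f0 (-1), f0 (-2)] at h6
          have := hne _ _ _ _ (Or.inl rfl) (Or.inl rfl) (by rw [abs_lt]; omega) h6
          omega
        · rw [f0 (-1)] at h6
          exact hnot' (-1) 0 (by norm_num) (by norm_num) (Or.inl rfl) h6
      · show (h (-1))⁻¹ * (h (-1) * c) ∈ B
        rwa [inv_mul_cancel_left]
    have c5 : HPL (cadj B) (insert 1 (insert (h (-1)) (insert (h (-1) * c) (insert (h (-2) * c)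
        (insert (h (-2)) (T ∪ {c})))))) 1 c
        (1 :: h (-1) :: h (-1) * c :: h (-2) * c :: h (-2) :: l') := by
      refine c4.cons ?_ ?_
      · rintro (h6 | h6 | h6 | h6 | h6 | h6)
        · rw [f0 (-1), e0] at h6
          have := hne _ _ _ _ (Or.inl rfl) (Or.inl rfl) (by rw [abs_lt]; omega) h6
          omega
        · rw [f1 (-1), e0] at h6
          have := hne _ _ _ _ (Or.inl rfl) (Or.inr rfl) (by rw [abs_lt]; omega) h6
          omega
        · rw [f1 (-2), e0] at h6
          have := hne _ _ _ _ (Or.inl rfl) (Or.inr rfl) (by rw [abs_lt]; omega) h6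
          omega
        · rw [f0 (-2), e0] at h6
          have := hne _ _ _ _ (Or.inl rfl) (Or.inl rfl) (by rw [abs_lt]; omega) h6
          omega
        · rw [e0] at h6
          exact hnot 0 0 (by norm_num) le_rfl (Or.inl rfl) h6
        · rw [Set.mem_singleton_iff] at h6
          exact hcK (h6 ▸ one_mem K)
      · show (1 : N)⁻¹ * h (-1) ∈ B
        have h6 := hB _ (hstep (-1))
        rw [mul_inv_rev, inv_inv, show (-1 : ℤ) + 1 = 0 by norm_num, h0, inv_one, one_mul] at h6
        rwa [inv_one, one_mul]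
    have huniv : insert 1 (insert (h (-1)) (insert (h (-1) * c) (insert (h (-2) * c)
        (insert (h (-2)) (T ∪ {c}))))) = (Set.univ : Set N) := by
      rw [Set.eq_univ_iff_forall]
      intro z
      obtain ⟨i, k, hi1, hi2, hk, hz⟩ := hnf' z (1 - κ)
      rcases Int.lt_or_le (-3) i with h5 | h5
      · have h6 : i = 0 ∨ i = -1 ∨ i = -2 := by omega
        rcases h6 with h6 | h6 | h6 <;> rcases hk with h7 | h7
        · left; rw [← hz, h6, h7, h0]; simp
        · right; right; right; right; right; right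
          rw [← hz, h6, h7, h0]; simp
        · right; left; rw [← hz, h6, h7]; simp
        · right; right; left; rw [← hz, h6, h7]; simp
        · right; right; right; right; left; rw [← hz, h6, h7]; simp
        · right; right; right; left; rw [← hz, h6, h7]; simp
      · right; right; right; right; right; left
        exact ⟨(i, k), ⟨hi1, h5, by simp only; omega, by simp only; omega⟩, hz⟩
    rw [huniv] at c5
    rw [hyc]
    refine ⟨_, c5, 1, 3, by norm_num, ⟨by simp, ?_⟩, ⟨by simp, ?_⟩⟩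
    · simpa [stp] using hcK
    · simpa [stp] using hcK

end Pool.Agent.Helper43.CQ
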