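import Pool.Agent.Helper43.CQ.BaseOne

/-!
# Adding a generator
-/

set_option autoImplicit false

namespace Pool.Agent.Helper43.CQ

section

variable {G : Type*} [Group G] {B : Set G}

theorem Wd.congr {e f : ℤ} {x : G} (h : Wd B e x) (hef : e % 2 = f % 2) : Wd B f x := by
  obtain ⟨l, h1, h2, h3⟩ := h
  exact ⟨l, h1, h2, by rw [h3, hef]⟩

theorem Wd.mul {e f : ℤ} {x y : G} (h : Wd B e x) (h' : Wd B f y) : Wd B (e + f) (x * y) := by
  obtain ⟨l, h1, h2, h3⟩ := h
  obtain ⟨l', h4, h5, h6⟩ := h'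
  refine ⟨l ++ l', ?_, by rw [List.prod_append, h2, h5], ?_⟩
  · intro b hb
    rw [List.mem_append] at hb
    exact hb.elim (h1 b) (h4 b)
  · rw [List.length_append]
    push_cast
    omega

theorem Wd.inv (hB : ∀ b ∈ B, b⁻¹ ∈ B) {e : ℤ} {x : G} (h : Wd B e x) : Wd B e x⁻¹ := by
  obtain ⟨l, h1, h2, h3⟩ := h
  refine ⟨(l.map fun y => y⁻¹).reverse, ?_, by rw [← List.prod_inv_reverse, h2], ?_⟩
  · intro b hb
    rw [List.mem_reverse, List.mem_map] at hb
    obtain ⟨c, hc, rfl⟩ := hb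
    exact hB c (h1 c hc)
  · rw [List.length_reverse, List.length_map]
    exact h3

theorem Wd.one : Wd B 0 (1 : G) := ⟨[], by simp, rfl, by simp⟩

theorem Wd.of_mem {b : G} (hb : b ∈ B) : Wd B 1 b := ⟨[b], by simpa using hb, by simp, by simp⟩

theorem Wd.mem_closure {e : ℤ} {x : G} (h : Wd B e x) : x ∈ Subgroup.closure B := by
  obtain ⟨l, h1, h2, -⟩ := h
  rw [← h2]
  exact Subgroup.list_prod_mem _ fun b hb => Subgroup.subset_closure (h1 b hb)

theorem exists_wd (hB : ∀ b ∈ B, b⁻¹ ∈ B) {x : G} (hx : x ∈ Subgroup.closure B) :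
    Wd B 0 x ∨ Wd B 1 x := by
  obtain ⟨l, h1, h2⟩ := exists_list hB hx
  rcases Int.emod_two_eq_zero_or_one (l.length : ℤ) with h | h
  · exact Or.inl ⟨l, h1, h2, by rw [h]; rfl⟩
  · exact Or.inr ⟨l, h1, h2, by rw [h]; rfl⟩

theorem exists_wd' (hB : ∀ b ∈ B, b⁻¹ ∈ B) {x : G} (hx : x ∈ Subgroup.closure B) (e : ℤ)
    (he : ¬ Wd B e x) : Wd B (e + 1) x := by
  rcases exists_wd hB hx with h | h
  · rcases Int.emod_two_eq_zero_or_one e with h' | h'
    · exact absurd (h.congr (by omega)) he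
    · exact h.congr (by omega)
  · rcases Int.emod_two_eq_zero_or_one e with h' | h'
    · exact h.congr (by omega)
    · exact absurd (h.congr (by omega)) he

theorem Wd.zpow (hB : ∀ b ∈ B, b⁻¹ ∈ B) {e : ℤ} {x : G} (h : Wd B e x) (q : ℤ) :
    Wd B (e * q) (x ^ q) := by
  induction q using Int.induction_on with
  | zero => simpa using Wd.one
  | succ i ih =>
    rw [zpow_add_one, mul_add, mul_one]
    exact ih.mul h
  | pred i ih =>
    rw [zpow_sub_one, mul_sub, mul_one]
    exact (ih.mul (h.inv hB)).congr (by omega)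

/-- if `1` is not a product of an odd number of elements then parities are unique -/
theorem Wd.uniq (hB : ∀ b ∈ B, b⁻¹ ∈ B) (h1 : ¬ Wd B 1 (1 : G)) {e : ℤ} {x : G} (h : Wd B e x)
    (h' : Wd B (e + 1) x) : False := by
  apply h1
  have := h'.mul (h.inv hB)
  rw [mul_inv_cancel] at this
  exact this.congr (by omega)

theorem Wd.ne_one (h1 : ¬ Wd B 1 (1 : G)) {e : ℤ} {x : G} (h : Wd B e x)
    (he : e % 2 = 1) : x ≠ 1 := by
  rintro rfl
  exact h1 (h.congr (by omega))

end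

variable {N : Type*} [CommGroup N]

/-- some rows -/
def Rows (H : Subgroup N) (c g : N) (k : ℕ) : Set N := {z | ∃ h ∈ H, ∃ i < k, z = g * h * c ^ i}

theorem Rows_congr {H : Subgroup N} {c g w : N} (hw : w ∈ H) (k : ℕ) :
    Rows H c (g * w) k = Rows H c g k := by
  ext z
  constructor
  · rintro ⟨h, hh, i, hi, rfl⟩
    exact ⟨w * h, mul_mem hw hh, i, hi, by rw [mul_assoc g]⟩
  · rintro ⟨h, hh, i, hi, rfl⟩
    exact ⟨w⁻¹ * h, mul_mem (inv_mem hw) hh, i, hi, by rw [mul_assoc g w, mul_inv_cancel_left]⟩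

theorem Rows_succ {H : Subgroup N} {c g : N} (k : ℕ) (z : N) :
    z ∈ Rows H c g (k + 1) ↔ z ∈ Rows H c g 1 ∨ z ∈ Rows H c (g * c) k := by
  constructor
  · rintro ⟨h, hh, i, hi, rfl⟩
    rcases Nat.eq_zero_or_pos i with h0 | h0
    · left
      exact ⟨h, hh, i, by omega, rfl⟩
    · right
      refine ⟨h, hh, i - 1, by omega, ?_⟩
      obtain ⟨i', rfl⟩ : ∃ i', i = i' + 1 := ⟨i - 1, by omega⟩
      rw [Nat.add_sub_cancel, pow_succ]
      simp only [mul_assoc, mul_left_comm, mul_comm]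
  · rintro (⟨h, hh, i, hi, rfl⟩ | ⟨h, hh, i, hi, rfl⟩)
    · exact ⟨h, hh, i, by omega, rfl⟩
    · refine ⟨h, hh, i + 1, by omega, ?_⟩
      rw [pow_succ]
      simp only [mul_assoc, mul_left_comm, mul_comm]

theorem Rows_disj {H : Subgroup N} {c g : N} {m : ℕ} (hc : ∀ k : ℤ, c ^ k ∈ H → (m : ℤ) ∣ k)
    {k : ℕ} (hk : k < m) (z : N) (h1 : z ∈ Rows H c g 1) (h2 : z ∈ Rows H c (g * c) k) :
    False := by
  obtain ⟨h, hh, i, hi, rfl⟩ := h1
  obtain ⟨h', hh', i', hi', he⟩ := h2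
  have h0 : i = 0 := by omega
  subst h0
  have h3 : c ^ ((i' : ℤ) + 1) = h * h'⁻¹ := by
    rw [pow_zero, mul_one, mul_assoc, mul_assoc] at he
    have h4 := mul_left_cancel he
    rw [eq_mul_inv_iff_mul_eq, h4, zpow_add_one, zpow_natCast]
    simp only [mul_left_comm, mul_comm]
  have h5 := hc _ (by rw [h3]; exact mul_mem hh (inv_mem hh'))
  have h6 := Int.eq_zero_of_abs_lt_dvd h5 (by rw [abs_lt]; omega)
  omega

/-- `B'` is a good set, `B` is a larger set -/
structure Row (B' B : Set N) : Prop where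
  sub : B' ⊆ B
  inv : ∀ b ∈ B', b⁻¹ ∈ B'
  good : GoodSet B'
  two : ∀ h, Wd B' 0 h → ∃ w, w ≠ 1 ∧ w ≠ h ∧ Wd B' 1 w

/-- the translated path in a coset -/
theorem Row.path {B' B : Set N} (hR : Row B' B) (c u : N) {h : N} (h1 : h ≠ 1)
    (hw : Wd B' 1 h) : HP (cadj B') (Rows (Subgroup.closure B') c u 1) u (u * h) := by
  refine (hR.good h h1 hw).map (fun x => u * x) (fun a _ b _ hab => mul_left_cancel hab) ?_ ?_
    (mul_one u) rfl
  · intro a _ b _ hab
    show (u * a)⁻¹ * (u * b) ∈ B'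
    rw [mul_inv_rev, mul_assoc, inv_mul_cancel_left]
    exact hab
  · intro w
    constructor
    · rintro ⟨h, hh, i, hi, rfl⟩
      have h0 : i = 0 := by omega
      subst h0
      exact ⟨h, hh, by rw [pow_zero, mul_one]⟩
    · rintro ⟨v, hv, rfl⟩
      exact ⟨v, hv, 0, by omega, by rw [pow_zero, mul_one]⟩

theorem cadj_mono {B' B : Set N} (h : B' ⊆ B) {x y : N} (hxy : cadj B' x y) : cadj B x y :=
  h hxy

/-- rows appended to the first row -/
theorem Row.up {B' B : Set N} (hR : Row B' B) {c : N} (hcB : c ∈ B) (hcB' : c⁻¹ ∈ B) {m : ℕ}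
    (hc : ∀ k : ℤ, c ^ k ∈ Subgroup.closure B' → (m : ℤ) ∣ k) :
    ∀ k, 1 ≤ k → k ≤ m → ∀ u h : N, h ≠ 1 → Wd B' 1 h →
      HP (cadj B) (Rows (Subgroup.closure B') c u k) u (u * h) := by
  intro k
  induction k with
  | zero => intro h; omega
  | succ k ih =>
    intro _ hkm u h h1 hw
    have h2 := hR.path c u h1 hw
    rcases Nat.eq_zero_or_pos k with hk | hk
    · subst hk
      exact h2.mono fun a _ b _ hab => cadj_mono hR.sub hab
    obtain ⟨u', hu1, hu2, hu3, hu4⟩ := h2.first (by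
      intro hc
      apply h1
      rw [left_eq_mul] at hc
      exact hc)
    obtain ⟨b, hb, rfl⟩ : ∃ b ∈ B', u' = u * b := ⟨u⁻¹ * u', hu1, by rw [mul_inv_cancel_left]⟩
    have hb1 : b ≠ 1 := by
      rintro rfl
      exact hu3 (mul_one u)
    have h3 := ih hk (by omega) (u * c) b hb1 (Wd.of_mem hb)
    have h4 : HP (cadj B) (Rows (Subgroup.closure B') c (u * c) k ∪
        (Rows (Subgroup.closure B') c u 1 \ {u})) (u * c) (u * h) := by
      refine h3.append (hu4.mono fun a _ b _ hab => cadj_mono hR.sub hab) ?_ ?_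
      · show (u * c * b)⁻¹ * (u * b) ∈ B
        convert hcB' using 1
        rw [mul_right_comm, mul_inv_rev, mul_assoc, inv_mul_cancel, mul_one]
      · rintro v hv ⟨hv', -⟩
        exact Rows_disj hc (by omega) v hv' hv
    refine (HP.single (cadj B) u).append' h4 ?_ ?_ ?_
    · show u⁻¹ * (u * c) ∈ B
      rwa [inv_mul_cancel_left]
    · intro v hv hv'
      rw [Set.mem_singleton_iff] at hv
      subst hv
      rcases hv' with hv' | hv'
      · exact Rows_disj hc (by omega) v ⟨1, one_mem _, 0, by omega, by simp⟩ hv'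
      · exact hv'.2 rfl
    · intro v
      rw [Rows_succ]
      constructor
      · rintro (hv | hv)
        · by_cases hvu : v = u
          · exact Or.inl hvu
          · exact Or.inr (Or.inr ⟨hv, hvu⟩)
        · exact Or.inr (Or.inl hv)
      · rintro (hv | hv | hv)
        · rw [Set.mem_singleton_iff] at hv
          subst hv
          exact Or.inl ⟨1, one_mem _, 0, by omega, by simp⟩
        · exact Or.inr hv
        · exact Or.inl hv.1

/-- paths for elements of the right parity -/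
theorem Row.right {B' B : Set N} (hR : Row B' B) {c : N} (hcB : c ∈ B) (hcB' : c⁻¹ ∈ B) {m : ℕ}
    (hc : ∀ k : ℤ, c ^ k ∈ Subgroup.closure B' → (m : ℤ) ∣ k) :
    ∀ i k : ℕ, i < k → k ≤ m → ∀ u h : N, h * c ^ i ≠ 1 → Wd B' (i + 1) h →
      HP (cadj B) (Rows (Subgroup.closure B') c u k) u (u * (h * c ^ i)) := by
  intro i
  induction i with
  | zero =>
    intro k hk hkm u h h1 hw
    rw [pow_zero, mul_one] at h1 ⊢
    exact hR.up hcB hcB' hc k (by omega) hkm u h h1 (hw.congr (by norm_num))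
  | succ i ih =>
    intro k hk hkm u h h1 hw
    obtain ⟨k', rfl⟩ : ∃ k', k = k' + 1 := ⟨k - 1, by omega⟩
    obtain ⟨w, hw1, hw2, hw3⟩ : ∃ w, w ≠ 1 ∧ w⁻¹ * h * c ^ i ≠ 1 ∧ Wd B' 1 w := by
      rcases Nat.eq_zero_or_pos i with h0 | h0
      · subst h0
        obtain ⟨w, hw1, hw2, hw3⟩ := hR.two h (hw.congr (by norm_num))
        refine ⟨w, hw1, ?_, hw3⟩
        rw [pow_zero, mul_one]
        intro h2
        exact hw2 (inv_mul_eq_one.1 h2)
      · obtain ⟨w, hw1, hw2, hw3⟩ := hR.two 1 Wd.one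
        refine ⟨w, hw1, ?_, hw3⟩
        intro h2
        have h3 : c ^ (i : ℤ) ∈ Subgroup.closure B' := by
          rw [zpow_natCast, ← inv_eq_of_mul_eq_one_right h2]
          exact inv_mem (mul_mem (inv_mem hw3.mem_closure) hw.mem_closure)
        have h4 := Int.eq_zero_of_abs_lt_dvd (hc _ h3) (by rw [abs_lt]; omega)
        omega
    have h2 := (hR.path c u hw1 hw3).mono fun a _ b _ hab => cadj_mono hR.sub hab
    have h3 := ih k' (by omega) (by omega) (u * w * c) (w⁻¹ * h) hw2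
      (((hw3.inv hR.inv).mul hw).congr (by push_cast; omega))
    have h4 : u * w * c * (w⁻¹ * h * c ^ i) = u * (h * c ^ (i + 1)) := by
      rw [pow_succ]
      have : u * w * c * (w⁻¹ * h * c ^ i) = u * (h * (c ^ i * c)) * (w * w⁻¹) := by
        simp only [mul_assoc, mul_left_comm, mul_comm]
      rw [this, mul_inv_cancel, mul_one]
    rw [h4, mul_right_comm, Rows_congr hw3.mem_closure] at h3
    refine h2.append' h3 ?_ ?_ ?_
    · show (u * w)⁻¹ * (u * c * w) ∈ B
      convert hcB using 1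
      rw [mul_right_comm, inv_mul_cancel_left]
    · intro v hv hv'
      exact Rows_disj hc (by omega) v hv hv'
    · intro v
      rw [Rows_succ]

/-- paths for elements of `H` of the wrong parity -/
theorem Row.wrong {B' B : Set N} (hR : Row B' B) {c : N} (hcB : c ∈ B) (hcB' : c⁻¹ ∈ B) {m : ℕ}
    (hm : 2 ≤ m) (hc : ∀ k : ℤ, c ^ k ∈ Subgroup.closure B' → (m : ℤ) ∣ k)
    (hbip : ¬ Wd B' 1 (1 : N)) (hd : Wd B' (m + 1) (c ^ m)) {h : N} (h1 : h ≠ 1)
    (hw : Wd B' 0 h) : HP (cadj B) (Rows (Subgroup.closure B') c 1 m) 1 h := by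
  obtain ⟨w, hw1, hw2, hw3⟩ := hR.two h hw
  have h2 := hR.path c 1 hw1 hw3
  rw [one_mul] at h2
  have h3 : h ∈ Rows (Subgroup.closure B') c 1 1 :=
    ⟨h, hw.mem_closure, 0, by omega, by simp⟩
  obtain ⟨S₁, S₂, v, hS1, hS2, hvh, hdis, hun⟩ := h2.cut h3 h1
  have hv : Wd B' 1 v := by
    have h4 := hw.mul ((Wd.of_mem hvh).inv hR.inv)
    have h5 : h * (v⁻¹ * h)⁻¹ = v := by
      rw [mul_inv_rev, inv_inv, mul_comm h⁻¹, mul_comm, inv_mul_cancel_right]
    rw [h5] at h4
    exact h4.congr (by norm_num)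
  obtain ⟨m', rfl⟩ : ∃ m', m = m' + 2 := ⟨m - 2, by omega⟩
  set h' : N := v⁻¹ * w * (c ^ (m' + 2))⁻¹ with hh'
  have hpar : Wd B' (m' + 1) h' :=
    (((hv.inv hR.inv).mul hw3).mul (hd.inv hR.inv)).congr (by push_cast; omega)
  have hne : h' * c ^ m' ≠ 1 := by
    intro h5
    rcases Nat.eq_zero_or_pos m' with h0 | h0
    · subst h0
      rw [pow_zero, mul_one] at h5
      exact hpar.ne_one hbip (by norm_num) h5
    · have h6 : c ^ (m' : ℤ) ∈ Subgroup.closure B' := by
        rw [zpow_natCast, ← inv_eq_of_mul_eq_one_right h5]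
        exact inv_mem hpar.mem_closure
      have h7 := Int.eq_zero_of_abs_lt_dvd (hc _ h6) (by rw [abs_lt]; push_cast; omega)
      omega
  have h4 := hR.right hcB hcB' hc m' (m' + 1) (by omega) (by omega) (v * c) h' hne hpar
  have h5 : v * c * (h' * c ^ m') = w * c⁻¹ := by
    rw [hh']
    have h6 : (c ^ (m' + 2))⁻¹ = (c ^ m')⁻¹ * c⁻¹ * c⁻¹ := by
      rw [pow_add, mul_inv, pow_two, mul_inv, mul_assoc]
    rw [h6]
    have h7 : v * c * (v⁻¹ * w * ((c ^ m')⁻¹ * c⁻¹ * c⁻¹) * c ^ m') =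
        w * c⁻¹ * (v * v⁻¹) * (c * c⁻¹) * (c ^ m' * (c ^ m')⁻¹) := by
      simp only [mul_assoc, mul_left_comm, mul_comm]
    rw [h7, mul_inv_cancel, mul_inv_cancel, mul_inv_cancel, mul_one, mul_one, mul_one]
  rw [h5, mul_comm v c, Rows_congr hv.mem_closure] at h4
  have hS2' := (hS2.symm (cadj_symm hR.inv)).mono fun a _ b _ hab => cadj_mono hR.sub hab
  have hS1' := hS1.mono fun a _ b _ hab => cadj_mono hR.sub hab
  have h8 : HP (cadj B) (Rows (Subgroup.closure B') c c (m' + 1) ∪ S₂) (c * v) h := by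
    refine h4.append hS2' ?_ ?_
    · show (w * c⁻¹)⁻¹ * w ∈ B
      convert hcB using 1
      rw [mul_inv_rev, inv_inv, mul_assoc, inv_mul_cancel, mul_one]
    · intro x hx hx'
      refine Rows_disj (g := 1) hc (by omega : m' + 1 < m' + 2) x ((hun x).2 (Or.inr hx')) ?_
      rwa [one_mul]
  refine hS1'.append' h8 ?_ ?_ ?_
  · show v⁻¹ * (c * v) ∈ B
    convert hcB using 1
    rw [mul_comm c, inv_mul_cancel_left]
  · rintro x hx (hx' | hx')
    · refine Rows_disj (g := 1) hc (by omega : m' + 1 < m' + 2) x ((hun x).2 (Or.inl hx)) ?_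
      rwa [one_mul]
    · exact hdis x hx hx'
  · intro x
    rw [Rows_succ, hun, one_mul]
    constructor
    · rintro ((hx | hx) | hx)
      · exact Or.inl hx
      · exact Or.inr (Or.inr hx)
      · exact Or.inr (Or.inl hx)
    · rintro (hx | hx | hx)
      · exact Or.inl (Or.inl hx)
      · exact Or.inr hx
      · exact Or.inl (Or.inr hx)

theorem wd_union {B' : Set N} {c : N} : ∀ l : List N, (∀ x ∈ l, x ∈ B' ∪ {c, c⁻¹}) →
    ∃ (h : N) (e k : ℤ), Wd B' e h ∧ h * c ^ k = l.prod ∧ (e + k) % 2 = (l.length : ℤ) % 2 := by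
  intro l
  induction l with
  | nil => intro _; exact ⟨1, 0, 0, Wd.one, by simp, by simp⟩
  | cons x l ih =>
    intro hl
    obtain ⟨h, e, k, h1, h2, h3⟩ := ih fun y hy => hl y (List.mem_cons_of_mem _ hy)
    rw [List.prod_cons, List.length_cons, ← h2]
    push_cast
    rcases hl x (by simp) with h4 | h4 | h4
    · exact ⟨x * h, 1 + e, k, (Wd.of_mem h4).mul h1, by rw [mul_assoc], by omega⟩
    · refine ⟨h, e, k + 1, h1, ?_, by omega⟩
      rw [h4, zpow_add_one]
      simp only [mul_left_comm, mul_comm]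
    · refine ⟨h, e, k - 1, h1, ?_, by omega⟩
      rw [Set.mem_singleton_iff.1 h4, zpow_sub_one, ← mul_assoc, mul_comm]

theorem union_inv {B' : Set N} {c : N} (hB : ∀ b ∈ B', b⁻¹ ∈ B') :
    ∀ b ∈ B' ∪ {c, c⁻¹}, b⁻¹ ∈ B' ∪ {c, c⁻¹} := by
  rintro b (h | h | h)
  · exact Or.inl (hB b h)
  · exact Or.inr (Or.inr (by rw [h]; rfl))
  · exact Or.inr (Or.inl (by rw [Set.mem_singleton_iff.1 h, inv_inv]))

theorem Rows_full {B' : Set N} {c : N} (hB : ∀ b ∈ B', b⁻¹ ∈ B') {m : ℕ} (hm : 1 ≤ m)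
    (hcm : c ^ (m : ℤ) ∈ Subgroup.closure B') :
    (Subgroup.closure (B' ∪ {c, c⁻¹}) : Set N) = Rows (Subgroup.closure B') c 1 m := by
  have hm' : (0 : ℤ) < m := by omega
  ext z
  rw [SetLike.mem_coe]
  constructor
  · intro hz
    obtain ⟨l, hl, rfl⟩ := exists_list (union_inv hB) hz
    obtain ⟨h, e, k, h1, h2, -⟩ := wd_union l hl
    refine ⟨h * (c ^ (m : ℤ)) ^ (k / m), mul_mem h1.mem_closure (zpow_mem hcm _), (k % m).toNat,
      ?_, ?_⟩
    · have := Int.emod_lt_of_pos k hm'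
      have := Int.emod_nonneg k hm'.ne'
      omega
    · rw [← h2, one_mul, mul_assoc]
      congr 1
      rw [← zpow_natCast, Int.toNat_of_nonneg (Int.emod_nonneg k hm'.ne'), ← zpow_mul, ← zpow_add]
      congr 1
      rw [add_comm]
      exact (Int.emod_add_mul_ediv k m).symm
  · rintro ⟨h, hh, i, -, rfl⟩
    rw [one_mul]
    refine mul_mem (Subgroup.closure_mono Set.subset_union_left hh) (pow_mem ?_ _)
    exact Subgroup.subset_closure (Or.inr (Or.inl rfl))

/-- **Adding a generator.** -/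
theorem extend {B' : Set N} {c : N} (hB : ∀ b ∈ B', b⁻¹ ∈ B') (hgood : GoodSet B')
    (hne : B'.Nonempty) (hB1 : (1 : N) ∉ B') {m : ℕ} (hm : 2 ≤ m)
    (hc : ∀ k : ℤ, c ^ k ∈ Subgroup.closure B' → (m : ℤ) ∣ k)
    (hcm : c ^ (m : ℤ) ∈ Subgroup.closure B') : GoodSet (B' ∪ {c, c⁻¹}) := by
  have hm' : (0 : ℤ) < m := by omega
  -- enough elements
  have htwo : ∀ h, Wd B' 0 h → ∃ w, w ≠ 1 ∧ w ≠ h ∧ Wd B' 1 w := by
    intro h hh
    obtain ⟨b, hb⟩ := hne
    have hb1 : b ≠ 1 := by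
      rintro rfl
      exact hB1 hb
    by_cases hbh : b = h
    · subst hbh
      have h11 : Wd B' 1 (1 : N) := by
        have := hh.mul ((Wd.of_mem hb).inv hB)
        rw [mul_inv_cancel] at this
        exact this.congr (by norm_num)
      have hall : ∀ x ∈ Subgroup.closure B', Wd B' 1 x := by
        intro x hx
        rcases exists_wd hB hx with h | h
        · have := h.mul h11
          rw [mul_one] at this
          exact this.congr (by norm_num)
        · exact h
      by_contra hno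
      push Not at hno
      have h2 : ∀ x ∈ Subgroup.closure B', x = 1 ∨ x = b := by
        intro x hx
        by_contra h3
        push Not at h3
        exact hno x h3.1 h3.2 (hall x hx)
      have hbb : b * b = 1 := by
        rcases h2 (b * b) (mul_mem (Subgroup.subset_closure hb) (Subgroup.subset_closure hb)) with
          h3 | h3
        · exact h3
        · exact absurd (mul_eq_left.1 h3) hb1
      have h4 : ∀ l : List N, (∀ x ∈ l, x ∈ B') → l.prod = b ^ l.length := by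
        intro l
        induction l with
        | nil => intro _; simp
        | cons x l ih =>
          intro hl
          rw [List.prod_cons, List.length_cons, ih fun y hy => hl y (List.mem_cons_of_mem _ hy),
            pow_succ']
          congr 1
          rcases h2 x (Subgroup.subset_closure (hl x (by simp))) with h3 | h3
          · exact absurd (h3 ▸ hl x (by simp)) hB1
          · exact h3
      obtain ⟨l, hl1, hl2, hl3⟩ := hh
      rw [h4 l hl1] at hl2
      obtain ⟨k, hk⟩ : ∃ k, l.length = 2 * k := ⟨l.length / 2, by omega⟩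
      rw [hk, pow_mul, pow_two, hbb, one_pow] at hl2
      exact hb1 hl2.symm
    · exact ⟨b, hb1, hbh, Wd.of_mem hb⟩
  have hR : Row B' (B' ∪ {c, c⁻¹}) := ⟨Set.subset_union_left, hB, hgood, htwo⟩
  have hcB : c ∈ B' ∪ {c, c⁻¹} := Or.inr (Or.inl rfl)
  have hcB' : c⁻¹ ∈ B' ∪ {c, c⁻¹} := Or.inr (Or.inr rfl)
  rintro y hy1 ⟨l, hl, hly, hlen⟩
  obtain ⟨h, e, k, h1, h2, h3⟩ := wd_union l hl
  obtain ⟨r, q, hr, hkr⟩ : ∃ (r : ℕ) (q : ℤ), r < m ∧ k = r + m * q := by
    refine ⟨(k % m).toNat, k / m, ?_, ?_⟩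
    · have := Int.emod_lt_of_pos k hm'
      have := Int.emod_nonneg k hm'.ne'
      omega
    · rw [Int.toNat_of_nonneg (Int.emod_nonneg k hm'.ne')]
      exact (Int.emod_add_mul_ediv k m).symm
  set h0 : N := h * (c ^ (m : ℤ)) ^ q with hh0
  have hh0m : h0 ∈ Subgroup.closure B' := mul_mem h1.mem_closure (zpow_mem hcm _)
  have hyh : y = h0 * c ^ r := by
    rw [← hly, ← h2, hkr, hh0, zpow_add, zpow_mul, zpow_natCast, mul_assoc,
      mul_comm ((c ^ (m : ℤ)) ^ q)]
  rw [hyh] at hy1 ⊢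
  rw [Rows_full hB (by omega) hcm]
  by_cases hpar : Wd B' (r + 1) h0
  · have h4 := hR.right hcB hcB' hc r m hr le_rfl 1 h0 hy1 hpar
    rwa [one_mul] at h4
  -- the wrong parity
  have hbip : ¬ Wd B' 1 (1 : N) := by
    intro h4
    have h5 := exists_wd' hB hh0m _ hpar
    have h6 := h5.mul h4
    rw [mul_one] at h6
    exact hpar (h6.congr (by omega))
  have hpar0 : Wd B' r h0 := (exists_wd' hB hh0m _ hpar).congr (by omega)
  have hd : Wd B' (m + 1) (c ^ (m : ℤ)) := by
    by_contra hno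
    have h4 : Wd B' m (c ^ (m : ℤ)) := (exists_wd' hB hcm _ hno).congr (by omega)
    have h5 : Wd B' (e + m * q) h0 := h1.mul (h4.zpow hB q)
    refine Wd.uniq hB hbip hpar0 (h5.congr ?_)
    have h6 : (e + k) % 2 = 1 := by omega
    rw [hkr] at h6
    omega
  have hd' : Wd B' (m + 1) (c ^ m) := by rwa [zpow_natCast] at hd
  rcases Nat.eq_zero_or_pos r with hr0 | hr0
  · subst hr0
    rw [pow_zero, mul_one] at hy1 ⊢
    exact hR.wrong hcB hcB' hm hc hbip hd' hy1 (hpar0.congr (by norm_num))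
  · -- the other direction
    have hc' : ∀ k : ℤ, c⁻¹ ^ k ∈ Subgroup.closure B' → (m : ℤ) ∣ k := by
      intro k hk
      rw [inv_zpow, inv_mem_iff] at hk
      exact hc k hk
    have hcm' : c⁻¹ ^ (m : ℤ) ∈ Subgroup.closure B' := by
      rw [inv_zpow]
      exact inv_mem hcm
    have h4 : h0 * c ^ r = h0 * c ^ m * c⁻¹ ^ (m - r) := by
      obtain ⟨r', hr'⟩ : ∃ r', m = r + r' := ⟨m - r, by omega⟩
      rw [hr', Nat.add_sub_cancel_left, pow_add, inv_pow, ← mul_assoc h0,
        mul_inv_cancel_right]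
    have h5 : Rows (Subgroup.closure B') c 1 m = Rows (Subgroup.closure B') c⁻¹ 1 m := by
      rw [← Rows_full hB (by omega) hcm, ← Rows_full hB (by omega) hcm', inv_inv, Set.pair_comm]
    rw [h4] at hy1 ⊢
    rw [h5]
    have h6 := hR.right (c := c⁻¹) (m := m) hcB' (by rwa [inv_inv]) hc' (m - r) m (by omega)
      le_rfl 1 (h0 * c ^ m) hy1 ((hpar0.mul hd').congr (by push_cast [Nat.cast_sub hr.le]; omega))
    rwa [one_mul] at h6

end Pool.Agent.Helper43.CQ
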