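import Pool.Agent.Helper43.CQ.HP

/-!
# Hamiltonian paths of rectangular grids from a corner
-/

set_option autoImplicit false

namespace Pool.Agent.Helper43.CQ

/-- adjacency in the grid -/
def gadj (p q : ℤ × ℤ) : Prop :=
  (p.1 = q.1 ∧ (q.2 = p.2 + 1 ∨ p.2 = q.2 + 1)) ∨ (p.2 = q.2 ∧ (q.1 = p.1 + 1 ∨ p.1 = q.1 + 1))

theorem gadj_symm (p q : ℤ × ℤ) (h : gadj p q) : gadj q p := by
  unfold gadj at *
  omega

/-- the grid with `W` columns and `h` rows -/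
def rect (W h : ℕ) : Set (ℤ × ℤ) := {p | 0 ≤ p.1 ∧ p.1 < W ∧ 0 ≤ p.2 ∧ p.2 < h}

theorem mem_rect (W h : ℕ) (a b : ℤ) : ((a, b) : ℤ × ℤ) ∈ rect W h ↔
    0 ≤ a ∧ a < W ∧ 0 ≤ b ∧ b < h := Iff.rfl

theorem transpose {W h : ℕ} {tx ty : ℤ} (H : HP gadj (rect W h) (0, 0) (tx, ty)) :
    HP gadj (rect h W) (0, 0) (ty, tx) := by
  refine H.map Prod.swap ?_ ?_ ?_ rfl rfl
  · rintro ⟨a, b⟩ - ⟨c, d⟩ - hab
    simp only [Prod.swap_prod_mk, Prod.mk.injEq] at hab ⊢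
    exact ⟨hab.2, hab.1⟩
  · rintro ⟨a, b⟩ - ⟨c, d⟩ - hab
    simp only [Prod.swap_prod_mk]
    unfold gadj at *
    simp only at *
    omega
  · rintro ⟨a, b⟩
    constructor
    · intro hab
      rw [mem_rect] at hab
      exact ⟨(b, a), (mem_rect _ _ _ _).2 (by omega), rfl⟩
    · rintro ⟨⟨c, d⟩, hcd, he⟩
      simp only [Prod.swap_prod_mk, Prod.mk.injEq] at he
      rw [mem_rect] at hcd ⊢
      omega

theorem column (h : ℕ) (hh : 1 ≤ h) (a : ℤ) :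
    HP gadj {p : ℤ × ℤ | p.1 = a ∧ 0 ≤ p.2 ∧ p.2 < h} (a, 0) (a, h - 1) := by
  refine HP.seq (fun i : ℕ => ((a, (i : ℤ)) : ℤ × ℤ)) (h - 1) ?_ ?_ ?_ rfl ?_
  · intro i j hi hj hij
    simpa using hij
  · intro i hi
    exact Or.inl ⟨rfl, Or.inl (by push_cast; ring)⟩
  · rintro ⟨x, y⟩
    constructor
    · rintro ⟨hx, hy, hy'⟩
      simp only at hx hy hy'
      refine ⟨y.toNat, by omega, ?_⟩
      simp only [Prod.mk.injEq]
      omega
    · rintro ⟨i, hi, he⟩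
      simp only [Prod.mk.injEq] at he
      refine ⟨he.1.symm, ?_, ?_⟩ <;> simp only <;> omega
  · simp only [Prod.mk.injEq, true_and]
    omega

theorem colpeel {W h : ℕ} (hW : 2 ≤ W) (hh : 1 ≤ h) {tx ty : ℤ}
    (H : HP gadj (rect (W - 1) h) (0, 0) (tx - 1, h - 1 - ty)) :
    HP gadj (rect W h) (0, 0) (tx, ty) := by
  have H' : HP gadj {p : ℤ × ℤ | 1 ≤ p.1 ∧ p.1 < W ∧ 0 ≤ p.2 ∧ p.2 < h} (1, (h : ℤ) - 1)
      (tx, ty) := by
    refine H.map (fun p => (p.1 + 1, h - 1 - p.2)) ?_ ?_ ?_ ?_ ?_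
    · rintro ⟨a, b⟩ - ⟨c, d⟩ - hab
      simp only [Prod.mk.injEq] at hab ⊢
      omega
    · rintro ⟨a, b⟩ - ⟨c, d⟩ - hab
      unfold gadj at *
      simp only at *
      omega
    · rintro ⟨a, b⟩
      constructor
      · rintro ⟨h1, h2, h3, h4⟩
        simp only at h1 h2 h3 h4
        refine ⟨(a - 1, h - 1 - b), (mem_rect _ _ _ _).2 (by omega), ?_⟩
        simp only [Prod.mk.injEq]
        omega
      · rintro ⟨⟨c, d⟩, hcd, he⟩
        simp only [Prod.mk.injEq] at he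
        rw [mem_rect] at hcd
        refine ⟨?_, ?_, ?_, ?_⟩ <;> simp only <;> omega
    · simp only [Prod.mk.injEq]
      omega
    · simp only [Prod.mk.injEq]
      omega
  refine (column h hh 0).append' H' ?_ ?_ ?_
  · exact Or.inr ⟨rfl, Or.inl (by norm_num)⟩
  · rintro ⟨a, b⟩ ⟨h1, -⟩ ⟨h2, -⟩
    simp only at h1 h2
    omega
  · rintro ⟨a, b⟩
    rw [mem_rect]
    constructor
    · intro h1
      rcases Int.lt_or_le 0 a with h2 | h2
      · right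
        refine ⟨?_, ?_, ?_, ?_⟩ <;> simp only <;> omega
      · left
        refine ⟨?_, ?_, ?_⟩ <;> simp only <;> omega
    · rintro (⟨h1, h2, h3⟩ | ⟨h1, h2, h3, h4⟩) <;> simp only at * <;> omega

theorem rowpeel {W h : ℕ} (hW : 1 ≤ W) (hh : 2 ≤ h) {tx ty : ℤ}
    (H : HP gadj (rect W (h - 1)) (0, 0) (W - 1 - tx, ty - 1)) :
    HP gadj (rect W h) (0, 0) (tx, ty) :=
  transpose (colpeel hh hW (transpose H))

theorem uturn {h : ℕ} (hh : 1 ≤ h) : HP gadj (rect 2 h) (0, 0) (1, 0) := by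
  refine colpeel (by norm_num) hh ?_
  have h1 := column h hh 0
  have h2 : {p : ℤ × ℤ | p.1 = 0 ∧ 0 ≤ p.2 ∧ p.2 < h} = rect (2 - 1) h := by
    ext ⟨a, b⟩
    rw [mem_rect]
    constructor
    · rintro ⟨h1, h2, h3⟩
      simp only at h1 h2 h3
      omega
    · intro h1
      refine ⟨?_, ?_, ?_⟩ <;> simp only <;> omega
  rw [h2] at h1
  have h3 : ((1 - 1 : ℤ), (h : ℤ) - 1 - 0) = (0, (h : ℤ) - 1) := by
    simp
  rw [h3]
  exact h1

/-- **Hamiltonian paths of grids from a corner.** -/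
theorem grid : ∀ (k W h : ℕ), W + h = k → ((2 ≤ W ∧ 2 ≤ h) ∨ (1 ≤ W ∧ h = 2) ∨ (W = 2 ∧ 1 ≤ h)) →
    ∀ tx ty : ℤ, 0 ≤ tx → tx < W → 0 ≤ ty → ty < h → 1 ≤ tx + ty →
    (W % 2 = 1 → h % 2 = 1 → (tx + ty) % 2 = 0) →
    (W % 2 = 0 ∨ h % 2 = 0 → (tx + ty) % 2 = 1) →
    HP gadj (rect W h) (0, 0) (tx, ty) := by
  intro k
  induction k using Nat.strong_induction_on with
  | _ k ih =>
    intro W h hk hWh tx ty h1 h2 h3 h4 h5 h6 h7
    by_cases hc : 1 ≤ tx ∧ 2 ≤ W ∧ ((2 ≤ W - 1 ∧ 2 ≤ h) ∨ (1 ≤ W - 1 ∧ h = 2)) ∧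
        ¬ (tx = 1 ∧ ty = h - 1)
    · refine colpeel hc.2.1 (by omega) ?_
      exact ih (W - 1 + h) (by omega) (W - 1) h rfl (by omega) (tx - 1) (h - 1 - ty) (by omega)
        (by omega) (by omega) (by omega) (by omega) (by omega) (by omega)
    by_cases hr : 1 ≤ ty ∧ 2 ≤ h ∧ ((2 ≤ W ∧ 2 ≤ h - 1) ∨ (W = 2 ∧ 1 ≤ h - 1)) ∧
        ¬ (ty = 1 ∧ tx = W - 1)
    · refine rowpeel (by omega) hr.2.1 ?_
      exact ih (W + (h - 1)) (by omega) W (h - 1) rfl (by omega) (W - 1 - tx) (ty - 1) (by omega)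
        (by omega) (by omega) (by omega) (by omega) (by omega) (by omega)
    rcases Int.lt_or_le 0 tx with h8 | h8
    · have h9 : W = 2 := by omega
      have h10 : tx = 1 := by omega
      have h11 : ty = 0 := by omega
      subst h9
      rw [h10, h11]
      exact uturn (by omega)
    · have h9 : h = 2 := by omega
      have h10 : tx = 0 := by omega
      have h11 : ty = 1 := by omega
      subst h9
      rw [h10, h11]
      exact transpose (uturn (by omega))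

end Pool.Agent.Helper43.CQ
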