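import Mathlib

/-!
# Hamiltonian paths of sets of vertices
-/

set_option autoImplicit false

namespace Pool.Agent.Helper43.CQ

variable {V W : Type*}

/-- a Hamiltonian path of the set `S` from `x` to `y` for the relation `r` -/
def HP (r : V → V → Prop) (S : Set V) (x y : V) : Prop :=
  ∃ l : List V, l.Nodup ∧ (∀ v, v ∈ l ↔ v ∈ S) ∧ l.IsChain r ∧ l.head? = some x ∧
    l.getLast? = some y

theorem HP.single (r : V → V → Prop) (x : V) : HP r {x} x x :=
  ⟨[x], by simp, by simp, by simp, by simp, by simp⟩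

theorem HP.left_mem {r : V → V → Prop} {S : Set V} {x y : V} (h : HP r S x y) : x ∈ S := by
  obtain ⟨l, -, h2, -, h4, -⟩ := h
  exact (h2 x).1 (List.mem_of_mem_head? (by rw [h4]; rfl))

theorem HP.right_mem {r : V → V → Prop} {S : Set V} {x y : V} (h : HP r S x y) : y ∈ S := by
  obtain ⟨l, -, h2, -, -, h5⟩ := h
  exact (h2 y).1 (List.mem_of_mem_getLast? (by rw [h5]; rfl))

theorem HP.append {r : V → V → Prop} {S T : Set V} {x y z w : V} (h : HP r S x y)
    (h' : HP r T z w) (hr : r y z) (hd : ∀ v, v ∈ S → v ∉ T) : HP r (S ∪ T) x w := by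
  obtain ⟨l, h1, h2, h3, h4, h5⟩ := h
  obtain ⟨l', h1', h2', h3', h4', h5'⟩ := h'
  refine ⟨l ++ l', ?_, ?_, ?_, ?_, ?_⟩
  · rw [List.nodup_append]
    refine ⟨h1, h1', fun a ha b hb hab => ?_⟩
    subst hab
    exact hd a ((h2 a).1 ha) ((h2' a).1 hb)
  · intro v
    rw [List.mem_append, h2, h2']
    rfl
  · rw [List.isChain_append]
    refine ⟨h3, h3', fun a ha b hb => ?_⟩
    rw [h5] at ha
    rw [h4'] at hb
    cases ha
    cases hb
    exact hr
  · rw [List.head?_append, h4]
    rfl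
  · rw [List.getLast?_append, h5']
    rfl

theorem HP.append' {r : V → V → Prop} {S T U : Set V} {x y z w : V} (h : HP r S x y)
    (h' : HP r T z w) (hr : r y z) (hd : ∀ v, v ∈ S → v ∉ T) (hU : ∀ v, v ∈ U ↔ v ∈ S ∨ v ∈ T) :
    HP r U x w := by
  have : U = S ∪ T := by
    ext v
    exact hU v
  rw [this]
  exact h.append h' hr hd

theorem HP.symm {r : V → V → Prop} (hr : ∀ a b, r a b → r b a) {S : Set V} {x y : V}
    (h : HP r S x y) : HP r S y x := by
  obtain ⟨l, h1, h2, h3, h4, h5⟩ := h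
  refine ⟨l.reverse, List.nodup_reverse.2 h1, fun v => by rw [List.mem_reverse, h2], ?_, ?_, ?_⟩
  · rw [List.isChain_reverse]
    exact h3.imp fun a b => hr a b
  · rw [List.head?_reverse, h5]
  · rw [List.getLast?_reverse, h4]

theorem chain_mem {r s : V → V → Prop} {l : List V} (h : l.IsChain r)
    (hs : ∀ a ∈ l, ∀ b ∈ l, r a b → s a b) : l.IsChain s := by
  induction l with
  | nil => simp
  | cons a l ih =>
    cases l with
    | nil => simp
    | cons b l =>
      rw [List.isChain_cons_cons] at h ⊢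
      refine ⟨hs a (by simp) b (by simp) h.1, ih h.2 fun c hc d hd => ?_⟩
      exact hs c (List.mem_cons_of_mem _ hc) d (List.mem_cons_of_mem _ hd)

/-- the image of a Hamiltonian path -/
theorem HP.map {r : V → V → Prop} {s : W → W → Prop} {S : Set V} {x y : V} (h : HP r S x y)
    (f : V → W) (hf : ∀ a ∈ S, ∀ b ∈ S, f a = f b → a = b)
    (hs : ∀ a ∈ S, ∀ b ∈ S, r a b → s (f a) (f b)) {T : Set W} {x' y' : W}
    (hT : ∀ w, w ∈ T ↔ ∃ v ∈ S, f v = w) (hx : f x = x') (hy : f y = y') : HP s T x' y' := by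
  obtain ⟨l, h1, h2, h3, h4, h5⟩ := h
  refine ⟨l.map f, ?_, ?_, ?_, ?_, ?_⟩
  · exact List.Nodup.map_on (fun a ha b hb => hf a ((h2 a).1 ha) b ((h2 b).1 hb)) h1
  · intro w
    rw [hT, List.mem_map]
    constructor
    · rintro ⟨a, ha, rfl⟩
      exact ⟨a, (h2 a).1 ha, rfl⟩
    · rintro ⟨a, ha, rfl⟩
      exact ⟨a, (h2 a).2 ha, rfl⟩
  · rw [List.isChain_map]
    exact chain_mem h3 fun a ha b hb => hs a ((h2 a).1 ha) b ((h2 b).1 hb)
  · rw [List.head?_map, h4, ← hx]
    rfl
  · rw [List.getLast?_map, h5, ← hy]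
    rfl

theorem HP.mono {r s : V → V → Prop} {S : Set V} {x y : V} (h : HP r S x y)
    (hs : ∀ a ∈ S, ∀ b ∈ S, r a b → s a b) : HP s S x y :=
  h.map id (fun _ _ _ _ hab => hab) hs (by simp) rfl rfl

/-- the first step of a Hamiltonian path -/
theorem HP.first {r : V → V → Prop} {S : Set V} {x y : V} (h : HP r S x y) (hxy : x ≠ y) :
    ∃ u, r x u ∧ u ∈ S ∧ u ≠ x ∧ HP r (S \ {x}) u y := by
  obtain ⟨l, h1, h2, h3, h4, h5⟩ := h
  cases l with
  | nil => simp at h4
  | cons a l =>
    cases l with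
    | nil =>
      simp at h4 h5
      exact absurd (h4.symm.trans h5) hxy
    | cons b l =>
      simp only [List.head?_cons, Option.some.injEq] at h4
      subst h4
      rw [List.isChain_cons_cons] at h3
      rw [List.nodup_cons] at h1
      refine ⟨b, h3.1, (h2 b).1 (by simp), ?_, b :: l, h1.2, ?_, h3.2, rfl, ?_⟩
      · rintro rfl
        exact h1.1 (by simp)
      · intro v
        constructor
        · intro hv
          refine ⟨(h2 v).1 (List.mem_cons_of_mem _ hv), ?_⟩
          rintro rfl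
          exact h1.1 hv
        · rintro ⟨hv, hva⟩
          have := (h2 v).2 hv
          rw [List.mem_cons] at this
          exact this.resolve_left hva
      · rw [← h5]
        rfl

/-- cutting a Hamiltonian path before an inner vertex -/
theorem HP.cut {r : V → V → Prop} {S : Set V} {x y z : V} (h : HP r S x y) (hz : z ∈ S)
    (hzx : z ≠ x) : ∃ S₁ S₂ u, HP r S₁ x u ∧ HP r S₂ z y ∧ r u z ∧ (∀ v, v ∈ S₁ → v ∉ S₂) ∧
      (∀ v, v ∈ S ↔ v ∈ S₁ ∨ v ∈ S₂) := by
  obtain ⟨l, h1, h2, h3, h4, h5⟩ := h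
  obtain ⟨l₁, l₂, rfl⟩ := List.append_of_mem ((h2 z).2 hz)
  rw [List.isChain_append] at h3
  rw [List.nodup_append] at h1
  have hne : l₁ ≠ [] := by
    rintro rfl
    simp at h4
    exact hzx h4
  obtain ⟨u, hu⟩ : ∃ u, l₁.getLast? = some u := by
    rw [← Option.isSome_iff_exists, List.getLast?_isSome]
    exact hne
  refine ⟨{v | v ∈ l₁}, {v | v ∈ z :: l₂}, u, ⟨l₁, h1.1, fun v => Iff.rfl, h3.1, ?_, hu⟩,
    ⟨z :: l₂, h1.2.1, fun v => Iff.rfl, h3.2.1, rfl, ?_⟩, ?_, ?_, ?_⟩
  · rw [List.head?_append] at h4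
    cases l₁ with
    | nil => exact absurd rfl hne
    | cons a l => simpa using h4
  · rw [List.getLast?_append] at h5
    rw [← h5]
    cases hh : (z :: l₂).getLast? with
    | none => simp at hh
    | some w => rfl
  · exact h3.2.2 u (by rw [hu]; rfl) z rfl
  · intro v hv hv'
    exact h1.2.2 v hv v hv' rfl
  · intro v
    rw [← h2, List.mem_append]
    rfl

/-- a straight path -/
theorem HP.seq {r : V → V → Prop} (f : ℕ → V) (n : ℕ)
    (hf : ∀ i j, i ≤ n → j ≤ n → f i = f j → i = j) (hr : ∀ i, i < n → r (f i) (f (i + 1)))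
    {S : Set V} {x y : V} (hS : ∀ v, v ∈ S ↔ ∃ i, i ≤ n ∧ f i = v) (hx : f 0 = x)
    (hy : f n = y) : HP r S x y := by
  have key : ∀ m, m ≤ n → HP r {v | ∃ i, i ≤ m ∧ f i = v} (f 0) (f m) := by
    intro m
    induction m with
    | zero =>
      intro _
      have : {v | ∃ i, i ≤ 0 ∧ f i = v} = {f 0} := by
        ext v
        simp [eq_comm]
      rw [this]
      exact HP.single r _
    | succ m ih =>
      intro hm
      refine (ih (by omega)).append' (HP.single r (f (m + 1))) (hr m (by omega)) ?_ ?_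
      · rintro v ⟨i, hi, rfl⟩ hv
        have := hf i (m + 1) (by omega) hm hv
        omega
      · intro v
        constructor
        · rintro ⟨i, hi, rfl⟩
          rcases Nat.lt_or_ge i (m + 1) with h | h
          · exact Or.inl ⟨i, by omega, rfl⟩
          · right
            have : i = m + 1 := by omega
            rw [this]
            rfl
        · rintro (⟨i, hi, rfl⟩ | h)
          · exact ⟨i, by omega, rfl⟩
          · exact ⟨m + 1, le_rfl, Eq.symm h⟩
  have h1 := key n le_rfl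
  have h2 : S = {v | ∃ i, i ≤ n ∧ f i = v} := by
    ext v
    exact hS v
  rw [h2, ← hx, ← hy]
  exact h1

end Pool.Agent.Helper43.CQ
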