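import Pool.Graph.R_pool_sql_team_seeded_3997aac3.Q112.CH.Ham

/-!
# Merging fibres at prescribed edges

The fibres of `G → G ⧸ N` are merged along a spanning tree of maximum degree three of the Cayley
graph of `G ⧸ N`, whose root is a leaf. For a generator `a` only the edges with labels in a set
`L a` may be used.
-/

set_option autoImplicit false

namespace Pool.Agent.Helper43.CQ

open Finset SimpleGraph Equiv
open Pool.Agent.Q112.CH Q238.RS

variable {G : Type*} [Group G]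

/-- a Hamiltonian path of `N` from `1` to `y` with steps in `B` that contains two different edges
with labels in `L₁` and in `L₂` -/
def HPathTwo (B L₁ L₂ : Set G) (N : Subgroup G) (y : G) : Prop :=
  ∃ k : Perm G, k.IsCycleOn (N : Set G) ∧ (∀ z, z ∉ N → k z = z) ∧ k y = 1 ∧
    (∀ z ∈ N, z ≠ y → z⁻¹ * k z ∈ B) ∧ ∃ z₁ ∈ N, ∃ z₂ ∈ N, z₁ ≠ z₂ ∧ z₁ ≠ y ∧ z₂ ≠ y ∧
      z₁⁻¹ * k z₁ ∈ L₁ ∧ z₂⁻¹ * k z₂ ∈ L₂

/-- a Hamiltonian cycle of `N` with steps in `B` that contains an edge with label in `L₁` -/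
def HCycleOne (B L₁ : Set G) (N : Subgroup G) : Prop :=
  ∃ k : Perm G, k.IsCycleOn (N : Set G) ∧ (∀ z, z ∉ N → k z = z) ∧
    (∀ z ∈ N, z⁻¹ * k z ∈ B) ∧ ∃ z₁ ∈ N, z₁⁻¹ * k z₁ ∈ L₁

theorem mulLeft_ap (g : G) (k : Perm G) (z : G) :
    (Equiv.mulLeft g * k * (Equiv.mulLeft g)⁻¹) z = g * k (g⁻¹ * z) := by
  rw [Perm.mul_apply, Perm.mul_apply]
  rfl

/-- translation to a coset -/
theorem coset_perm {N : Subgroup G} {k : Perm G} (hk : k.IsCycleOn (N : Set G))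
    (hfix : ∀ z, z ∉ N → k z = z) (g : G) :
    ∃ k' : Perm G, k'.IsCycleOn {z | g⁻¹ * z ∈ N} ∧ (∀ z, g⁻¹ * z ∉ N → k' z = z) ∧
      ∀ z, k' z = g * k (g⁻¹ * z) := by
  refine ⟨Equiv.mulLeft g * k * (Equiv.mulLeft g)⁻¹, ?_, ?_, mulLeft_ap g k⟩
  · have h1 := hk.conj (g := Equiv.mulLeft g)
    have h2 : (Equiv.mulLeft g) '' (N : Set G) = {z | g⁻¹ * z ∈ N} := by
      ext z
      constructor
      · rintro ⟨a, ha, rfl⟩
        show g⁻¹ * (g * a) ∈ N
        rwa [inv_mul_cancel_left]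
      · intro hz
        exact ⟨g⁻¹ * z, hz, mul_inv_cancel_left g z⟩
    rw [← h2]
    exact h1
  · intro z hz
    rw [mulLeft_ap, hfix _ hz, mul_inv_cancel_left]

/-- the state of the merging process -/
structure St2 (A : Set G) (N : Subgroup G) [N.Normal] (T : SimpleGraph (G ⧸ N)) (L : G → Set G)
    (S : Set (G ⧸ N)) (f : Perm G) (pl : (G ⧸ N) → (G ⧸ N) → G) : Prop where
  cyc : f.IsCycleOn {x | (QuotientGroup.mk x : G ⧸ N) ∈ S}
  fix : ∀ x, (QuotientGroup.mk x : G ⧸ N) ∉ S → f x = x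
  adj : ∀ x, (QuotientGroup.mk x : G ⧸ N) ∈ S → x⁻¹ * f x ∈ A
  place : ∀ F ∈ S, ∀ F', F' ∉ S → T.Adj F F' → (QuotientGroup.mk (pl F F') : G ⧸ N) = F ∧
    ∃ a ∈ A, F' = F * QuotientGroup.mk a ∧ (pl F F')⁻¹ * f (pl F F') ∈ L a
  inj : ∀ F ∈ S, ∀ F', F' ∉ S → ∀ F'', F'' ∉ S → T.Adj F F' → T.Adj F F'' →
    pl F F' = pl F F'' → F' = F''

theorem sub_pair {V : Type*} [Inhabited V] {s : Set V} (hs : s.Finite) (h : s.ncard ≤ 2) :
    ∃ X Y, s ⊆ {X, Y} := by
  have h1 : s.ncard = 0 ∨ s.ncard = 1 ∨ s.ncard = 2 := by omega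
  rcases h1 with h1 | h1 | h1
  · rw [Set.ncard_eq_zero hs] at h1
    exact ⟨default, default, by rw [h1]; exact Set.empty_subset _⟩
  · obtain ⟨x, hx⟩ := Set.ncard_eq_one.1 h1
    exact ⟨x, x, by rw [hx]; simp⟩
  · obtain ⟨x, y, -, hxy⟩ := Set.ncard_eq_two.1 h1
    exact ⟨x, y, hxy.le⟩

theorem St2.extend [Finite G] {A B : Set G} {N : Subgroup G} [N.Normal] {T : SimpleGraph (G ⧸ N)}
    {L : G → Set G} {S : Set (G ⧸ N)} {f : Perm G} {pl : (G ⧸ N) → (G ⧸ N) → G}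
    (h : St2 A N T L S f pl) (hAinv : ∀ a ∈ A, a⁻¹ ∈ A) (hBA : B ⊆ A)
    (hLN : ∀ a, ∀ b ∈ L a, b ∈ N)
    (hP : ∀ a ∈ A, ∀ b ∈ L a, ∀ a₁ ∈ A, ∀ a₂ ∈ A, HPathTwo B (L a₁) (L a₂) N (a⁻¹ * b * a))
    (hTA : ∀ F F' : G ⧸ N, T.Adj F F' → ∃ a ∈ A, F' = F * QuotientGroup.mk a)
    (hdeg : ∀ F, {F' | T.Adj F F'}.ncard ≤ 3) {F F' : G ⧸ N} (hF : F ∈ S)
    (hF' : F' ∉ S) (hT : T.Adj F F') :
    ∃ f' pl', St2 A N T L (insert F' S) f' pl' := by
  classical
  obtain ⟨huF, a, ha, hFa, hb⟩ := h.place F hF F' hF' hT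
  set u := pl F F' with hu
  have huS : (QuotientGroup.mk u : G ⧸ N) ∈ S := by rw [huF]; exact hF
  set v := f u with hv
  set b := u⁻¹ * v with hbdef
  have hvb : v = u * b := by rw [hbdef, mul_inv_cancel_left]
  have hbN : b ∈ N := hLN a b hb
  -- the neighbours of the new fibre
  have : Inhabited (G ⧸ N) := ⟨F⟩
  obtain ⟨X, Y, hXY⟩ : ∃ X Y, {F'' | F'' ∉ insert F' S ∧ T.Adj F' F''} ⊆ {X, Y} := by
    refine sub_pair (Set.toFinite _) ?_
    have h1 : {F'' | F'' ∉ insert F' S ∧ T.Adj F' F''} ⊂ {F'' | T.Adj F' F''} := by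
      refine ⟨fun x hx => hx.2, fun hc => ?_⟩
      have h2 : F ∈ {F'' | T.Adj F' F''} := hT.symm
      exact (hc h2).1 (Or.inr hF)
    have h2 := Set.ncard_lt_ncard h1 (Set.toFinite _)
    have h3 := hdeg F'
    omega
  obtain ⟨a₁, ha₁, haX⟩ : ∃ a₁ ∈ A, T.Adj F' X → X = F' * QuotientGroup.mk a₁ := by
    by_cases hX : T.Adj F' X
    · obtain ⟨a₁, h1, h2⟩ := hTA _ _ hX
      exact ⟨a₁, h1, fun _ => h2⟩
    · exact ⟨a, ha, fun h => absurd h hX⟩
  obtain ⟨a₂, ha₂, haY⟩ : ∃ a₂ ∈ A, T.Adj F' Y → Y = F' * QuotientGroup.mk a₂ := by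
    by_cases hY : T.Adj F' Y
    · obtain ⟨a₂, h1, h2⟩ := hTA _ _ hY
      exact ⟨a₂, h1, fun _ => h2⟩
    · exact ⟨a, ha, fun h => absurd h hY⟩
  obtain ⟨k0, hk01, hk02, hk03, hk04, z₁, hz₁, z₂, hz₂, hz₁₂, hz₁y, hz₂y, hzL₁, hzL₂⟩ :=
    hP a ha b hb a₁ ha₁ a₂ ha₂
  obtain ⟨k, hk1, hk2, hkap⟩ := coset_perm hk01 hk02 (u * a)
  have hva : u * a * (a⁻¹ * b * a) = v * a := by
    rw [hvb]
    group
  have hk3 : k (v * a) = u * a := by
    rw [hkap, ← hva, inv_mul_cancel_left, hk03, mul_one]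
  have hk4 : ∀ z, (u * a)⁻¹ * z ∈ N → z ≠ v * a → z⁻¹ * k z ∈ B := by
    intro z hz hzv
    rw [hkap]
    have h1 := hk04 _ hz (fun h1 => hzv (by rw [← hva, ← h1, mul_inv_cancel_left]))
    rw [mul_inv_rev, inv_inv, mul_assoc] at h1
    exact h1
  have hmk : ∀ z, (u * a)⁻¹ * z ∈ N ↔ (QuotientGroup.mk z : G ⧸ N) = F' := by
    intro z
    rw [← QuotientGroup.eq, hFa, ← huF]
    exact eq_comm
  have hset : {z | (u * a)⁻¹ * z ∈ N} = {z | (QuotientGroup.mk z : G ⧸ N) = F'} := by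
    ext z
    exact hmk z
  rw [hset] at hk1
  have hvaF : (QuotientGroup.mk (v * a) : G ⧸ N) = F' := by
    rw [← hmk, hvb]
    have h1 : (u * a)⁻¹ * (u * b * a) = a⁻¹ * b * a⁻¹⁻¹ := by group
    rw [h1]
    exact Subgroup.Normal.conj_mem inferInstance b hbN a⁻¹
  have huaF : (QuotientGroup.mk (u * a) : G ⧸ N) = F' := by
    rw [← hmk, inv_mul_cancel]
    exact one_mem N
  have hkout : ∀ z, (QuotientGroup.mk z : G ⧸ N) ≠ F' → k z = z := fun z hz =>
    hk2 z fun h1 => hz ((hmk z).1 h1)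
  have hkin : ∀ z, (QuotientGroup.mk z : G ⧸ N) = F' → z ≠ v * a → z⁻¹ * k z ∈ B :=
    fun z hz => hk4 z ((hmk z).2 hz)
  have hdisj : Disjoint {x | (QuotientGroup.mk x : G ⧸ N) ∈ S}
      {z | (QuotientGroup.mk z : G ⧸ N) = F'} := by
    rw [Set.disjoint_left]
    intro x hx hx'
    have hx1 : (QuotientGroup.mk x : G ⧸ N) ∈ S := hx
    have hx2 : (QuotientGroup.mk x : G ⧸ N) = F' := hx'
    rw [hx2] at hx1
    exact hF' hx1
  have hmerge := isCycleOn_merge (Set.toFinite _) (Set.toFinite _) h.cyc hk1 hdisj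
    (fun x hx => h.fix x fun h1 => by
      have hx2 : (QuotientGroup.mk x : G ⧸ N) = F' := hx
      rw [hx2] at h1
      exact hF' h1)
    (fun x hx => hkout x fun h1 => by
      have hx1 : (QuotientGroup.mk x : G ⧸ N) ∈ S := hx
      rw [h1] at hx1
      exact hF' hx1) (u := u) (w := v * a) huS hvaF
  have hunion : {x | (QuotientGroup.mk x : G ⧸ N) ∈ S} ∪ {z | (QuotientGroup.mk z : G ⧸ N) = F'} =
      {x | (QuotientGroup.mk x : G ⧸ N) ∈ insert F' S} := by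
    ext x
    constructor
    · rintro (h1 | h1)
      · exact Or.inr h1
      · exact Or.inl h1
    · rintro (h1 | h1)
      · exact Or.inr h1
      · exact Or.inl h1
  rw [hunion] at hmerge
  -- values of the new permutation
  have hFu : (f * k * swap u (v * a)) u = u * a := by
    rw [Perm.mul_apply, Perm.mul_apply, swap_apply_left, hk3]
    refine h.fix _ fun h1 => ?_
    rw [huaF] at h1
    exact hF' h1
  have hFw : (f * k * swap u (v * a)) (v * a) = v := by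
    rw [Perm.mul_apply, Perm.mul_apply, swap_apply_right, hkout u, hv]
    intro h1
    rw [h1] at huS
    exact hF' huS
  have hFx : ∀ x, (QuotientGroup.mk x : G ⧸ N) ∈ S → x ≠ u →
      (f * k * swap u (v * a)) x = f x := by
    intro x hx hxu
    have hxF : (QuotientGroup.mk x : G ⧸ N) ≠ F' := by
      intro h1
      rw [h1] at hx
      exact hF' hx
    rw [Perm.mul_apply, Perm.mul_apply, swap_apply_of_ne_of_ne hxu, hkout x hxF]
    rintro rfl
    exact hxF hvaF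
  have hFz : ∀ x, (QuotientGroup.mk x : G ⧸ N) = F' → x ≠ v * a →
      (f * k * swap u (v * a)) x = k x := by
    intro x hx hxw
    rw [Perm.mul_apply, Perm.mul_apply, swap_apply_of_ne_of_ne _ hxw]
    · refine h.fix _ fun h1 => ?_
      have h2 : k x ∈ {z | (QuotientGroup.mk z : G ⧸ N) = F'} := hk1.1.mapsTo hx
      have h3 : (QuotientGroup.mk (k x) : G ⧸ N) = F' := h2
      rw [h3] at h1
      exact hF' h1
    · rintro rfl
      rw [hx] at huS
      exact hF' huS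
  have hFF' : F ≠ F' := fun h1 => hF' (h1 ▸ hF)
  -- the new places
  have hzF : ∀ z ∈ N, (QuotientGroup.mk (u * a * z) : G ⧸ N) = F' := by
    intro z hz
    rw [← hmk, inv_mul_cancel_left]
    exact hz
  have hzne : ∀ z, z ≠ a⁻¹ * b * a → u * a * z ≠ v * a := by
    intro z hz h1
    apply hz
    rw [← hva] at h1
    exact mul_left_cancel h1
  have hzk : ∀ z, (u * a * z)⁻¹ * k (u * a * z) = z⁻¹ * k0 z := by
    intro z
    rw [hkap, inv_mul_cancel_left, mul_inv_rev, mul_assoc, inv_mul_cancel_left]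
  refine ⟨f * k * swap u (v * a), fun F₁ F₂ => if F₁ = F' then
    (if F₂ = X then u * a * z₁ else u * a * z₂) else pl F₁ F₂, hmerge, ?_, ?_, ?_, ?_⟩
  · intro x hx
    have h1 : (QuotientGroup.mk x : G ⧸ N) ∉ S := fun h1 => hx (Or.inr h1)
    have h2 : (QuotientGroup.mk x : G ⧸ N) ≠ F' := fun h2 => hx (Or.inl h2)
    rw [Perm.mul_apply, Perm.mul_apply, swap_apply_of_ne_of_ne, hkout x h2, h.fix x h1]
    · rintro rfl
      exact h1 huS
    · rintro rfl
      exact h2 hvaF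
  · intro x hx
    by_cases hxu : x = u
    · rw [hxu, hFu, inv_mul_cancel_left]
      exact ha
    by_cases hxw : x = v * a
    · rw [hxw, hFw]
      have h1 : (v * a)⁻¹ * v = a⁻¹ := by group
      rw [h1]
      exact hAinv a ha
    rcases hx with hx | hx
    · rw [hFz x hx hxw]
      exact hBA (hkin x hx hxw)
    · rw [hFx x hx hxu]
      exact h.adj x hx
  · intro F₁ hF₁ F₂ hF₂ hT₁₂
    have hF₂' : F₂ ≠ F' := fun h1 => hF₂ (Or.inl h1)
    have hF₂S : F₂ ∉ S := fun h1 => hF₂ (Or.inr h1)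
    by_cases h1 : F₁ = F'
    · subst h1
      simp only [if_true]
      have h2 : F₂ ∈ ({X, Y} : Set (G ⧸ N)) := hXY ⟨hF₂, hT₁₂⟩
      by_cases h3 : F₂ = X
      · rw [if_pos h3]
        refine ⟨hzF z₁ hz₁, a₁, ha₁, ?_, ?_⟩
        · rw [h3] at hT₁₂ ⊢
          exact haX hT₁₂
        · rw [hFz _ (hzF z₁ hz₁) (hzne z₁ hz₁y), hzk]
          exact hzL₁
      · rw [if_neg h3]
        have h4 : F₂ = Y := by
          rcases h2 with h2 | h2
          · exact absurd h2 h3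
          · exact h2
        refine ⟨hzF z₂ hz₂, a₂, ha₂, ?_, ?_⟩
        · rw [h4] at hT₁₂ ⊢
          exact haY hT₁₂
        · rw [hFz _ (hzF z₂ hz₂) (hzne z₂ hz₂y), hzk]
          exact hzL₂
    · simp only [if_neg h1]
      have hF₁S : F₁ ∈ S := by
        rcases hF₁ with h2 | h2
        · exact absurd h2 h1
        · exact h2
      obtain ⟨h2, a', ha', h3, h4⟩ := h.place F₁ hF₁S F₂ hF₂S hT₁₂
      refine ⟨h2, a', ha', h3, ?_⟩
      rw [hFx _ (by rw [h2]; exact hF₁S)]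
      · exact h4
      · intro h5
        have h6 : F₁ = F := by rw [← h2, h5, huF]
        subst h6
        exact hF₂' (h.inj F₁ hF₁S F₂ hF₂S F' hF' hT₁₂ hT h5)
  · intro F₁ hF₁ F₂ hF₂ F₃ hF₃ hT₂ hT₃ he
    have hF₂S : F₂ ∉ S := fun h1 => hF₂ (Or.inr h1)
    have hF₃S : F₃ ∉ S := fun h1 => hF₃ (Or.inr h1)
    by_cases h1 : F₁ = F'
    · subst h1
      simp only [if_true] at he
      have h2 : F₂ ∈ ({X, Y} : Set (G ⧸ N)) := hXY ⟨hF₂, hT₂⟩
      have h3 : F₃ ∈ ({X, Y} : Set (G ⧸ N)) := hXY ⟨hF₃, hT₃⟩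
      by_cases h4 : F₂ = X <;> by_cases h5 : F₃ = X
      · rw [h4, h5]
      · rw [if_pos h4, if_neg h5] at he
        exact absurd (mul_left_cancel he) hz₁₂
      · rw [if_neg h4, if_pos h5] at he
        exact absurd (mul_left_cancel he).symm hz₁₂
      · rcases h2 with h2 | h2
        · exact absurd h2 h4
        rcases h3 with h3 | h3
        · exact absurd h3 h5
        rw [Set.mem_singleton_iff] at h2 h3
        rw [h2, h3]
    · simp only [if_neg h1] at he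
      have hF₁S : F₁ ∈ S := by
        rcases hF₁ with h2 | h2
        · exact absurd h2 h1
        · exact h2
      exact h.inj F₁ hF₁S F₂ hF₂S F₃ hF₃S hT₂ hT₃ he

/-- **The lifting theorem with prescribed labels.** -/
theorem lift_two [Finite G] {A B : Set G} {N : Subgroup G} [N.Normal] {L : G → Set G}
    (hAinv : ∀ a ∈ A, a⁻¹ ∈ A) (hgen : Subgroup.closure A = ⊤) (hAne : A.Nonempty) (hBA : B ⊆ A)
    (hLN : ∀ a, ∀ b ∈ L a, b ∈ N) (hC : ∀ a ∈ A, HCycleOne B (L a) N)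
    (hP : ∀ a ∈ A, ∀ b ∈ L a, ∀ a₁ ∈ A, ∀ a₂ ∈ A, HPathTwo B (L a₁) (L a₂) N (a⁻¹ * b * a)) :
    HCyc A (Set.univ : Set G) := by
  classical
  have := Fintype.ofFinite G
  have := Fintype.ofFinite (G ⧸ N)
  set Ā : Set (G ⧸ N) := (QuotientGroup.mk : G → G ⧸ N) '' A with hĀ
  have hĀinv : ∀ b ∈ Ā, b⁻¹ ∈ Ā := by
    rintro _ ⟨a, ha, rfl⟩
    exact ⟨a⁻¹, hAinv a ha, rfl⟩
  have hĀgen : Subgroup.closure Ā = ⊤ := by
    have h1 := Subgroup.map_top_of_surjective (QuotientGroup.mk' N)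
      (QuotientGroup.mk'_surjective N)
    rw [← hgen, MonoidHom.map_closure] at h1
    exact h1
  obtain ⟨T₀, hTle₀, hTc₀, hTdeg₀⟩ := cay_deg_three Ā hĀinv hĀgen
  obtain ⟨T, hTT, hTree⟩ := hTc₀.exists_isTree_le
  have hTle : T ≤ cay Ā hĀinv := hTT.trans hTle₀
  have hTc := hTree.1
  have hdeg : ∀ F, {F' | T.Adj F F'}.ncard ≤ 3 := by
    intro F
    have h1 : {F' | T₀.Adj F F'}.ncard = dg T₀ F := by
      unfold dg
      rw [← Set.ncard_coe_finset]
      congr 1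
      ext y
      simp
    have h2 := Set.ncard_le_ncard (s := {F' | T.Adj F F'}) (t := {F' | T₀.Adj F F'})
      (fun x hx => hTT hx) (Set.toFinite _)
    have h3 := hTdeg₀ F
    omega
  have hTA : ∀ F F' : G ⧸ N, T.Adj F F' → ∃ a ∈ A, F' = F * QuotientGroup.mk a := by
    intro F F' h
    obtain ⟨-, a, ha, hFa⟩ := hTle h
    exact ⟨a, ha, by rw [hFa, mul_inv_cancel_left]⟩
  -- the root
  obtain ⟨F₀, hF₀⟩ : ∃ F₀ : G ⧸ N, {F' | T.Adj F₀ F'}.ncard ≤ 1 := by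
    rcases subsingleton_or_nontrivial (G ⧸ N) with hs | hs
    · refine ⟨QuotientGroup.mk 1, ?_⟩
      have : {F' | T.Adj (QuotientGroup.mk 1 : G ⧸ N) F'} = ∅ := by
        ext F'
        simp only [Set.mem_setOf_eq, Set.mem_empty_iff_false, iff_false]
        intro h
        exact h.ne (Subsingleton.elim _ _)
      rw [this, Set.ncard_empty]
      exact Nat.zero_le 1
    · obtain ⟨F₀, h1⟩ := hTree.exists_vert_degree_one_of_nontrivial
      refine ⟨F₀, ?_⟩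
      have h2 : {F' | T.Adj F₀ F'}.ncard = T.degree F₀ := by
        rw [← SimpleGraph.card_neighborSet_eq_degree, ← Nat.card_eq_fintype_card]
        rfl
      omega
  obtain ⟨a0, ha0⟩ := hAne
  obtain ⟨X, hX⟩ : ∃ X, {F' | T.Adj F₀ F'} ⊆ {X} := by
    have h1 : {F' | T.Adj F₀ F'}.ncard = 0 ∨ {F' | T.Adj F₀ F'}.ncard = 1 := by omega
    rcases h1 with h1 | h1
    · rw [Set.ncard_eq_zero (Set.toFinite _)] at h1
      exact ⟨F₀, by rw [h1]; exact Set.empty_subset _⟩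
    · obtain ⟨x, hx⟩ := Set.ncard_eq_one.1 h1
      exact ⟨x, hx.le⟩
  obtain ⟨a₁, ha₁, haX⟩ : ∃ a₁ ∈ A, T.Adj F₀ X → X = F₀ * QuotientGroup.mk a₁ := by
    by_cases hX : T.Adj F₀ X
    · obtain ⟨a₁, h1, h2⟩ := hTA _ _ hX
      exact ⟨a₁, h1, fun _ => h2⟩
    · exact ⟨a0, ha0, fun h => absurd h hX⟩
  have hstart : ∃ f pl, St2 A N T L {F₀} f pl := by
    obtain ⟨g, hg⟩ := QuotientGroup.mk_surjective F₀
    obtain ⟨k0, hk1, hk2, hk3, z₁, hz₁, hz₁L⟩ := hC a₁ ha₁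
    obtain ⟨k, hk4, hk5, hkap⟩ := coset_perm hk1 hk2 g
    have hmk : ∀ z, (QuotientGroup.mk z : G ⧸ N) ∈ ({F₀} : Set (G ⧸ N)) ↔ g⁻¹ * z ∈ N := by
      intro z
      rw [Set.mem_singleton_iff, ← hg, eq_comm, QuotientGroup.eq]
    have hset : {x : G | (QuotientGroup.mk x : G ⧸ N) ∈ ({F₀} : Set (G ⧸ N))} =
        {z | g⁻¹ * z ∈ N} := by
      ext z
      exact hmk z
    have hgz : (QuotientGroup.mk (g * z₁) : G ⧸ N) = F₀ := by
      have := (hmk (g * z₁)).2 (by rwa [inv_mul_cancel_left])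
      exact this
    refine ⟨k, fun _ _ => g * z₁, ?_, ?_, ?_, ?_, ?_⟩
    · rw [hset]
      exact hk4
    · intro x hx
      exact hk5 x fun h1 => hx ((hmk x).2 h1)
    · intro x hx
      rw [hkap]
      have h1 := hk3 _ ((hmk x).1 hx)
      rw [mul_inv_rev, inv_inv, mul_assoc] at h1
      exact hBA h1
    · intro F hF F' hF' hT
      rw [Set.mem_singleton_iff] at hF
      subst hF
      refine ⟨hgz, a₁, ha₁, ?_, ?_⟩
      · have h1 : F' = X := hX hT
        rw [h1] at hT ⊢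
        exact haX hT
      · rw [hkap, inv_mul_cancel_left, mul_inv_rev, mul_assoc, inv_mul_cancel_left]
        exact hz₁L
    · intro F hF F' hF' F'' hF'' hT hT' _
      rw [Set.mem_singleton_iff] at hF
      subst hF
      have h1 : F' = X := hX hT
      have h2 : F'' = X := hX hT'
      rw [h1, h2]
  -- a maximal state
  obtain ⟨S, hS, hSmax⟩ : ∃ S : Set (G ⧸ N), (F₀ ∈ S ∧ ∃ f pl, St2 A N T L S f pl) ∧
      ∀ S' : Set (G ⧸ N), (F₀ ∈ S' ∧ ∃ f pl, St2 A N T L S' f pl) →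
        S'.ncard ≤ S.ncard := by
    obtain ⟨S, hS, hm⟩ := exists_max_image
      (univ.filter fun S : Set (G ⧸ N) => F₀ ∈ S ∧ ∃ f pl, St2 A N T L S f pl)
      (fun S => S.ncard) ⟨{F₀}, mem_filter.2 ⟨mem_univ _, rfl, hstart⟩⟩
    exact ⟨S, (mem_filter.1 hS).2, fun S' hS' => hm S' (mem_filter.2 ⟨mem_univ _, hS'⟩)⟩
  obtain ⟨hS1, f, pl, hSt⟩ := hS
  have hSuniv : S = Set.univ := by
    by_contra hne
    obtain ⟨y, hy⟩ := (Set.ne_univ_iff_exists_notMem S).1 hne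
    have hedge : ∃ F F', F ∈ S ∧ F' ∉ S ∧ T.Adj F F' := by
      by_contra hno
      push Not at hno
      have h1 : Relation.ReflTransGen T.Adj F₀ y :=
        (reachable_iff_reflTransGen _ _).1 (hTc.preconnected _ _)
      have h2 : y ∈ S := by
        clear hy
        induction h1 with
        | refl => exact hS1
        | @tail b c _ h3 ih =>
          by_contra hc
          exact hno b c ih hc h3
      exact hy h2
    obtain ⟨F, F', hF, hF', hT⟩ := hedge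
    obtain ⟨f', pl', hSt'⟩ := hSt.extend hAinv hBA hLN hP hTA hdeg hF hF' hT
    have h1 := hSmax (insert F' S) ⟨Or.inr hS1, f', pl', hSt'⟩
    rw [Set.ncard_insert_of_notMem hF' (Set.toFinite _)] at h1
    omega
  subst hSuniv
  refine ⟨f, ?_, fun x hx => absurd (Set.mem_univ x) hx, fun x _ => hSt.adj x (Set.mem_univ _)⟩
  have h1 := hSt.cyc
  have h2 : {x : G | (QuotientGroup.mk x : G ⧸ N) ∈ (Set.univ : Set (G ⧸ N))} = Set.univ := by
    ext x
    simp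
  rw [h2] at h1
  exact h1

end Pool.Agent.Helper43.CQ
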