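import Pool.Agent.Helper43.CQ.Cross
import Pool.Agent.Helper43.CQ.LiftTwo

/-!
# Abelian normal subgroups
-/

set_option autoImplicit false

namespace Pool.Agent.Helper43.CQ

open Equiv
open Pool.Agent.Q112.CH Q238.RS

variable {G : Type*} [Group G] {M : Type*} [CommGroup M]

theorem perm_of_list {N : Subgroup G} {φ : M →* G} (hφ : Function.Injective φ)
    (hN : ∀ z, z ∈ N ↔ ∃ x, φ x = z) {l : List M} (hnd : l.Nodup) (hall : ∀ v, v ∈ l)
    (hl : 0 < l.length) :
    ∃ k : Perm G, k.IsCycleOn (N : Set G) ∧ (∀ z, z ∉ N → k z = z) ∧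
      (∀ i, i + 1 < l.length → k (φ (l.getD i 1)) = φ (l.getD (i + 1) 1)) ∧
      k (φ (l.getD (l.length - 1) 1)) = φ (l.getD 0 1) := by
  classical
  set L : List G := l.map φ with hL
  have hLlen : L.length = l.length := by rw [hL, List.length_map]
  have hLnd : L.Nodup := hnd.map hφ
  have hset : {a | a ∈ L} = (N : Set G) := by
    ext z
    show z ∈ L ↔ z ∈ N
    rw [hL, List.mem_map, hN]
    constructor
    · rintro ⟨x, -, hx⟩
      exact ⟨x, hx⟩
    · rintro ⟨x, hx⟩
      exact ⟨x, hall x, hx⟩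
  have hget : ∀ i (hi : i < L.length), L[i] = φ (l.getD i 1) := by
    intro i hi
    rw [List.getD_eq_getElem _ _ (by omega)]
    simp [hL]
  have hap := List.formPerm_apply_getElem L hLnd
  refine ⟨L.formPerm, ?_, ?_, ?_, ?_⟩
  · rw [← hset]
    exact hLnd.isCycleOn_formPerm
  · intro z hz
    refine List.formPerm_apply_of_notMem fun h => hz ?_
    have : z ∈ {a | a ∈ L} := h
    rwa [hset] at this
  · intro i hi
    have h1 := hap i (by omega)
    rw [hget, hget] at h1
    rw [h1, hLlen, Nat.mod_eq_of_lt hi]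
  · have h1 := hap (l.length - 1) (by omega)
    rw [hget, hget] at h1
    rw [h1, hLlen, show l.length - 1 + 1 = l.length by omega, Nat.mod_self]

/-- the elements whose conjugates by `g` are products of an even number of elements of `B₀` -/
def evenConj (φ : M →* G) (B₀ : Set M) (hB : ∀ b ∈ B₀, b⁻¹ ∈ B₀) (g : G) : Subgroup M where
  carrier := {x | ∃ x', φ x' = g⁻¹ * φ x * g ∧ Wd B₀ 0 x'}
  one_mem' := ⟨1, by simp, Wd.one⟩
  mul_mem' := by
    rintro x y ⟨x', hx, hx'⟩ ⟨y', hy, hy'⟩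
    refine ⟨x' * y', ?_, (hx'.mul hy').congr (by norm_num)⟩
    rw [map_mul, map_mul, hx, hy]
    group
  inv_mem' := by
    rintro x ⟨x', hx, hx'⟩
    refine ⟨x'⁻¹, ?_, hx'.inv hB⟩
    rw [map_inv, map_inv, hx]
    group

theorem getD_inj {l : List M} (hnd : l.Nodup) {i j : ℕ} (hi : i < l.length) (hj : j < l.length)
    (h : l.getD i 1 = l.getD j 1) : i = j := by
  rw [List.getD_eq_getElem _ _ hi, List.getD_eq_getElem _ _ hj] at h
  exact (List.Nodup.getElem_inj_iff hnd).1 h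

theorem exists_getD {l : List M} (hall : ∀ v, v ∈ l) (x : M) :
    ∃ i, i < l.length ∧ l.getD i 1 = x := by
  obtain ⟨i, hi, rfl⟩ := List.getElem_of_mem (hall x)
  exact ⟨i, hi, List.getD_eq_getElem _ _ hi⟩

theorem main_large [Finite G] {A : Set G} (hAinv : ∀ a ∈ A, a⁻¹ ∈ A)
    (hgen : Subgroup.closure A = ⊤) {N : Subgroup G} [N.Normal] {φ : M →* G}
    (hφ : Function.Injective φ) (hN : ∀ z, z ∈ N ↔ ∃ x, φ x = z) (hcard : 5 ≤ Nat.card M)
    {B₀ : Set M} (hB₀A : ∀ b ∈ B₀, φ b ∈ A) (hinv : ∀ b ∈ B₀, b⁻¹ ∈ B₀) (hne : B₀.Nonempty)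
    (hB1 : (1 : M) ∉ B₀) (hgen₀ : Subgroup.closure B₀ = ⊤) (hgood : GoodSet B₀) :
    HCyc A (Set.univ : Set G) := by
  classical
  have hMfin : Finite M := Finite.of_injective φ hφ
  have hcardN : Nat.card N = Nat.card M := by
    have h1 : N = φ.range := by
      ext z
      rw [hN]
      rfl
    rw [h1]
    exact (Nat.card_congr (MonoidHom.ofInjective hφ).toEquiv).symm
  set B : Set G := φ '' B₀ with hB
  have hBA : B ⊆ A := by
    rintro _ ⟨b, hb, rfl⟩
    exact hB₀A b hb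
  have hBN : ∀ b ∈ B, b ∈ N := by
    rintro _ ⟨b, hb, rfl⟩
    exact (hN _).2 ⟨b, rfl⟩
  have hBinv : ∀ b ∈ B, b⁻¹ ∈ B := by
    rintro _ ⟨b, hb, rfl⟩
    exact ⟨b⁻¹, hinv b hb, map_inv φ b⟩
  obtain ⟨b0, hb0⟩ := hne
  -- conjugation
  have hconj : ∀ (g : G) (x : M), ∃ x', φ x' = g⁻¹ * φ x * g := by
    intro g x
    have h1 := Subgroup.Normal.conj_mem (inferInstance : N.Normal) (φ x) ((hN _).2 ⟨x, rfl⟩) g⁻¹
    rw [inv_inv] at h1
    exact (hN _).1 h1
  have hall : ∀ {y : M} {l : List M}, HPL (cadj B₀) Set.univ 1 y l → ∀ v, v ∈ l :=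
    fun h v => (h.2.1 v).2 (Set.mem_univ v)
  -- paths
  have hpath : ∀ y : M, y ≠ 1 → Wd B₀ 1 y → ∃ l, HPL (cadj B₀) Set.univ 1 y l := by
    intro y hy hw
    have := hgood y hy hw
    rw [hgen₀] at this
    exact this
  -- from lists to permutations
  have hperm : ∀ {y : M} {l : List M}, HPL (cadj B₀) Set.univ 1 y l →
      ∃ k : Perm G, k.IsCycleOn (N : Set G) ∧ (∀ z, z ∉ N → k z = z) ∧ k (φ y) = 1 ∧
        (∀ i, i + 1 < l.length → (φ (l.getD i 1))⁻¹ * k (φ (l.getD i 1)) = φ (stp l i)) ∧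
        ∀ z ∈ N, z ≠ φ y → z⁻¹ * k z ∈ B := by
    intro y l hl
    obtain ⟨k, hk1, hk2, hk3, hk4⟩ := perm_of_list hφ hN hl.1 (hall hl) hl.head.2
    rw [hl.last, hl.head.1, map_one] at hk4
    have hk5 : ∀ i, i + 1 < l.length → (φ (l.getD i 1))⁻¹ * k (φ (l.getD i 1)) = φ (stp l i) := by
      intro i hi
      rw [hk3 i hi]
      unfold stp
      rw [map_mul, map_inv]
    refine ⟨k, hk1, hk2, hk4, hk5, ?_⟩
    intro z hz hzy
    obtain ⟨x, rfl⟩ := (hN z).1 hz
    obtain ⟨i, hi, hix⟩ := exists_getD (hall hl) x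
    have hi2 : i + 1 < l.length := by
      by_contra h1
      apply hzy
      rw [← hix, show i = l.length - 1 by omega, hl.last]
    rw [← hix, hk5 i hi2]
    exact ⟨_, hl.stp_mem hi2, rfl⟩
  by_cases hbip : Wd B₀ 1 (1 : M)
  · -- the graph is Hamilton-connected
    have hodd : ∀ x : M, Wd B₀ 1 x := by
      intro x
      have hx : x ∈ Subgroup.closure B₀ := by
        rw [hgen₀]
        exact Subgroup.mem_top x
      rcases exists_wd hinv hx with h | h
      · have := h.mul hbip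
        rw [mul_one] at this
        exact this.congr (by norm_num)
      · exact h
    have hHP : ∀ y ∈ N, y ≠ 1 → HPath B N 1 y := by
      intro y hy hy1
      obtain ⟨x, rfl⟩ := (hN y).1 hy
      have hx1 : x ≠ 1 := by
        rintro rfl
        exact hy1 (map_one φ)
      obtain ⟨l, hl⟩ := hpath x hx1 (hodd x)
      obtain ⟨k, hk1, hk2, hk3, -, hk5⟩ := hperm hl
      exact ⟨k, hk1, hk2, hk3, hk5⟩
    have hne1 : ∀ b ∈ B, b ≠ 1 := by
      rintro _ ⟨b, hb, rfl⟩ h
      have : b = 1 := hφ (by rw [h, map_one])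
      exact hB1 (this ▸ hb)
    refine lift_main hAinv hgen hBA hBN hBinv ⟨_, b0, hb0, rfl⟩
      (fun b hb => hHP b (hBN b hb) (hne1 b hb)) ?_ (by omega)
    intro b hb a ha
    refine hHP _ ?_ ?_
    · have h1 := Subgroup.Normal.conj_mem (inferInstance : N.Normal) b (hBN b hb) a⁻¹
      rwa [inv_inv] at h1
    · intro h
      apply hne1 b hb
      have : b = a * (a⁻¹ * b * a) * a⁻¹ := by group
      rw [this, h]
      group
  · -- the graph is bipartite
    set K : G → Subgroup M := evenConj φ B₀ hinv with hK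
    have hmemK : ∀ g x, x ∈ K g ↔ ∃ x', φ x' = g⁻¹ * φ x * g ∧ Wd B₀ 0 x' := fun g x => Iff.rfl
    have hnotK : ∀ g x, x ∉ K g → ∀ x', φ x' = g⁻¹ * φ x * g → Wd B₀ 1 x' := by
      intro g x hx x' hx'
      have hxc : x' ∈ Subgroup.closure B₀ := by
        rw [hgen₀]
        exact Subgroup.mem_top x'
      rcases exists_wd hinv hxc with h | h
      · exact absurd ((hmemK g x).2 ⟨x', hx', h⟩) hx
      · exact h
    have hKtop : ∀ g, K g ≠ ⊤ := by
      intro g h
      obtain ⟨x, hx⟩ := hconj g⁻¹ b0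
      have h1 : x ∈ K g := by
        rw [h]
        exact Subgroup.mem_top x
      obtain ⟨x', hx', hw⟩ := (hmemK g x).1 h1
      have h2 : φ x' = φ b0 := by
        rw [hx', hx]
        group
      rw [hφ h2] at hw
      exact Wd.uniq hinv hbip hw ((Wd.of_mem hb0).congr (by norm_num))
    have hK2 : ∀ g x, x ∉ K g → ∀ y, y ∉ K g → x * y ∈ K g := by
      intro g x hx y hy
      obtain ⟨x', hx'⟩ := hconj g x
      obtain ⟨y', hy'⟩ := hconj g y
      refine (hmemK g _).2 ⟨x' * y', ?_,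
        ((hnotK g x hx x' hx').mul (hnotK g y hy y' hy')).congr (by norm_num)⟩
      rw [map_mul, map_mul, hx', hy']
      group
    refine lift_two (N := N) (L := fun a => {c | ∃ b ∈ B₀, φ b = c ∧ b ∉ K a}) hAinv hgen
      ⟨_, hB₀A b0 hb0⟩ hBA ?_ ?_ ?_
    · rintro a c ⟨b, hb, rfl, -⟩
      exact (hN _).2 ⟨b, rfl⟩
    · intro a _
      have hb01 : b0 ≠ 1 := by
        rintro rfl
        exact hB1 hb0
      obtain ⟨l, hl⟩ := hpath b0 hb01 (Wd.of_mem hb0)
      obtain ⟨k, hk1, hk2, hk3, hk4, hk5⟩ := hperm hl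
      obtain ⟨i, hi⟩ := one_cross hl (hKtop a)
      refine ⟨k, hk1, hk2, ?_, φ (l.getD i 1), (hN _).2 ⟨_, rfl⟩, ?_⟩
      · intro z hz
        by_cases hzb : z = φ b0
        · rw [hzb, hk3, mul_one]
          exact hBinv _ ⟨b0, hb0, rfl⟩
        · exact hk5 z hz hzb
      · rw [hk4 i hi.1]
        exact ⟨_, hl.stp_mem hi.1, rfl, hi.2⟩
    · rintro a ha _ ⟨b, hb, rfl, hbK⟩ a₁ _ a₂ _
      obtain ⟨y, hy⟩ := hconj a b
      have hyw : Wd B₀ 1 y := hnotK a b hbK y hy
      obtain ⟨l, hl, i, j, hij, hi, hj⟩ := two_cross hinv hgen₀ hgood hbip hcard hyw (hKtop a₁)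
        (hK2 a₁)
      obtain ⟨p, hp⟩ := one_cross hl (hKtop a₂)
      obtain ⟨q, hqp, hq⟩ : ∃ q, q ≠ p ∧ Cr (K a₁) l q := by
        by_cases hip : i = p
        · exact ⟨j, fun h => hij (hip.trans h.symm), hj⟩
        · exact ⟨i, hip, hi⟩
      obtain ⟨k, hk1, hk2, hk3, hk4, hk5⟩ := hperm hl
      rw [← hy]
      have hlast : ∀ i, i + 1 < l.length → φ (l.getD i 1) ≠ φ y := by
        intro i hi h
        have h1 := hφ h
        rw [← hl.last] at h1
        have := getD_inj hl.1 (by omega) (by omega) h1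
        omega
      refine ⟨k, hk1, hk2, hk3, hk5, φ (l.getD q 1), (hN _).2 ⟨_, rfl⟩, φ (l.getD p 1),
        (hN _).2 ⟨_, rfl⟩, ?_, hlast q hq.1, hlast p hp.1, ?_, ?_⟩
      · intro h
        have h1 := hq.1
        have h2 := hp.1
        exact hqp (getD_inj hl.1 (by omega) (by omega) (hφ h))
      · rw [hk4 q hq.1]
        exact ⟨_, hl.stp_mem hq.1, rfl, hq.2⟩
      · rw [hk4 p hp.1]
        exact ⟨_, hl.stp_mem hp.1, rfl, hp.2⟩

/-- **Abelian normal subgroups generated by at least three elements of `A`.** -/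
theorem main_abelian [Finite G] {A : Set G} (hAinv : ∀ a ∈ A, a⁻¹ ∈ A)
    (hgen : Subgroup.closure A = ⊤) {N : Subgroup G} (hnormal : N.Normal)
    (hcomm : ∀ x ∈ N, ∀ y ∈ N, x * y = y * x) (hNgen : Subgroup.closure (A ∩ N) = N)
    (h3 : 3 ≤ ((A ∩ N) \ {1}).ncard) : HCyc A (Set.univ : Set G) := by
  classical
  rcases Nat.lt_or_ge (Nat.card N) 5 with hsmall | hlarge
  · -- more than half of the elements
    set B : Set G := (A ∩ N) \ {1} with hB
    have hBN : ∀ b ∈ B, b ∈ N := fun b hb => hb.1.2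
    have hBinv : ∀ b ∈ B, b⁻¹ ∈ B := by
      rintro b ⟨⟨h1, h2⟩, h4⟩
      exact ⟨⟨hAinv b h1, inv_mem h2⟩, fun h => h4 (inv_eq_one.1 h)⟩
    have hB1 : (1 : G) ∉ B := fun h => h.2 rfl
    have hHP : ∀ y ∈ N, y ≠ 1 → HPath B N 1 y := by
      intro y hy hy1
      obtain ⟨l, h4, h5, h6, h7⟩ := ore_list hBN hBinv hB1 (by omega) hy hy1
      exact hpath_of_list hBN h4 h5 h6 h7
    have hne : B.Nonempty := by
      rw [← Set.ncard_pos (Set.toFinite _)]
      omega
    have hle : B.ncard + 1 ≤ Nat.card N := by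
      have h4 : insert (1 : G) B ⊆ (N : Set G) := by
        rintro x (hx | hx)
        · rw [hx]
          exact one_mem N
        · exact hBN x hx
      have h5 := Set.ncard_le_ncard h4 (Set.toFinite _)
      rw [Set.ncard_insert_of_notMem hB1 (Set.toFinite _)] at h5
      exact h5
    refine lift_main hAinv hgen (fun b hb => hb.1.1) hBN hBinv hne
      (fun b hb => hHP b (hBN b hb) fun h => hB1 (h ▸ hb)) ?_ (by omega)
    intro b hb a ha
    refine hHP _ ?_ ?_
    · have h1 := Subgroup.Normal.conj_mem hnormal b (hBN b hb) a⁻¹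
      rwa [inv_inv] at h1
    · intro h
      apply hb.2
      have : b = a * (a⁻¹ * b * a) * a⁻¹ := by group
      rw [this, h]
      show a * 1 * a⁻¹ = 1
      group
  · letI : CommGroup N := { (inferInstance : Group N) with
      mul_comm := fun x y => Subtype.ext (hcomm x x.2 y y.2) }
    set B : Set N := {b | (b : G) ∈ A} with hB
    have hBinv : ∀ b ∈ B, b⁻¹ ∈ B := fun b hb => hAinv _ hb
    have himage : (N.subtype) '' B = A ∩ N := by
      ext z
      constructor
      · rintro ⟨b, hb, rfl⟩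
        exact ⟨hb, b.2⟩
      · rintro ⟨h1, h2⟩
        exact ⟨⟨z, h2⟩, h1, rfl⟩
    have hBgen : Subgroup.closure B = ⊤ := by
      have h1 : (Subgroup.closure B).map N.subtype = (⊤ : Subgroup N).map N.subtype := by
        rw [MonoidHom.map_closure, himage, hNgen]
        ext z
        constructor
        · intro hz
          exact ⟨⟨z, hz⟩, Subgroup.mem_top _, rfl⟩
        · rintro ⟨x, -, rfl⟩
          exact x.2
      exact Subgroup.map_injective N.subtype_injective h1
    have hB3 : 3 ≤ (B \ {1}).ncard := by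
      have h1 : (N.subtype) '' (B \ {1}) = (A ∩ N) \ {1} := by
        rw [Set.image_diff N.subtype_injective, himage, Set.image_singleton]
        rfl
      rw [← Set.ncard_image_of_injective _ N.subtype_injective, h1]
      exact h3
    obtain ⟨B₀, h1, h2, h4, h5, h6, h7⟩ := exists_good hBinv hBgen hB3
    exact main_large hAinv hgen (N := N) (φ := N.subtype) N.subtype_injective
      (fun z => ⟨fun hz => ⟨⟨z, hz⟩, rfl⟩, fun ⟨x, hx⟩ => hx ▸ x.2⟩) hlarge
      (fun b hb => h1 hb) h2 h5 h4 h6 h7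

end Pool.Agent.Helper43.CQ
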